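import Pool.Agent.Helper2.Digits.Pade

/-!
Upper bound for forms evaluated at `1 / b`.
-/

set_option autoImplicit false

open Polynomial

namespace Pool.Agent.Helper2.Digits

/-- The sum of the absolute values of the coefficients. -/
noncomputable def len (P : ℤ[X]) : ℝ := ∑ i ∈ P.support, |(P.coeff i : ℝ)|

theorem len_nonneg (P : ℤ[X]) : 0 ≤ len P := Finset.sum_nonneg fun _ _ => abs_nonneg _

theorem abs_aeval_le (P : ℤ[X]) {x : ℝ} (hx : |x| ≤ 1) : |aeval x P| ≤ len P := by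
  rw [aeval_eq_sum_range, ← sum_over_range' P (n := P.natDegree + 1) (f := fun i a => a • x ^ i)
    (fun n => by simp) (Nat.lt_succ_self _)]
  unfold len
  rw [Polynomial.sum_def]
  refine (Finset.abs_sum_le_sum_abs _ _).trans (Finset.sum_le_sum fun i _ => ?_)
  rw [zsmul_eq_mul, abs_mul, abs_pow]
  exact mul_le_of_le_one_right (abs_nonneg _) (pow_le_one₀ (abs_nonneg x) hx)

theorem abs_pow_sub_pow_le' {a b Y : ℝ} (hY : 1 ≤ Y) (ha : |a| ≤ Y) (hb : |b| ≤ Y) (k : ℕ) :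
    |a ^ k - b ^ k| ≤ k * Y ^ k * |a - b| := by
  induction k with
  | zero => simp
  | succ k ih =>
    have h1 : a ^ (k + 1) - b ^ (k + 1) = a * (a ^ k - b ^ k) + b ^ k * (a - b) := by ring
    rw [h1]
    refine (abs_add_le _ _).trans ?_
    rw [abs_mul, abs_mul, abs_pow]
    have h2 : |a| * |a ^ k - b ^ k| ≤ Y * (k * Y ^ k * |a - b|) :=
      mul_le_mul ha ih (abs_nonneg _) (by linarith)
    have h3 : |b| ^ k * |a - b| ≤ Y ^ (k + 1) * |a - b| := by
      refine mul_le_mul_of_nonneg_right ?_ (abs_nonneg _)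
      refine (pow_le_pow_left₀ (abs_nonneg b) hb k).trans ?_
      exact pow_le_pow_right₀ hY (Nat.le_succ k)
    refine (add_le_add h2 h3).trans (le_of_eq ?_)
    push_cast
    ring

theorem dvd_sub_trunc (M : ℕ) (z : PowerSeries ℤ) :
    (PowerSeries.X : PowerSeries ℤ) ^ M ∣ z - (PowerSeries.trunc M z : PowerSeries ℤ) := by
  rw [PowerSeries.X_pow_dvd_iff]
  intro n hn
  rw [map_sub, Polynomial.coeff_coe, PowerSeries.coeff_trunc, if_pos hn, sub_self]

theorem dvd_poly_of_dvd_coe {M : ℕ} {P : ℤ[X]} (h : (PowerSeries.X : PowerSeries ℤ) ^ M ∣ P) :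
    X ^ M ∣ P := by
  rw [X_pow_dvd_iff]
  intro n hn
  rw [PowerSeries.X_pow_dvd_iff] at h
  have := h n hn
  rwa [Polynomial.coeff_coe] at this

/-- The form evaluated at the truncation. -/
theorem dvd_trunc_form {m M : ℕ} {A : ℕ → ℤ[X]} {z : PowerSeries ℤ}
    (h : PowerSeries.X ^ M ∣ form m A z) :
    X ^ M ∣ ∑ k ∈ Finset.range (m + 1), A k * (PowerSeries.trunc M z) ^ k := by
  apply dvd_poly_of_dvd_coe
  have h1 : ((∑ k ∈ Finset.range (m + 1), A k * (PowerSeries.trunc M z) ^ k : ℤ[X]) :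
      PowerSeries ℤ) = form m A z - ∑ k ∈ Finset.range (m + 1), (A k : PowerSeries ℤ) *
        (z ^ k - (PowerSeries.trunc M z : PowerSeries ℤ) ^ k) := by
    rw [form, ← Finset.sum_sub_distrib, ← Polynomial.coeToPowerSeries.ringHom_apply, map_sum]
    refine Finset.sum_congr rfl fun k _ => ?_
    rw [map_mul, map_pow]
    simp only [Polynomial.coeToPowerSeries.ringHom_apply]
    ring
  rw [h1]
  refine dvd_sub h (Finset.dvd_sum fun k _ => ?_)
  refine Dvd.dvd.mul_left ?_ _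
  exact (dvd_sub_trunc M z).trans (sub_dvd_pow_sub_pow _ _ k)

theorem tail_bound {s : ℕ} {x : ℝ} (hx0 : 0 ≤ x) (hx : x ≤ 1 / 2) {e : ℕ → ℤ}
    (he : ∀ n, 0 ≤ e n ∧ e n ≤ s) {η : ℝ} (hη : HasSum (fun n => (e n : ℝ) * x ^ n) η) (M : ℕ) :
    |η - ∑ n ∈ Finset.range M, (e n : ℝ) * x ^ n| ≤ 2 * s * x ^ M := by
  have h1 := (hasSum_nat_add_iff' M).mpr hη
  have h0 : 0 ≤ η - ∑ n ∈ Finset.range M, (e n : ℝ) * x ^ n := by
    refine h1.nonneg fun n => ?_
    have : (0 : ℝ) ≤ e (n + M) := by exact_mod_cast (he (n + M)).1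
    positivity
  rw [abs_of_nonneg h0]
  have h2 : HasSum (fun n : ℕ => (s : ℝ) * x ^ M * x ^ n) ((s : ℝ) * x ^ M * (1 - x)⁻¹) :=
    (hasSum_geometric_of_lt_one hx0 (by linarith)).mul_left _
  have h3 := hasSum_le (fun n => ?_) h1 h2
  · refine h3.trans ?_
    have h4 : (1 - x)⁻¹ ≤ 2 := by
      rw [inv_le_comm₀ (by linarith) (by norm_num)]
      linarith
    have h5 : 0 ≤ (s : ℝ) * x ^ M := by positivity
    nlinarith
  · have h6 : (e (n + M) : ℝ) ≤ s := by exact_mod_cast (he (n + M)).2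
    have h7 : 0 ≤ x ^ (n + M) := by positivity
    calc (e (n + M) : ℝ) * x ^ (n + M) ≤ s * x ^ (n + M) := mul_le_mul_of_nonneg_right h6 h7
      _ = s * x ^ M * x ^ n := by rw [pow_add]; ring

theorem key_bound (m : ℕ) (A : ℕ → ℤ[X]) (z : PowerSeries ℤ) (M : ℕ)
    (hdvd : PowerSeries.X ^ M ∣ form m A z) (s : ℕ) :
    ∃ C : ℝ, 0 < C ∧ ∀ x : ℝ, 0 ≤ x → x ≤ 1 / 2 → ∀ (e : ℕ → ℤ) (η : ℝ),
      (∀ n, 0 ≤ e n ∧ e n ≤ s) → (∀ n < M, e n = PowerSeries.coeff n z) →
      HasSum (fun n => (e n : ℝ) * x ^ n) η →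
      |∑ k ∈ Finset.range (m + 1), aeval x (A k) * η ^ k| ≤ C * x ^ M := by
  obtain ⟨H, hH⟩ := dvd_trunc_form hdvd
  set Y : ℝ := 2 * s + 1 with hY
  have hY1 : 1 ≤ Y := by
    have : (0 : ℝ) ≤ s := by positivity
    linarith
  refine ⟨len H + ∑ k ∈ Finset.range (m + 1), len (A k) * (k * Y ^ k * (2 * s)) + 1, ?_, ?_⟩
  · have h1 := len_nonneg H
    have h2 : 0 ≤ ∑ k ∈ Finset.range (m + 1), len (A k) * (k * Y ^ k * (2 * s)) :=
      Finset.sum_nonneg fun k _ => mul_nonneg (len_nonneg _) (by positivity)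
    linarith
  intro x hx0 hx e η he hez hη
  have hx1 : |x| ≤ 1 := by rw [abs_of_nonneg hx0]; linarith
  set ζ : ℝ := aeval x (PowerSeries.trunc M z) with hζ
  have hζe : ζ = ∑ n ∈ Finset.range M, (e n : ℝ) * x ^ n := by
    rw [hζ, PowerSeries.trunc_apply, map_sum, Nat.Ico_zero_eq_range]
    refine Finset.sum_congr rfl fun n hn => ?_
    rw [aeval_monomial, hez n (Finset.mem_range.mp hn)]
    simp
  have htail : |η - ζ| ≤ 2 * s * x ^ M := by
    rw [hζe]
    exact tail_bound hx0 hx he hη M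
  have hηY : |η| ≤ Y := by
    have h1 := tail_bound hx0 hx he hη 0
    simp only [Finset.range_zero, Finset.sum_empty, sub_zero, pow_zero, mul_one] at h1
    linarith
  have hζY : |ζ| ≤ Y := by
    have h0 : 0 ≤ ζ := by
      rw [hζe]
      refine Finset.sum_nonneg fun n _ => ?_
      have : (0 : ℝ) ≤ e n := by exact_mod_cast (he n).1
      positivity
    have h1 : ζ ≤ η := by
      rw [hζe]
      refine sum_le_hasSum _ (fun n _ => ?_) hη
      have : (0 : ℝ) ≤ e n := by exact_mod_cast (he n).1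
      positivity
    rw [abs_of_nonneg h0]
    exact h1.trans ((le_abs_self η).trans hηY)
  have hsplit : ∑ k ∈ Finset.range (m + 1), aeval x (A k) * η ^ k =
      x ^ M * aeval x H + ∑ k ∈ Finset.range (m + 1), aeval x (A k) * (η ^ k - ζ ^ k) := by
    have h1 := congrArg (aeval x) hH
    rw [map_sum, map_mul, map_pow, aeval_X] at h1
    rw [← h1, ← Finset.sum_add_distrib]
    refine Finset.sum_congr rfl fun k _ => ?_
    rw [map_mul, map_pow, ← hζ]
    ring
  rw [hsplit]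
  refine (abs_add_le _ _).trans ?_
  have hxM : 0 ≤ x ^ M := by positivity
  have b1 : |x ^ M * aeval x H| ≤ len H * x ^ M := by
    rw [abs_mul, abs_of_nonneg hxM, mul_comm]
    exact mul_le_mul_of_nonneg_right (abs_aeval_le H hx1) hxM
  have b2 : |∑ k ∈ Finset.range (m + 1), aeval x (A k) * (η ^ k - ζ ^ k)| ≤
      (∑ k ∈ Finset.range (m + 1), len (A k) * (k * Y ^ k * (2 * s))) * x ^ M := by
    rw [Finset.sum_mul]
    refine (Finset.abs_sum_le_sum_abs _ _).trans (Finset.sum_le_sum fun k _ => ?_)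
    rw [abs_mul, mul_assoc]
    refine mul_le_mul (abs_aeval_le _ hx1) ?_ (abs_nonneg _) (len_nonneg _)
    refine (abs_pow_sub_pow_le' hY1 hηY hζY k).trans ?_
    rw [mul_assoc ((k : ℝ) * Y ^ k)]
    exact mul_le_mul_of_nonneg_left htail (by positivity)
  nlinarith

end Pool.Agent.Helper2.Digits
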