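import Pool.Agent.Helper2.Digits.Main

/-!
Power series with integer coefficients and positive radius of convergence, evaluated at small real
numbers.
-/

set_option autoImplicit false

open Polynomial Filter Topology

namespace Pool.Agent.Helper2.Digits

/-- Absolute convergence at the real number `x`. -/
def ASr (f : PowerSeries ℤ) (x : ℝ) : Prop :=
  Summable fun n => ‖((PowerSeries.coeff n f : ℤ) : ℝ) * x ^ n‖

/-- The value at the real number `x`. -/
noncomputable def evr (f : PowerSeries ℤ) (x : ℝ) : ℝ :=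
  ∑' n, ((PowerSeries.coeff n f : ℤ) : ℝ) * x ^ n

theorem coeff_mul_powr (f g : PowerSeries ℤ) (T : ℝ) (n : ℕ) :
    ((PowerSeries.coeff n (f * g) : ℤ) : ℝ) * T ^ n =
      ∑ kl ∈ Finset.HasAntidiagonal.antidiagonal n,
        (((PowerSeries.coeff kl.1 f : ℤ) : ℝ) * T ^ kl.1) *
          (((PowerSeries.coeff kl.2 g : ℤ) : ℝ) * T ^ kl.2) := by
  rw [PowerSeries.coeff_mul, Int.cast_sum, Finset.sum_mul]
  refine Finset.sum_congr rfl fun kl hkl => ?_
  have hkl' : kl.1 + kl.2 = n := Finset.HasAntidiagonal.mem_antidiagonal.mp hkl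
  rw [← hkl', pow_add]
  push_cast
  ring

theorem ASr.mul {f g : PowerSeries ℤ} {T : ℝ} (hf : ASr f T) (hg : ASr g T) : ASr (f * g) T := by
  have h1 := summable_norm_sum_mul_antidiagonal_of_summable_norm
    (f := fun n => ((PowerSeries.coeff n f : ℤ) : ℝ) * T ^ n)
    (g := fun n => ((PowerSeries.coeff n g : ℤ) : ℝ) * T ^ n) hf hg
  refine h1.congr fun n => ?_
  rw [coeff_mul_powr]

theorem evr_mul {f g : PowerSeries ℤ} {T : ℝ} (hf : ASr f T) (hg : ASr g T) :
    evr (f * g) T = evr f T * evr g T := by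
  have h1 := tsum_mul_tsum_eq_tsum_sum_antidiagonal_of_summable_norm
    (f := fun n => ((PowerSeries.coeff n f : ℤ) : ℝ) * T ^ n)
    (g := fun n => ((PowerSeries.coeff n g : ℤ) : ℝ) * T ^ n) hf hg
  unfold evr
  rw [h1]
  refine tsum_congr fun n => ?_
  rw [coeff_mul_powr]

theorem ASr.add {f g : PowerSeries ℤ} {T : ℝ} (hf : ASr f T) (hg : ASr g T) : ASr (f + g) T := by
  refine (Summable.add hf hg).of_nonneg_of_le (fun _ => norm_nonneg _) fun n => ?_
  rw [map_add, Int.cast_add, add_mul]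
  exact norm_add_le _ _

theorem evr_add {f g : PowerSeries ℤ} {T : ℝ} (hf : ASr f T) (hg : ASr g T) :
    evr (f + g) T = evr f T + evr g T := by
  unfold evr
  rw [← Summable.tsum_add (Summable.of_norm hf) (Summable.of_norm hg)]
  refine tsum_congr fun n => ?_
  rw [map_add, Int.cast_add, add_mul]

theorem ASr.neg {f : PowerSeries ℤ} {T : ℝ} (hf : ASr f T) : ASr (-f) T := by
  refine Summable.congr hf fun n => ?_
  rw [map_neg, Int.cast_neg, neg_mul, norm_neg]

theorem ASr.mono {f : PowerSeries ℤ} {x y : ℝ} (hx : 0 ≤ x) (hxy : x ≤ y) (hf : ASr f y) :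
    ASr f x := by
  refine Summable.of_nonneg_of_le (fun _ => norm_nonneg _) (fun n => ?_) hf
  rw [norm_mul, norm_mul, norm_pow, norm_pow, Real.norm_of_nonneg hx,
    Real.norm_of_nonneg (hx.trans hxy)]
  exact mul_le_mul_of_nonneg_left (pow_le_pow_left₀ hx hxy n) (norm_nonneg _)

theorem ASr_coe (P : ℤ[X]) (T : ℝ) : ASr (P : PowerSeries ℤ) T := by
  unfold ASr
  refine summable_of_ne_finset_zero (s := Finset.range (P.natDegree + 1)) fun n hn => ?_
  rw [Finset.mem_range, not_lt] at hn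
  rw [Polynomial.coeff_coe, coeff_eq_zero_of_natDegree_lt (by omega)]
  simp

theorem evr_coe (P : ℤ[X]) (T : ℝ) : evr (P : PowerSeries ℤ) T = aeval T P := by
  refine HasSum.tsum_eq ?_
  rw [aeval_eq_sum_range]
  simp_rw [Polynomial.coeff_coe]
  have h1 : ∑ i ∈ Finset.range (P.natDegree + 1), P.coeff i • T ^ i =
      ∑ i ∈ Finset.range (P.natDegree + 1), ((P.coeff i : ℤ) : ℝ) * T ^ i :=
    Finset.sum_congr rfl fun i _ => by rw [zsmul_eq_mul]
  rw [h1]
  refine hasSum_sum_of_ne_finset_zero fun n hn => ?_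
  rw [Finset.mem_range, not_lt] at hn
  rw [coeff_eq_zero_of_natDegree_lt (by omega)]
  simp

/-- The ring of power series with integer coefficients and positive radius of convergence. -/
def convRing : Subring (PowerSeries ℤ) where
  carrier := {f | ∃ r : ℝ, 0 < r ∧ ASr f r}
  mul_mem' := by
    rintro f g ⟨r, hr, hf⟩ ⟨s, hs, hg⟩
    refine ⟨min r s, lt_min hr hs, ?_⟩
    exact (hf.mono (lt_min hr hs).le (min_le_left _ _)).mul
      (hg.mono (lt_min hr hs).le (min_le_right _ _))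
  one_mem' := ⟨1, one_pos, by
    have h1 : ((1 : ℤ[X]) : PowerSeries ℤ) = 1 := Polynomial.coe_one
    rw [← h1]
    exact ASr_coe 1 1⟩
  add_mem' := by
    rintro f g ⟨r, hr, hf⟩ ⟨s, hs, hg⟩
    refine ⟨min r s, lt_min hr hs, ?_⟩
    exact (hf.mono (lt_min hr hs).le (min_le_left _ _)).add
      (hg.mono (lt_min hr hs).le (min_le_right _ _))
  zero_mem' := ⟨1, one_pos, by
    have h1 : ((0 : ℤ[X]) : PowerSeries ℤ) = 0 := Polynomial.coe_zero
    rw [← h1]
    exact ASr_coe 0 1⟩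
  neg_mem' := by
    rintro f ⟨r, hr, hf⟩
    exact ⟨r, hr, hf.neg⟩

theorem coe_mem_convRing (P : ℤ[X]) : (P : PowerSeries ℤ) ∈ convRing := ⟨1, one_pos, ASr_coe P 1⟩

theorem ASr_of_bounded {f : PowerSeries ℤ} {W : ℝ}
    (hf : ∀ n, |((PowerSeries.coeff n f : ℤ) : ℝ)| ≤ W) {T : ℝ} (hT : |T| < 1) : ASr f T := by
  unfold ASr
  have h1 : Summable fun n : ℕ => W * |T| ^ n :=
    (summable_geometric_of_lt_one (abs_nonneg T) hT).mul_left W
  refine h1.of_nonneg_of_le (fun _ => norm_nonneg _) fun n => ?_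
  rw [norm_mul, norm_pow, Real.norm_eq_abs, Real.norm_eq_abs]
  exact mul_le_mul_of_nonneg_right (hf n) (by positivity)

theorem mem_convRing_of_bounded {f : PowerSeries ℤ} {W : ℝ}
    (hf : ∀ n, |((PowerSeries.coeff n f : ℤ) : ℝ)| ≤ W) : f ∈ convRing :=
  ⟨1 / 2, by norm_num, ASr_of_bounded hf (by rw [abs_of_pos] <;> norm_num)⟩

/-- Tail estimate. -/
theorem exists_tail {f : PowerSeries ℤ} {r : ℝ} (hr : 0 < r) (hf : ASr f r) (M : ℕ) :
    ∃ K : ℝ, 0 ≤ K ∧ ∀ x : ℝ, 0 ≤ x → x ≤ r →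
      |evr f x - ∑ n ∈ Finset.range M, ((PowerSeries.coeff n f : ℤ) : ℝ) * x ^ n| ≤ K * x ^ M := by
  have hs : Summable fun n : ℕ => |((PowerSeries.coeff (n + M) f : ℤ) : ℝ)| * r ^ n := by
    have h1 : Summable fun n : ℕ => ‖((PowerSeries.coeff (n + M) f : ℤ) : ℝ) * r ^ (n + M)‖ :=
      (summable_nat_add_iff (f := fun n => ‖((PowerSeries.coeff n f : ℤ) : ℝ) * r ^ n‖) M).mpr hf
    refine (h1.mul_left (1 / r ^ M)).congr fun n => ?_
    rw [norm_mul, norm_pow, Real.norm_eq_abs, Real.norm_of_nonneg hr.le, pow_add]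
    field_simp
  refine ⟨∑' n, |((PowerSeries.coeff (n + M) f : ℤ) : ℝ)| * r ^ n,
    tsum_nonneg fun n => by positivity, ?_⟩
  intro x hx0 hxr
  have hfx : ASr f x := hf.mono hx0 hxr
  have h2 : evr f x - ∑ n ∈ Finset.range M, ((PowerSeries.coeff n f : ℤ) : ℝ) * x ^ n =
      ∑' n, ((PowerSeries.coeff (n + M) f : ℤ) : ℝ) * x ^ (n + M) := by
    have h3 := (Summable.of_norm hfx).sum_add_tsum_nat_add M
    unfold evr
    rw [← h3]
    ring
  rw [h2]
  have h4 : Summable fun n : ℕ => ‖((PowerSeries.coeff (n + M) f : ℤ) : ℝ) * x ^ (n + M)‖ :=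
    (summable_nat_add_iff (f := fun n => ‖((PowerSeries.coeff n f : ℤ) : ℝ) * x ^ n‖) M).mpr hfx
  have h5 := norm_tsum_le_tsum_norm h4
  rw [Real.norm_eq_abs] at h5
  refine h5.trans ?_
  rw [← tsum_mul_right]
  refine Summable.tsum_le_tsum (fun n => ?_) h4 (hs.mul_right _)
  rw [norm_mul, norm_pow, Real.norm_eq_abs, Real.norm_of_nonneg hx0, pow_add, mul_assoc]
  refine mul_le_mul_of_nonneg_left ?_ (abs_nonneg _)
  exact mul_le_mul_of_nonneg_right (pow_le_pow_left₀ hx0 hxr n) (by positivity)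

/-- A nonzero convergent power series does not vanish at small positive numbers. -/
theorem evr_ne_zero {f : PowerSeries ℤ} (hf : f ∈ convRing) (hf0 : f ≠ 0) :
    ∃ r : ℝ, 0 < r ∧ ∀ x : ℝ, 0 < x → x ≤ r → evr f x ≠ 0 := by
  obtain ⟨r, hr, hfr⟩ := hf
  obtain ⟨o, ho⟩ : ∃ o : ℕ, f.order = o := by
    have : f.order ≠ ⊤ := by
      rw [Ne, PowerSeries.order_eq_top]
      exact hf0
    exact ⟨f.order.toNat, (ENat.natCast_toNat this).symm⟩
  have hco : PowerSeries.coeff o f ≠ 0 := by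
    have := PowerSeries.coeff_order hf0
    rwa [show f.order.toNat = o by rw [ho]; rfl] at this
  have hlt : ∀ n < o, PowerSeries.coeff n f = 0 := by
    intro n hn
    apply PowerSeries.coeff_of_lt_order
    rw [ho]
    exact_mod_cast hn
  obtain ⟨K, hK0, hK⟩ := exists_tail hr hfr (o + 1)
  refine ⟨min r (1 / (K + 1) / 2), lt_min hr (by positivity), fun x hx0 hxr h0 => ?_⟩
  have h1 := hK x hx0.le (hxr.trans (min_le_left _ _))
  rw [h0, zero_sub, abs_neg, Finset.sum_range_succ, Finset.sum_eq_zero, zero_add] at h1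
  · rw [abs_mul, abs_of_pos (pow_pos hx0 o), pow_succ] at h1
    have h2 : (1 : ℝ) ≤ |((PowerSeries.coeff o f : ℤ) : ℝ)| := by
      exact_mod_cast Int.one_le_abs hco
    have hxo : 0 < x ^ o := pow_pos hx0 o
    have h3 : x ^ o * 1 ≤ x ^ o * (K * x) := by
      calc x ^ o * 1 ≤ x ^ o * |((PowerSeries.coeff o f : ℤ) : ℝ)| :=
            mul_le_mul_of_nonneg_left h2 hxo.le
        _ = |((PowerSeries.coeff o f : ℤ) : ℝ)| * x ^ o := mul_comm _ _
        _ ≤ K * (x ^ o * x) := h1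
        _ = x ^ o * (K * x) := by ring
    have h4 := le_of_mul_le_mul_left h3 hxo
    have h5 : x ≤ 1 / (K + 1) / 2 := hxr.trans (min_le_right _ _)
    have h6 : K * x ≤ K * (1 / (K + 1) / 2) := mul_le_mul_of_nonneg_left h5 hK0
    have h7 : K * (1 / (K + 1) / 2) < 1 := by
      have h8 : K * (1 / (K + 1) / 2) = K / (2 * (K + 1)) := by field_simp
      rw [h8, div_lt_one (by positivity)]
      linarith
    linarith
  · intro n hn
    rw [hlt n (Finset.mem_range.mp hn)]
    simp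

end Pool.Agent.Helper2.Digits
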