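import Pool.Agent.Helper2.Digits.Main

/-!
Base `b` expansions and the theorem on digits in an arithmetic progression.
-/

set_option autoImplicit false

open Polynomial Filter Topology

namespace Pool.Agent.Helper2.Digits

/-- The base `b` digit of index `i + 1` after the point of the real number `ξ`. -/
noncomputable def digit (ξ : ℝ) (b i : ℕ) : ℤ :=
  ⌊ξ * (b : ℝ) ^ (i + 1)⌋ - (b : ℤ) * ⌊ξ * (b : ℝ) ^ i⌋

theorem digit_nonneg (ξ : ℝ) (b i : ℕ) : 0 ≤ digit ξ b i := by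
  unfold digit
  rw [sub_nonneg, Int.le_floor]
  push_cast
  have h1 := Int.floor_le (ξ * (b : ℝ) ^ i)
  calc (b : ℝ) * ⌊ξ * (b : ℝ) ^ i⌋ ≤ b * (ξ * (b : ℝ) ^ i) :=
        mul_le_mul_of_nonneg_left h1 (by positivity)
    _ = ξ * (b : ℝ) ^ (i + 1) := by ring

theorem digit_le (ξ : ℝ) {b : ℕ} (hb : 0 < b) (i : ℕ) : digit ξ b i ≤ b := by
  unfold digit
  rw [sub_le_iff_le_add, ← Int.lt_add_one_iff, Int.floor_lt]
  push_cast
  have h1 := Int.lt_floor_add_one (ξ * (b : ℝ) ^ i)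
  have hb' : (0 : ℝ) < b := by exact_mod_cast hb
  calc ξ * (b : ℝ) ^ (i + 1) = b * (ξ * (b : ℝ) ^ i) := by ring
    _ < b * (⌊ξ * (b : ℝ) ^ i⌋ + 1) := mul_lt_mul_of_pos_left h1 hb'
    _ ≤ b + b * ⌊ξ * (b : ℝ) ^ i⌋ + 1 := by linarith

theorem sum_digit (ξ : ℝ) {b : ℕ} (hb : 0 < b) (n : ℕ) :
    ∑ i ∈ Finset.range n, (digit ξ b i : ℝ) * (1 / (b : ℝ)) ^ (i + 1) =
      ⌊ξ * (b : ℝ) ^ n⌋ * (1 / (b : ℝ)) ^ n - ⌊ξ⌋ := by
  have hb' : (b : ℝ) ≠ 0 := by exact_mod_cast hb.ne'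
  induction n with
  | zero => simp
  | succ n ih =>
    rw [Finset.sum_range_succ, ih]
    unfold digit
    push_cast
    have h1 : (1 / (b : ℝ)) ^ n = b * (1 / (b : ℝ)) ^ (n + 1) := by
      rw [pow_succ, mul_comm, mul_assoc, one_div_mul_cancel hb', mul_one]
    rw [h1]
    ring

theorem hasSum_digit (ξ : ℝ) {b : ℕ} (hb : 2 ≤ b) :
    HasSum (fun i => (digit ξ b i : ℝ) * (1 / (b : ℝ)) ^ (i + 1)) (ξ - ⌊ξ⌋) := by
  have hb0 : 0 < b := by omega
  have hb' : (0 : ℝ) < b := by exact_mod_cast hb0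
  have hx0 : 0 ≤ 1 / (b : ℝ) := by positivity
  have hx1 : 1 / (b : ℝ) < 1 := by
    rw [div_lt_one hb']
    exact_mod_cast hb
  have hnn : ∀ i, 0 ≤ (digit ξ b i : ℝ) * (1 / (b : ℝ)) ^ (i + 1) := fun i => by
    have : (0 : ℝ) ≤ digit ξ b i := by exact_mod_cast digit_nonneg ξ b i
    positivity
  rw [hasSum_iff_tendsto_nat_of_nonneg hnn]
  simp_rw [sum_digit ξ hb0]
  refine Tendsto.sub_const ?_ _
  have h1 : Tendsto (fun n : ℕ => ξ - (1 / (b : ℝ)) ^ n) atTop (𝓝 (ξ - 0)) :=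
    tendsto_const_nhds.sub (tendsto_pow_atTop_nhds_zero_of_lt_one hx0 hx1)
  rw [sub_zero] at h1
  refine tendsto_of_tendsto_of_tendsto_of_le_of_le h1 tendsto_const_nhds ?_ ?_
  · intro n
    have h2 := Int.lt_floor_add_one (ξ * (b : ℝ) ^ n)
    have h3 : 0 ≤ (1 / (b : ℝ)) ^ n := by positivity
    have h4 : (b : ℝ) ^ n * (1 / (b : ℝ)) ^ n = 1 := by
      rw [← mul_pow, mul_one_div_cancel hb'.ne', one_pow]
    have h5 := mul_le_mul_of_nonneg_right h2.le h3
    rw [mul_assoc, h4, mul_one, add_mul, one_mul] at h5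
    show ξ - (1 / (b : ℝ)) ^ n ≤ _
    linarith
  · intro n
    have h2 := Int.floor_le (ξ * (b : ℝ) ^ n)
    have h3 : 0 ≤ (1 / (b : ℝ)) ^ n := by positivity
    have h4 : (b : ℝ) ^ n * (1 / (b : ℝ)) ^ n = 1 := by
      rw [← mul_pow, mul_one_div_cancel hb'.ne', one_pow]
    have h5 := mul_le_mul_of_nonneg_right h2 h3
    rw [mul_assoc, h4, mul_one] at h5
    exact h5

theorem hasSum_geom {b : ℕ} (hb : 2 ≤ b) :
    HasSum (fun i : ℕ => (1 / (b : ℝ)) ^ (i + 1)) (1 / ((b : ℝ) - 1)) := by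
  have hb' : (0 : ℝ) < b := by exact_mod_cast (by omega : 0 < b)
  have hb1 : (1 : ℝ) < b := by exact_mod_cast hb
  have hx0 : 0 ≤ 1 / (b : ℝ) := by positivity
  have hx1 : 1 / (b : ℝ) < 1 := by
    rw [div_lt_one hb']
    exact hb1
  have h1 := (hasSum_geometric_of_lt_one hx0 hx1).mul_left (1 / (b : ℝ))
  have h2 : 1 / (b : ℝ) * (1 - 1 / (b : ℝ))⁻¹ = 1 / ((b : ℝ) - 1) := by
    have h3 : (b : ℝ) - 1 ≠ 0 := by linarith
    have h4 : 1 - 1 / (b : ℝ) ≠ 0 := by linarith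
    field_simp
  rw [h2] at h1
  refine h1.congr_fun ?_
  intro i
  rw [pow_succ, mul_comm]

theorem coeff_linear_pow_le (α β : ℤ) (k i : ℕ) :
    |((Polynomial.C α * X + Polynomial.C β) ^ k).coeff i| ≤ (|α| + |β|) ^ k := by
  induction k generalizing i with
  | zero =>
    rw [pow_zero, pow_zero, coeff_one]
    split_ifs <;> simp
  | succ k ih =>
    have h1 : (Polynomial.C α * X + Polynomial.C β) ^ (k + 1) =
        Polynomial.C α * (X * (Polynomial.C α * X + Polynomial.C β) ^ k) +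
          Polynomial.C β * (Polynomial.C α * X + Polynomial.C β) ^ k := by ring
    rw [h1, coeff_add, coeff_C_mul, coeff_C_mul]
    refine (abs_add_le _ _).trans ?_
    rw [abs_mul, abs_mul, pow_succ', add_mul]
    have h2 : |(X * (Polynomial.C α * X + Polynomial.C β) ^ k).coeff i| ≤ (|α| + |β|) ^ k := by
      cases i with
      | zero => simp only [coeff_X_mul_zero, abs_zero]; positivity
      | succ i => rw [coeff_X_mul]; exact ih i
    exact add_le_add (mul_le_mul_of_nonneg_left h2 (abs_nonneg _))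
      (mul_le_mul_of_nonneg_left (ih i) (abs_nonneg _))

theorem abs_root_le {P : ℤ[X]} (hP : P ≠ 0) {D : ℕ} (hD : P.natDegree ≤ D) {H : ℝ}
    (hH : ∀ i, |(P.coeff i : ℝ)| ≤ H) {ξ : ℝ} (hξ : aeval ξ P = 0) : |ξ| ≤ 1 + D * H := by
  have hH0 : 0 ≤ H := (abs_nonneg _).trans (hH 0)
  by_cases h0 : P.natDegree = 0
  · exfalso
    rw [eq_C_of_natDegree_eq_zero h0, aeval_C] at hξ
    have h1 : P.coeff 0 = 0 := by
      have : ((P.coeff 0 : ℤ) : ℝ) = 0 := hξ
      exact_mod_cast this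
    apply hP
    rw [eq_C_of_natDegree_eq_zero h0, h1, C_0]
  have hlc : (P.leadingCoeff : ℂ) ≠ 0 := by
    exact_mod_cast leadingCoeff_ne_zero.mpr hP
  have hlc1 : (1 : ℝ) ≤ ‖(P.leadingCoeff : ℂ)‖ := by
    rw [Complex.norm_intCast]
    exact_mod_cast Int.one_le_abs (leadingCoeff_ne_zero.mpr hP)
  have hξ' : aeval (ξ : ℂ) P = 0 := by
    have h1 : aeval (algebraMap ℝ ℂ ξ) P = algebraMap ℝ ℂ (aeval ξ P) := aeval_algebraMap_apply ℂ ξ P
    rw [hξ, map_zero] at h1
    exact h1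
  have h2 : (ξ : ℂ) ^ P.natDegree + ∑ k ∈ Finset.range P.natDegree,
      ((P.coeff k : ℂ) / (P.leadingCoeff : ℂ)) * (ξ : ℂ) ^ k = 0 := by
    rw [aeval_eq_sum_range, Finset.sum_range_succ] at hξ'
    have h3 : (ξ : ℂ) ^ P.natDegree + ∑ k ∈ Finset.range P.natDegree,
      ((P.coeff k : ℂ) / (P.leadingCoeff : ℂ)) * (ξ : ℂ) ^ k = (P.leadingCoeff : ℂ)⁻¹ *
        (∑ k ∈ Finset.range P.natDegree, P.coeff k • (ξ : ℂ) ^ k +
          P.coeff P.natDegree • (ξ : ℂ) ^ P.natDegree) := by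
      rw [mul_add, Finset.mul_sum, add_comm]
      congr 1
      · refine Finset.sum_congr rfl fun k _ => ?_
        rw [zsmul_eq_mul]
        ring
      · rw [zsmul_eq_mul, coeff_natDegree, ← mul_assoc, inv_mul_cancel₀ hlc, one_mul]
    rw [h3, hξ', mul_zero]
  have h4 := norm_le_of_monic (Nat.pos_of_ne_zero h0) h2
  rw [Complex.norm_real, Real.norm_eq_abs] at h4
  refine h4.trans (add_le_add le_rfl ?_)
  have h5 : ∀ k ∈ Finset.range P.natDegree, ‖(P.coeff k : ℂ) / (P.leadingCoeff : ℂ)‖ ≤ H := by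
    intro k _
    rw [norm_div, Complex.norm_intCast]
    exact (div_le_self (abs_nonneg _) hlc1).trans (hH k)
  refine (Finset.sum_le_sum h5).trans ?_
  rw [Finset.sum_const, Finset.card_range, nsmul_eq_mul]
  exact mul_le_mul_of_nonneg_right (by exact_mod_cast hD) hH0

/-- **Digits in an arithmetic progression.** For all `D`, `κ`, `s` and all sufficiently large
bases `b`, the base `b` digits of an irrational root of a nonzero integer polynomial of degree at
most `D` and coefficients at most `b ^ κ` do not lie in an arithmetic progression with `s + 1`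
terms. -/
theorem not_in_progression (D κ s : ℕ) : ∃ b₀ : ℕ, ∀ b : ℕ, b₀ ≤ b → ∀ ξ : ℝ, Irrational ξ →
    ∀ P : ℤ[X], P ≠ 0 → P.natDegree ≤ D → (∀ i, |P.coeff i| ≤ (b : ℤ) ^ κ) → aeval ξ P = 0 →
      ∀ c h : ℤ, ∃ i : ℕ, ∀ e : ℕ, e ≤ s → digit ξ b i ≠ c + h * e := by
  obtain ⟨b₀, hb₀⟩ := main_bounded D (κ + 1 + (κ + 3) * D) s
  refine ⟨max b₀ (D + s + 6), fun b hb ξ hξ P hP0 hPD hPc hPξ c h => ?_⟩
  have hb1 : b₀ ≤ b := (le_max_left _ _).trans hb
  have hb2 : D + s + 6 ≤ b := (le_max_right _ _).trans hb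
  by_contra hcon
  push Not at hcon
  choose e hes hdig using hcon
  have hbR : (D : ℝ) + s + 6 ≤ b := by exact_mod_cast hb2
  have hD0 : (0 : ℝ) ≤ D := by positivity
  have hs0 : (0 : ℝ) ≤ s := by positivity
  have hbpos : (0 : ℝ) < b := by linarith
  have hb1R : (1 : ℝ) ≤ b := by linarith
  have hbm1 : (0 : ℝ) < (b : ℝ) - 1 := by linarith
  set x : ℝ := 1 / (b : ℝ) with hx
  have hx0 : 0 ≤ x := by positivity
  have hx1 : x < 1 := by
    rw [hx, div_lt_one hbpos]
    linarith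
  -- the digits of `η`
  set e' : ℕ → ℤ := fun n => match n with
    | 0 => 0
    | n + 1 => (e n : ℤ) with he'
  have he'b : ∀ n, 0 ≤ e' n ∧ e' n ≤ s := by
    intro n
    cases n with
    | zero => exact ⟨le_rfl, show (0 : ℤ) ≤ s by positivity⟩
    | succ n =>
      exact ⟨show (0 : ℤ) ≤ (e n : ℤ) by positivity, show ((e n : ℕ) : ℤ) ≤ s by exact_mod_cast hes n⟩
  have hsum : Summable fun n => (e' n : ℝ) * x ^ n := by
    have h1 : Summable fun n : ℕ => (s : ℝ) * x ^ n :=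
      (summable_geometric_of_lt_one hx0 hx1).mul_left _
    refine h1.of_nonneg_of_le (fun n => ?_) fun n => ?_
    · have : (0 : ℝ) ≤ e' n := by exact_mod_cast (he'b n).1
      positivity
    · exact mul_le_mul_of_nonneg_right (by exact_mod_cast (he'b n).2) (by positivity)
  set η : ℝ := ∑' n, (e' n : ℝ) * x ^ n with hη
  have hηsum : HasSum (fun n => (e' n : ℝ) * x ^ n) η := hsum.hasSum
  have hηsum' : HasSum (fun n : ℕ => (e n : ℝ) * x ^ (n + 1)) η := by
    have h1 := (hasSum_nat_add_iff' 1).mpr hηsum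
    simp only [Finset.sum_range_one] at h1
    have h2 : (e' 0 : ℝ) * x ^ 0 = 0 := by simp [he']
    rw [h2, sub_zero] at h1
    exact h1
  -- the affine relation
  have hrel : ξ - ⌊ξ⌋ = c * (1 / ((b : ℝ) - 1)) + h * η := by
    have h1 := hasSum_digit ξ (by omega : 2 ≤ b)
    have h2 := ((hasSum_geom (by omega : 2 ≤ b)).mul_left (c : ℝ)).add (hηsum'.mul_left (h : ℝ))
    refine h1.unique (h2.congr_fun ?_)
    intro i
    rw [hdig i]
    push_cast
    ring
  set N : ℤ := ⌊ξ⌋ with hN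
  have hrel' : ((b : ℝ) - 1) * ξ = h * ((b : ℝ) - 1) * η + (N * ((b : ℝ) - 1) + c) := by
    have h1 : ξ = N + c * (1 / ((b : ℝ) - 1)) + h * η := by linarith
    rw [h1]
    field_simp
    ring
  have hηirr : Irrational η := by
    rintro ⟨r, hr⟩
    apply hξ
    refine ⟨N + c * (1 / ((b : ℚ) - 1)) + h * r, ?_⟩
    push_cast
    rw [hr]
    linarith
  -- digits are not constant
  have hh0 : h ≠ 0 := by
    rintro rfl
    apply hξ
    refine ⟨N + c * (1 / ((b : ℚ) - 1)), ?_⟩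
    push_cast
    simp only [Int.cast_zero, zero_mul, add_zero] at hrel
    linarith
  have hne : ∃ i j, digit ξ b i ≠ digit ξ b j := by
    by_contra hcon2
    push Not at hcon2
    apply hξ
    have h1 := hasSum_digit ξ (by omega : 2 ≤ b)
    have h2 := (hasSum_geom (by omega : 2 ≤ b)).mul_left (digit ξ b 0 : ℝ)
    have h3 := h1.unique (h2.congr_fun fun i => by rw [hcon2 i 0])
    refine ⟨N + digit ξ b 0 * (1 / ((b : ℚ) - 1)), ?_⟩
    push_cast
    linarith
  have hhb : |h| ≤ b := by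
    obtain ⟨i, j, hij⟩ := hne
    rw [hdig i, hdig j] at hij
    have h1 : (e i : ℤ) - e j ≠ 0 := by
      intro h0
      apply hij
      have : (e i : ℤ) = e j := by linarith
      rw [this]
    have h2 : |h * ((e i : ℤ) - e j)| ≤ b := by
      have h3 : h * ((e i : ℤ) - e j) = digit ξ b i - digit ξ b j := by
        rw [hdig i, hdig j]; ring
      rw [h3, abs_le]
      have h4 := digit_nonneg ξ b i
      have h5 := digit_nonneg ξ b j
      have h6 := digit_le ξ (by omega : 0 < b) i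
      have h7 := digit_le ξ (by omega : 0 < b) j
      constructor <;> linarith
    rw [abs_mul] at h2
    have h8 : 1 ≤ |(e i : ℤ) - e j| := Int.one_le_abs h1
    nlinarith [abs_nonneg h]
  have hcb : |c| ≤ b + b * s := by
    have h1 : c = digit ξ b 0 - h * e 0 := by rw [hdig 0]; ring
    rw [h1]
    refine (abs_sub _ _).trans ?_
    rw [abs_mul, abs_of_nonneg (digit_nonneg ξ b 0)]
    have h2 := digit_le ξ (by omega : 0 < b) 0
    have h3 : |(e 0 : ℤ)| ≤ s := by
      rw [abs_of_nonneg (by positivity)]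
      exact_mod_cast hes 0
    have h4 : |h| * |(e 0 : ℤ)| ≤ b * s := mul_le_mul hhb h3 (abs_nonneg _) (by positivity)
    linarith
  have hPcR : ∀ i, |(P.coeff i : ℝ)| ≤ (b : ℝ) ^ κ := fun i => by exact_mod_cast hPc i
  have hNb : |(N : ℝ)| ≤ 2 + D * (b : ℝ) ^ κ := by
    have h1 := abs_root_le hP0 hPD hPcR hPξ
    have h2 := Int.floor_le ξ
    have h3 := Int.lt_floor_add_one ξ
    rw [abs_le] at h1 ⊢
    rw [← hN] at h2 h3
    constructor <;> linarith
  -- the polynomial of `η`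
  set α : ℤ := h * ((b : ℤ) - 1) with hα
  set β : ℤ := N * ((b : ℤ) - 1) + c with hβ
  set Q : ℤ[X] := ∑ k ∈ Finset.range (D + 1),
    Polynomial.C (P.coeff k * ((b : ℤ) - 1) ^ (D - k)) *
      (Polynomial.C α * X + Polynomial.C β) ^ k with hQ
  have hQeval : ∀ y : ℝ, aeval y Q =
      ((b : ℝ) - 1) ^ D * aeval ((h : ℝ) * y + (N + c / ((b : ℝ) - 1))) P := by
    intro y
    rw [hQ, map_sum, aeval_eq_sum_range' (Nat.lt_succ_of_le hPD), Finset.mul_sum]
    refine Finset.sum_congr rfl fun k hk => ?_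
    have hk' : k ≤ D := Nat.lt_succ_iff.mp (Finset.mem_range.mp hk)
    have h0 : aeval y (Polynomial.C (P.coeff k * ((b : ℤ) - 1) ^ (D - k)) *
        (Polynomial.C α * X + Polynomial.C β) ^ k) =
        ((P.coeff k * ((b : ℤ) - 1) ^ (D - k) : ℤ) : ℝ) * ((α : ℝ) * y + (β : ℝ)) ^ k := by
      rw [map_mul, map_pow, map_add, map_mul (aeval y) (Polynomial.C α), aeval_X, aeval_C, aeval_C,
        aeval_C]
      rfl
    rw [h0]
    rw [zsmul_eq_mul]
    have h1 : (α : ℝ) * y + (β : ℝ) =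
        ((b : ℝ) - 1) * ((h : ℝ) * y + (N + c / ((b : ℝ) - 1))) := by
      rw [hα, hβ]
      push_cast
      field_simp
    rw [h1, mul_pow]
    have h2 : ((b : ℝ) - 1) ^ D = ((b : ℝ) - 1) ^ (D - k) * ((b : ℝ) - 1) ^ k := by
      rw [← pow_add, Nat.sub_add_cancel hk']
    rw [h2]
    push_cast
    ring
  have hQη : aeval η Q = 0 := by
    rw [hQeval]
    have h1 : (h : ℝ) * η + (N + c / ((b : ℝ) - 1)) = ξ := by
      rw [div_eq_mul_one_div]
      linarith
    rw [h1, hPξ, mul_zero]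
  have hQ0 : Q ≠ 0 := by
    intro h0
    apply hP0
    have h1 : P.map (Int.castRingHom ℝ) = 0 := by
      apply Polynomial.funext
      intro t
      rw [eval_zero, eval_map]
      have h2 := hQeval ((t - (N + c / ((b : ℝ) - 1))) / h)
      have hhR : (h : ℝ) ≠ 0 := by exact_mod_cast hh0
      rw [h0, map_zero, mul_div_cancel₀ _ hhR, sub_add_cancel] at h2
      rcases mul_eq_zero.mp h2.symm with h3 | h3
      · exact absurd h3 (by positivity)
      · exact h3
    exact (Polynomial.map_eq_zero_iff (Int.castRingHom ℝ).injective_int).mp h1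
  have hQD : Q.natDegree ≤ D := by
    refine natDegree_sum_le_of_forall_le _ _ fun k hk => ?_
    refine (natDegree_C_mul_le _ _).trans ?_
    refine (natDegree_pow_le_of_le k (natDegree_linear_le)).trans ?_
    have := Nat.lt_succ_iff.mp (Finset.mem_range.mp hk)
    omega
  refine hb₀ b hb1 e' η he'b hηsum hηirr Q hQ0 hQD ?_ hQη
  -- coefficient bounds
  intro i
  set K : ℝ := (b : ℝ) ^ (κ + 3) with hK
  have hbκ : (1 : ℝ) ≤ (b : ℝ) ^ κ := one_le_pow₀ hb1R
  have hK1 : (1 : ℝ) ≤ K := one_le_pow₀ hb1R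
  have hαβ : (|(α : ℝ)| + |(β : ℝ)|) ≤ K := by
    have h1 : |(α : ℝ)| ≤ b * b := by
      rw [hα]
      push_cast
      rw [abs_mul, abs_of_pos hbm1]
      have : |(h : ℝ)| ≤ b := by exact_mod_cast hhb
      exact mul_le_mul this (by linarith) hbm1.le hbpos.le
    have h2 : |(β : ℝ)| ≤ (2 + D * (b : ℝ) ^ κ) * b + (b + b * s) := by
      rw [hβ]
      push_cast
      refine (abs_add_le _ _).trans (add_le_add ?_ ?_)
      · rw [abs_mul, abs_of_pos hbm1]
        exact mul_le_mul hNb (by linarith) hbm1.le (by positivity)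
      · exact_mod_cast hcb
    have h3 : K = (b : ℝ) ^ κ * b * b * b := by rw [hK, pow_add]; ring
    rw [h3]
    have h4 : (b : ℝ) * b ≤ (b : ℝ) ^ κ * b * b := by nlinarith [mul_pos hbpos hbpos]
    have h5 : (b : ℝ) ≤ (b : ℝ) ^ κ * b * b := by nlinarith [mul_pos hbpos hbpos]
    have h6 : (b : ℝ) ^ κ * b ≤ (b : ℝ) ^ κ * b * b := by
      exact le_mul_of_one_le_right (by positivity) hb1R
    have h7 : (b : ℝ) ^ κ * b * b * ((D : ℝ) + s + 6) ≤ (b : ℝ) ^ κ * b * b * b :=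
      mul_le_mul_of_nonneg_left hbR (by positivity)
    nlinarith [mul_le_mul_of_nonneg_left h5 hs0, mul_le_mul_of_nonneg_left h6 hD0]
  have hcoef : ∀ k ∈ Finset.range (D + 1),
      |((Polynomial.C (P.coeff k * ((b : ℤ) - 1) ^ (D - k)) *
        (Polynomial.C α * X + Polynomial.C β) ^ k).coeff i : ℝ)| ≤ (b : ℝ) ^ κ * K ^ D := by
    intro k hk
    have hk' : k ≤ D := Nat.lt_succ_iff.mp (Finset.mem_range.mp hk)
    rw [coeff_C_mul]
    push_cast
    rw [abs_mul, abs_mul, mul_assoc]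
    refine mul_le_mul (hPcR k) ?_ (by positivity) (by positivity)
    have h1 : |((b : ℝ) - 1) ^ (D - k)| ≤ K ^ (D - k) := by
      rw [abs_pow, abs_of_pos hbm1]
      refine pow_le_pow_left₀ hbm1.le ?_ _
      have h2 : (b : ℝ) ≤ K := by
        rw [hK]
        exact le_self_pow₀ hb1R (by omega)
      linarith
    have h3 : |(((Polynomial.C α * X + Polynomial.C β) ^ k).coeff i : ℝ)| ≤ K ^ k := by
      have h4 := coeff_linear_pow_le α β k i
      have h5 : |(((Polynomial.C α * X + Polynomial.C β) ^ k).coeff i : ℝ)| ≤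
          (|(α : ℝ)| + |(β : ℝ)|) ^ k := by exact_mod_cast h4
      exact h5.trans (pow_le_pow_left₀ (by positivity) hαβ k)
    calc |((b : ℝ) - 1) ^ (D - k)| * |(((Polynomial.C α * X + Polynomial.C β) ^ k).coeff i : ℝ)|
        ≤ K ^ (D - k) * K ^ k := mul_le_mul h1 h3 (abs_nonneg _) (by positivity)
      _ = K ^ D := by rw [← pow_add, Nat.sub_add_cancel hk']
  rw [hQ, finsetSum_coeff]
  push_cast
  refine (Finset.abs_sum_le_sum_abs _ _).trans ((Finset.sum_le_sum hcoef).trans ?_)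
  rw [Finset.sum_const, Finset.card_range, nsmul_eq_mul]
  push_cast
  have h1 : (b : ℝ) ^ (κ + 1 + (κ + 3) * D) = (b : ℝ) * ((b : ℝ) ^ κ * K ^ D) := by
    rw [hK, ← pow_mul, pow_add, pow_succ]
    ring
  rw [h1]
  exact mul_le_mul_of_nonneg_right (by linarith) (by positivity)

end Pool.Agent.Helper2.Digits
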