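import Pool.Agent.Helper2.Digits.Bound

/-!
Fatou's lemma: a power series with bounded integer coefficients which is algebraic over `ℤ[X]`
is a rational function.
-/

set_option autoImplicit false

open Polynomial Filter Topology

namespace Pool.Agent.Helper2.Digits

/-- Absolute convergence at `T`. -/
def AS (f : PowerSeries ℤ) (T : ℂ) : Prop :=
  Summable fun n => ‖((PowerSeries.coeff n f : ℤ) : ℂ) * T ^ n‖

/-- The value at `T`. -/
noncomputable def ev (f : PowerSeries ℤ) (T : ℂ) : ℂ :=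
  ∑' n, ((PowerSeries.coeff n f : ℤ) : ℂ) * T ^ n

theorem coeff_mul_pow (f g : PowerSeries ℤ) (T : ℂ) (n : ℕ) :
    ((PowerSeries.coeff n (f * g) : ℤ) : ℂ) * T ^ n =
      ∑ kl ∈ Finset.HasAntidiagonal.antidiagonal n,
        (((PowerSeries.coeff kl.1 f : ℤ) : ℂ) * T ^ kl.1) *
          (((PowerSeries.coeff kl.2 g : ℤ) : ℂ) * T ^ kl.2) := by
  rw [PowerSeries.coeff_mul, Int.cast_sum, Finset.sum_mul]
  refine Finset.sum_congr rfl fun kl hkl => ?_
  have hkl' : kl.1 + kl.2 = n := Finset.HasAntidiagonal.mem_antidiagonal.mp hkl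
  rw [← hkl', pow_add]
  push_cast
  ring

theorem AS.mul {f g : PowerSeries ℤ} {T : ℂ} (hf : AS f T) (hg : AS g T) : AS (f * g) T := by
  have h1 := summable_norm_sum_mul_antidiagonal_of_summable_norm
    (f := fun n => ((PowerSeries.coeff n f : ℤ) : ℂ) * T ^ n)
    (g := fun n => ((PowerSeries.coeff n g : ℤ) : ℂ) * T ^ n) hf hg
  refine h1.congr fun n => ?_
  rw [coeff_mul_pow]

theorem ev_mul {f g : PowerSeries ℤ} {T : ℂ} (hf : AS f T) (hg : AS g T) :
    ev (f * g) T = ev f T * ev g T := by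
  have h1 := tsum_mul_tsum_eq_tsum_sum_antidiagonal_of_summable_norm
    (f := fun n => ((PowerSeries.coeff n f : ℤ) : ℂ) * T ^ n)
    (g := fun n => ((PowerSeries.coeff n g : ℤ) : ℂ) * T ^ n) hf hg
  unfold ev
  rw [h1]
  refine tsum_congr fun n => ?_
  rw [coeff_mul_pow]

theorem hasSum_coe (P : ℤ[X]) (T : ℂ) :
    HasSum (fun n => ((PowerSeries.coeff n (P : PowerSeries ℤ) : ℤ) : ℂ) * T ^ n) (aeval T P) := by
  rw [aeval_eq_sum_range]
  simp_rw [Polynomial.coeff_coe]
  have h1 : ∑ i ∈ Finset.range (P.natDegree + 1), P.coeff i • T ^ i =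
      ∑ i ∈ Finset.range (P.natDegree + 1), ((P.coeff i : ℤ) : ℂ) * T ^ i :=
    Finset.sum_congr rfl fun i _ => by rw [zsmul_eq_mul]
  rw [h1]
  refine hasSum_sum_of_ne_finset_zero fun n hn => ?_
  rw [Finset.mem_range, not_lt] at hn
  rw [coeff_eq_zero_of_natDegree_lt (by omega)]
  simp

theorem AS_coe (P : ℤ[X]) (T : ℂ) : AS (P : PowerSeries ℤ) T := by
  unfold AS
  refine summable_of_ne_finset_zero (s := Finset.range (P.natDegree + 1)) fun n hn => ?_
  rw [Finset.mem_range, not_lt] at hn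
  rw [Polynomial.coeff_coe, coeff_eq_zero_of_natDegree_lt (by omega)]
  simp

theorem ev_coe (P : ℤ[X]) (T : ℂ) : ev (P : PowerSeries ℤ) T = aeval T P :=
  (hasSum_coe P T).tsum_eq

theorem AS_pow {f : PowerSeries ℤ} {T : ℂ} (hf : AS f T) (k : ℕ) :
    AS (f ^ k) T ∧ ev (f ^ k) T = ev f T ^ k := by
  induction k with
  | zero =>
    have h1 : ((1 : ℤ[X]) : PowerSeries ℤ) = 1 := Polynomial.coe_one
    rw [pow_zero, pow_zero, ← h1]
    exact ⟨AS_coe 1 T, by rw [ev_coe, map_one]⟩
  | succ k ih =>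
    rw [pow_succ, pow_succ]
    exact ⟨ih.1.mul hf, by rw [ev_mul ih.1 hf, ih.2]⟩

theorem ev_form {f : PowerSeries ℤ} {T : ℂ} (hf : AS f T) (m : ℕ) (A : ℕ → ℤ[X]) :
    ev (form m A f) T = ∑ k ∈ Finset.range (m + 1), aeval T (A k) * ev f T ^ k := by
  have key : ∀ s : Finset ℕ, AS (∑ k ∈ s, (A k : PowerSeries ℤ) * f ^ k) T ∧
      ev (∑ k ∈ s, (A k : PowerSeries ℤ) * f ^ k) T = ∑ k ∈ s, aeval T (A k) * ev f T ^ k := by
    intro s
    induction s using Finset.induction_on with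
    | empty =>
      have h1 : ((0 : ℤ[X]) : PowerSeries ℤ) = 0 := Polynomial.coe_zero
      rw [Finset.sum_empty, Finset.sum_empty, ← h1]
      exact ⟨AS_coe 0 T, by rw [ev_coe, map_zero]⟩
    | insert a s ha ih =>
      rw [Finset.sum_insert ha, Finset.sum_insert ha]
      have h1 : AS ((A a : PowerSeries ℤ) * f ^ a) T := (AS_coe (A a) T).mul (AS_pow hf a).1
      have h2 : ev ((A a : PowerSeries ℤ) * f ^ a) T = aeval T (A a) * ev f T ^ a := by
        rw [ev_mul (AS_coe (A a) T) (AS_pow hf a).1, ev_coe, (AS_pow hf a).2]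
      constructor
      · unfold AS at h1 ih ⊢
        refine (h1.add ih.1).of_nonneg_of_le (fun _ => norm_nonneg _) fun n => ?_
        rw [map_add, Int.cast_add, add_mul]
        exact norm_add_le _ _
      · rw [← h2, ← ih.2]
        unfold ev
        rw [← Summable.tsum_add (Summable.of_norm h1) (Summable.of_norm ih.1)]
        refine tsum_congr fun n => ?_
        rw [map_add, Int.cast_add, add_mul]
  exact (key _).2

theorem AS_of_bounded {f : PowerSeries ℤ} {W : ℝ} (hf : ∀ n, |((PowerSeries.coeff n f : ℤ) : ℝ)| ≤ W)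
    {T : ℂ} (hT : ‖T‖ < 1) : AS f T := by
  unfold AS
  have h1 : Summable fun n : ℕ => W * ‖T‖ ^ n :=
    (summable_geometric_of_lt_one (norm_nonneg T) hT).mul_left W
  refine h1.of_nonneg_of_le (fun _ => norm_nonneg _) fun n => ?_
  rw [norm_mul, norm_pow, Complex.norm_intCast]
  exact mul_le_mul_of_nonneg_right (hf n) (by positivity)

theorem norm_aeval_le (P : ℤ[X]) {T : ℂ} (hT : ‖T‖ ≤ 1) : ‖aeval T P‖ ≤ len P := by
  rw [aeval_eq_sum_range, ← sum_over_range' P (n := P.natDegree + 1) (f := fun i a => a • T ^ i)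
    (fun n => by simp) (Nat.lt_succ_self _)]
  unfold len
  rw [Polynomial.sum_def]
  refine (norm_sum_le _ _).trans (Finset.sum_le_sum fun i _ => ?_)
  rw [zsmul_eq_mul, norm_mul, norm_pow, Complex.norm_intCast]
  exact mul_le_of_le_one_right (abs_nonneg _) (pow_le_one₀ (norm_nonneg T) hT)

/-- A root of a monic polynomial with bounded coefficients is bounded. -/
theorem norm_le_of_monic {m : ℕ} (hm : 0 < m) {c : ℕ → ℂ} {ω : ℂ}
    (h : ω ^ m + ∑ k ∈ Finset.range m, c k * ω ^ k = 0) :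
    ‖ω‖ ≤ 1 + ∑ k ∈ Finset.range m, ‖c k‖ := by
  have hs : 0 ≤ ∑ k ∈ Finset.range m, ‖c k‖ := Finset.sum_nonneg fun _ _ => norm_nonneg _
  by_cases h1 : ‖ω‖ ≤ 1
  · linarith
  push Not at h1
  have h2 : ‖ω‖ ^ m ≤ (∑ k ∈ Finset.range m, ‖c k‖) * ‖ω‖ ^ (m - 1) := by
    have h3 : ω ^ m = - ∑ k ∈ Finset.range m, c k * ω ^ k := by
      rw [eq_neg_iff_add_eq_zero]
      exact h
    rw [← norm_pow, h3, norm_neg, Finset.sum_mul]
    refine (norm_sum_le _ _).trans (Finset.sum_le_sum fun k hk => ?_)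
    rw [norm_mul, norm_pow]
    refine mul_le_mul_of_nonneg_left ?_ (norm_nonneg _)
    refine pow_le_pow_right₀ h1.le ?_
    have := Finset.mem_range.mp hk
    omega
  have h4 : ‖ω‖ ^ m = ‖ω‖ * ‖ω‖ ^ (m - 1) := by
    rw [← pow_succ', Nat.sub_add_cancel hm]
  rw [h4] at h2
  have h5 : 0 < ‖ω‖ ^ (m - 1) := by positivity
  have h6 := le_of_mul_le_mul_right h2 h5
  linarith

/-- Bounded values force square summable coefficients. -/
theorem sum_sq_le {w : PowerSeries ℤ} {B : ℝ} (_hB : 0 ≤ B) (hAS : ∀ T : ℂ, ‖T‖ < 1 → AS w T)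
    (hw : ∀ T : ℂ, ‖T‖ < 1 → ‖ev w T‖ ≤ B) (n₀ : ℕ) :
    ∑ n ∈ Finset.range n₀, ((PowerSeries.coeff n w : ℤ) : ℝ) ^ 2 ≤ B ^ 2 := by
  -- for each radius
  have hr : ∀ r : ℝ, 0 < r → r < 1 →
      ∑ n ∈ Finset.range n₀, (((PowerSeries.coeff n w : ℤ) : ℝ) * r ^ n) ^ 2 ≤ B ^ 2 := by
    intro r hr0 hr1
    have hsum : Summable fun n : ℕ => |((PowerSeries.coeff n w : ℤ) : ℝ)| * r ^ n := by
      have h1 := hAS (r : ℂ) (by rw [Complex.norm_real, Real.norm_eq_abs, abs_of_pos hr0]; exact hr1)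
      unfold AS at h1
      refine h1.congr fun n => ?_
      rw [norm_mul, norm_pow, Complex.norm_intCast, Complex.norm_real, Real.norm_eq_abs,
        abs_of_pos hr0]
    set τ : ℕ → ℝ := fun N => ∑' n, |((PowerSeries.coeff (n + N) w : ℤ) : ℝ)| * r ^ (n + N) with hτ
    have hτ0 : Tendsto τ atTop (𝓝 0) :=
      _root_.tendsto_sum_nat_add (fun n => |((PowerSeries.coeff n w : ℤ) : ℝ)| * r ^ n)
    have hN : ∀ N ≥ n₀, ∑ n ∈ Finset.range n₀, (((PowerSeries.coeff n w : ℤ) : ℝ) * r ^ n) ^ 2 ≤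
        (B + τ N) ^ 2 := by
      intro N hN
      set p : ℂ[X] := ∑ n ∈ Finset.range N,
        Polynomial.C (((PowerSeries.coeff n w : ℤ) : ℂ) * (r : ℂ) ^ n) * X ^ n with hp
      have hpc : ∀ i, p.coeff i = if i < N then
          ((PowerSeries.coeff i w : ℤ) : ℂ) * (r : ℂ) ^ i else 0 := by
        intro i
        rw [hp, finsetSum_coeff]
        simp only [coeff_C_mul, coeff_X_pow, mul_ite, mul_one, mul_zero]
        rw [Finset.sum_ite_eq]
        simp only [Finset.mem_range]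
      have hpar := sum_sq_norm_coeff_eq_circleAverage p
      have hτN : 0 ≤ τ N := tsum_nonneg fun n => by positivity
      have hcirc : Real.circleAverage (fun θ ↦ ‖p.eval θ‖ ^ 2) 0 1 ≤ (B + τ N) ^ 2 := by
        apply Real.circleAverage_mono_on_of_le_circle
        · apply ContinuousOn.circleIntegrable'
          fun_prop
        · intro θ hθ
          rw [abs_one, mem_sphere_zero_iff_norm] at hθ
          refine pow_le_pow_left₀ (norm_nonneg _) ?_ 2
          have hT : ‖(r : ℂ) * θ‖ < 1 := by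
            rw [norm_mul, hθ, mul_one, Complex.norm_real, Real.norm_eq_abs, abs_of_pos hr0]
            exact hr1
          have h1 := hAS _ hT
          have h2 : p.eval θ = ∑ n ∈ Finset.range N,
              ((PowerSeries.coeff n w : ℤ) : ℂ) * ((r : ℂ) * θ) ^ n := by
            rw [hp, eval_finsetSum]
            refine Finset.sum_congr rfl fun n _ => ?_
            rw [eval_mul, eval_C, eval_pow, eval_X, mul_pow]
            ring
          have h3 : ev w ((r : ℂ) * θ) = p.eval θ +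
              ∑' n, ((PowerSeries.coeff (n + N) w : ℤ) : ℂ) * ((r : ℂ) * θ) ^ (n + N) := by
            rw [h2]
            exact ((Summable.of_norm h1).sum_add_tsum_nat_add N).symm
          have h4 : ‖∑' n, ((PowerSeries.coeff (n + N) w : ℤ) : ℂ) * ((r : ℂ) * θ) ^ (n + N)‖ ≤
              τ N := by
            rw [hτ]
            have h5 : Summable fun n : ℕ =>
                ‖((PowerSeries.coeff (n + N) w : ℤ) : ℂ) * ((r : ℂ) * θ) ^ (n + N)‖ :=
              (summable_nat_add_iff (f := fun n =>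
                ‖((PowerSeries.coeff n w : ℤ) : ℂ) * ((r : ℂ) * θ) ^ n‖) N).mpr h1
            refine (norm_tsum_le_tsum_norm h5).trans (le_of_eq (tsum_congr fun n => ?_))
            rw [norm_mul, norm_pow, norm_mul, hθ, mul_one, Complex.norm_intCast, Complex.norm_real,
              Real.norm_eq_abs, abs_of_pos hr0]
          have h6 : p.eval θ = ev w ((r : ℂ) * θ) -
              ∑' n, ((PowerSeries.coeff (n + N) w : ℤ) : ℂ) * ((r : ℂ) * θ) ^ (n + N) := by
            rw [h3]; ring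
          rw [h6]
          exact (norm_sub_le _ _).trans (add_le_add (hw _ hT) h4)
      refine le_trans ?_ (hpar.le.trans hcirc)
      have h7 : ∑ n ∈ Finset.range n₀, (((PowerSeries.coeff n w : ℤ) : ℝ) * r ^ n) ^ 2 =
          ∑ n ∈ Finset.range n₀, ‖p.coeff n‖ ^ 2 := by
        refine Finset.sum_congr rfl fun n hn => ?_
        have hn' : n < N := (Finset.mem_range.mp hn).trans_le hN
        rw [hpc, if_pos hn', norm_mul, norm_pow, Complex.norm_intCast, Complex.norm_real,
          Real.norm_eq_abs, abs_of_pos hr0, mul_pow, mul_pow, sq_abs]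
      rw [h7, ← Finset.sum_filter_add_sum_filter_not (Finset.range n₀) (fun n => n ∈ p.support)]
      have h8 : ∑ n ∈ Finset.range n₀ with ¬ n ∈ p.support, ‖p.coeff n‖ ^ 2 = 0 := by
        refine Finset.sum_eq_zero fun n hn => ?_
        rw [Finset.mem_filter, mem_support_iff, not_not] at hn
        rw [hn.2, norm_zero]
        norm_num
      rw [h8, add_zero]
      refine Finset.sum_le_sum_of_subset_of_nonneg ?_ fun _ _ _ => by positivity
      intro n hn
      exact (Finset.mem_filter.mp hn).2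
    have hlim : Tendsto (fun N => (B + τ N) ^ 2) atTop (𝓝 ((B + 0) ^ 2)) :=
      (tendsto_const_nhds.add hτ0).pow 2
    rw [add_zero] at hlim
    exact ge_of_tendsto hlim (eventually_atTop.mpr ⟨n₀, hN⟩)
  -- let the radius tend to one
  have hcont : Tendsto (fun r : ℝ => ∑ n ∈ Finset.range n₀,
      (((PowerSeries.coeff n w : ℤ) : ℝ) * r ^ n) ^ 2) (𝓝[<] 1)
      (𝓝 (∑ n ∈ Finset.range n₀, (((PowerSeries.coeff n w : ℤ) : ℝ) * 1 ^ n) ^ 2)) := by
    have h1 : Continuous fun r : ℝ => ∑ n ∈ Finset.range n₀,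
        (((PowerSeries.coeff n w : ℤ) : ℝ) * r ^ n) ^ 2 := by fun_prop
    exact (h1.tendsto 1).mono_left nhdsWithin_le_nhds
  simp only [one_pow, mul_one] at hcont
  refine le_of_tendsto hcont ?_
  have h2 : ∀ᶠ r : ℝ in 𝓝[<] 1, r ∈ Set.Ioo (0 : ℝ) 1 :=
    Ioo_mem_nhdsLT (by norm_num)
  filter_upwards [h2] with r hrr
  exact hr r hrr.1 hrr.2

/-- Integer power series with square summable coefficients are polynomials. -/
theorem exists_poly_of_sum_sq_le {w : PowerSeries ℤ} {B : ℝ}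
    (h : ∀ n₀, ∑ n ∈ Finset.range n₀, ((PowerSeries.coeff n w : ℤ) : ℝ) ^ 2 ≤ B) :
    ∃ P : ℤ[X], w = P := by
  have h1 : Summable fun n => ((PowerSeries.coeff n w : ℤ) : ℝ) ^ 2 :=
    summable_of_sum_range_le (fun n => by positivity) h
  have h2 := h1.tendsto_atTop_zero
  have h3 : ∀ᶠ n in atTop, ((PowerSeries.coeff n w : ℤ) : ℝ) ^ 2 < 1 :=
    h2.eventually (gt_mem_nhds one_pos)
  obtain ⟨N, hN⟩ := eventually_atTop.mp h3
  refine ⟨PowerSeries.trunc N w, ?_⟩
  ext n
  rw [Polynomial.coeff_coe, PowerSeries.coeff_trunc]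
  split_ifs with hn
  · rfl
  · have h4 := hN n (not_lt.mp hn)
    have h5 : (PowerSeries.coeff n w) ^ 2 < 1 := by exact_mod_cast h4
    nlinarith [sq_nonneg (PowerSeries.coeff n w)]

/-- Fatou's lemma. -/
theorem fatou {d : ℕ} {A : ℕ → ℤ[X]} {z : PowerSeries ℤ} {s : ℝ}
    (hz : ∀ n, |((PowerSeries.coeff n z : ℤ) : ℝ)| ≤ s) (hform : form d A z = 0)
    (hA : ∃ k ≤ d, A k ≠ 0) :
    ∃ Q P : ℤ[X], Q ≠ 0 ∧ (Q : PowerSeries ℤ) * z = P := by
  classical
  -- the largest index with nonzero coefficient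
  obtain ⟨m, hmd, hm0, hmax⟩ : ∃ m ≤ d, A m ≠ 0 ∧ ∀ k ≤ d, m < k → A k = 0 := by
    obtain ⟨k₀, hk₀, hAk₀⟩ := hA
    set S : Finset ℕ := (Finset.range (d + 1)).filter fun k => A k ≠ 0 with hS
    have hSne : S.Nonempty := ⟨k₀, by simp [hS, hAk₀]; omega⟩
    refine ⟨S.max' hSne, ?_, ?_, ?_⟩
    · have := Finset.mem_range.mp (Finset.mem_filter.mp (S.max'_mem hSne)).1
      omega
    · exact (Finset.mem_filter.mp (S.max'_mem hSne)).2
    · intro k hkd hk
      by_contra hne
      have : k ∈ S := by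
        rw [hS, Finset.mem_filter, Finset.mem_range]
        exact ⟨by omega, hne⟩
      exact absurd (S.le_max' k this) (not_le.mpr hk)
  have hform' : form m A z = 0 := by
    rw [← hform, form, form]
    refine Finset.sum_subset (fun k hk => ?_) fun k hk hkm => ?_
    · rw [Finset.mem_range] at hk ⊢
      omega
    · rw [Finset.mem_range] at hk hkm
      rw [hmax k (by omega) (by omega), Polynomial.coe_zero, zero_mul]
  have hmpos : 0 < m := by
    rw [Nat.pos_iff_ne_zero]
    rintro rfl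
    apply hm0
    rw [form, Finset.sum_range_one, pow_zero, mul_one] at hform'
    exact Polynomial.coe_injective ℤ (by rw [hform', Polynomial.coe_zero])
  have hASz : ∀ T : ℂ, ‖T‖ < 1 → AS z T := fun T hT => AS_of_bounded hz hT
  have hASw : ∀ T : ℂ, ‖T‖ < 1 → AS ((A m : PowerSeries ℤ) * z) T := fun T hT =>
    (AS_coe (A m) T).mul (hASz T hT)
  set B : ℝ := 1 + ∑ k ∈ Finset.range m, len (A k) * len (A m) ^ (m - 1 - k) with hB
  have hB0 : 0 ≤ B := by
    have : 0 ≤ ∑ k ∈ Finset.range m, len (A k) * len (A m) ^ (m - 1 - k) :=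
      Finset.sum_nonneg fun k _ => mul_nonneg (len_nonneg _) (pow_nonneg (len_nonneg _) _)
    linarith
  have hbd : ∀ T : ℂ, ‖T‖ < 1 → ‖ev ((A m : PowerSeries ℤ) * z) T‖ ≤ B := by
    intro T hT
    have h1 : ∑ k ∈ Finset.range (m + 1), aeval T (A k) * ev z T ^ k = 0 := by
      rw [← ev_form (hASz T hT), hform', ← Polynomial.coe_zero, ev_coe, map_zero]
    rw [ev_mul (AS_coe (A m) T) (hASz T hT), ev_coe]
    set q : ℂ := aeval T (A m) with hq
    set ζ : ℂ := ev z T with hζ
    have h2 : (q * ζ) ^ m + ∑ k ∈ Finset.range m, (aeval T (A k) * q ^ (m - 1 - k)) * (q * ζ) ^ k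
        = 0 := by
      have h3 : q ^ (m - 1) * ∑ k ∈ Finset.range (m + 1), aeval T (A k) * ζ ^ k =
          (q * ζ) ^ m + ∑ k ∈ Finset.range m, (aeval T (A k) * q ^ (m - 1 - k)) * (q * ζ) ^ k := by
        rw [Finset.sum_range_succ, mul_add, ← hq, add_comm, Finset.mul_sum]
        congr 1
        · rw [mul_pow, ← mul_assoc, ← pow_succ, Nat.sub_add_cancel hmpos]
        · refine Finset.sum_congr rfl fun k hk => ?_
          have hk' : k ≤ m - 1 := by
            have := Finset.mem_range.mp hk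
            omega
          have h4 : q ^ (m - 1) = q ^ (m - 1 - k) * q ^ k := by
            rw [← pow_add, Nat.sub_add_cancel hk']
          rw [h4, mul_pow]
          ring
      rw [← h3, h1, mul_zero]
    refine (norm_le_of_monic hmpos h2).trans ?_
    rw [hB]
    refine add_le_add le_rfl (Finset.sum_le_sum fun k _ => ?_)
    rw [norm_mul, norm_pow]
    exact mul_le_mul (norm_aeval_le _ hT.le) (pow_le_pow_left₀ (norm_nonneg _)
      (norm_aeval_le _ hT.le) _) (by positivity) (len_nonneg _)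
  obtain ⟨P, hP⟩ := exists_poly_of_sum_sq_le (B := B ^ 2)
    (fun n₀ => sum_sq_le hB0 hASw hbd n₀)
  exact ⟨A m, P, hm0, hP⟩

end Pool.Agent.Helper2.Digits
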