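import Pool.Agent.Helper2.Digits.Rational
import Pool.Agent.Helper2.Digits.Expansion

/-!
The number of distinct digits of algebraic irrational numbers of bounded degree and polynomially
bounded height tends to infinity with the base.
-/

set_option autoImplicit false

open Polynomial Filter Topology

namespace Pool.Agent.Helper2.Digits

variable {𝓤 : Ultrafilter ℕ}

theorem Mod.congr {u v : ℕ → ℝ} (hu : Mod 𝓤 u) (h : ∀ᶠ b : ℕ in (𝓤 : Filter ℕ), u b = v b) :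
    Mod 𝓤 v := by
  obtain ⟨κ, hκ⟩ := hu
  refine ⟨κ, ?_⟩
  filter_upwards [hκ, h] with b h1 h2
  rwa [← h2]

theorem tiny_pow_sub (h𝓤 : (𝓤 : Filter ℕ) ≤ atTop) {u v : ℕ → ℝ} (hu : Mod 𝓤 u) (hv : Mod 𝓤 v)
    (h : Tiny 𝓤 (fun b => u b - v b)) (k : ℕ) : Tiny 𝓤 (fun b => u b ^ k - v b ^ k) := by
  induction k with
  | zero => simpa using Tiny.zero
  | succ k ih =>
    refine ((ih.mul_mod h𝓤 hu).add h𝓤 (h.mul_mod h𝓤 (hv.pow h𝓤 k))).congr ?_
    filter_upwards with b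
    ring

theorem Tiny.mod (h𝓤 : (𝓤 : Filter ℕ) ≤ atTop) {u : ℕ → ℝ} (hu : Tiny 𝓤 u) : Mod 𝓤 u := by
  refine ⟨1, ?_⟩
  filter_upwards [hu 0, ev_ge h𝓤 1] with b h1 hb
  have hb1 : (1 : ℝ) ≤ b := by exact_mod_cast hb
  rw [pow_zero] at h1
  rw [pow_one]
  exact h1.trans hb1

/-- A family of counterexamples along an ultrafilter. -/
structure Bad (𝓤 : Ultrafilter ℕ) (D κ m : ℕ) where
  le : (𝓤 : Filter ℕ) ≤ atTop
  ξ : ℕ → ℝ
  P : ℕ → ℤ[X]
  c : Fin m → ℕ → ℤ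
  idx : ℕ → ℕ → Fin m
  len : ℕ → ℕ
  len_large : ∀ M, ∀ᶠ b : ℕ in (𝓤 : Filter ℕ), M ≤ len b
  spec : ∀ᶠ b : ℕ in (𝓤 : Filter ℕ), Irrational (ξ b) ∧ P b ≠ 0 ∧ (P b).natDegree ≤ D ∧
    (∀ i, |((P b).coeff i : ℝ)| ≤ (b : ℝ) ^ κ) ∧ aeval (ξ b) (P b) = 0 ∧
    (∀ j, 0 ≤ c j b ∧ c j b ≤ b) ∧ ∀ i < len b, digit (ξ b) b i = c (idx b i) b

namespace Bad

variable {D κ m : ℕ} (B : Bad 𝓤 D κ m)

theorem mod_coeff (i : ℕ) : Mod 𝓤 (fun b => ((B.P b).coeff i : ℝ)) := by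
  refine ⟨κ, ?_⟩
  filter_upwards [B.spec] with b hb
  exact hb.2.2.2.1 i

theorem mod_ξ : Mod 𝓤 B.ξ := by
  refine ⟨κ + 1, ?_⟩
  filter_upwards [B.spec, ev_ge B.le (D + 1)] with b hb hbD
  obtain ⟨-, hP0, hPD, hPc, hPξ, -⟩ := hb
  have h1 := abs_root_le hP0 hPD hPc hPξ
  have hb1 : (1 : ℝ) ≤ (b : ℝ) := by exact_mod_cast (by omega : 1 ≤ b)
  have hbD' : (D : ℝ) + 1 ≤ b := by exact_mod_cast hbD
  have h2 : (1 : ℝ) ≤ (b : ℝ) ^ κ := one_le_pow₀ hb1
  have h3 : ((D : ℝ) + 1) * (b : ℝ) ^ κ ≤ b * (b : ℝ) ^ κ :=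
    mul_le_mul_of_nonneg_right hbD' (by positivity)
  rw [pow_succ]
  linarith

/-- The integer part. -/
noncomputable def N (b : ℕ) : ℤ := ⌊B.ξ b⌋

theorem mod_N : Mod 𝓤 (fun b => (B.N b : ℝ)) := by
  have h1 : Mod 𝓤 (fun b => B.ξ b + -(Int.fract (B.ξ b))) := by
    refine B.mod_ξ.add B.le (Mod.neg ?_)
    refine ⟨0, ?_⟩
    filter_upwards with b
    rw [pow_zero, abs_of_nonneg (Int.fract_nonneg _)]
    exact (Int.fract_lt_one _).le
  refine h1.congr ?_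
  filter_upwards with b
  unfold N
  rw [← sub_eq_add_neg, Int.self_sub_fract]

theorem mod_c (j : Fin m) : Mod 𝓤 (fun b => (B.c j b : ℝ)) := by
  refine ⟨1, ?_⟩
  filter_upwards [B.spec] with b hb
  obtain ⟨-, -, -, -, -, hc, -⟩ := hb
  rw [pow_one, abs_of_nonneg (by exact_mod_cast (hc j).1)]
  exact_mod_cast (hc j).2

theorem exists_lim (n : ℕ) : ∃ j : Fin m, ∀ᶠ b : ℕ in (𝓤 : Filter ℕ), B.idx b n = j := by
  obtain ⟨j, -, hj⟩ := ultra_const 𝓤 (fun b => B.idx b n) (S := Set.univ) Set.finite_univ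
    (by filter_upwards with b; exact Set.mem_univ _)
  exact ⟨j, hj⟩

/-- The limit index. -/
noncomputable def lim (n : ℕ) : Fin m := (B.exists_lim n).choose

theorem lim_spec (n : ℕ) : ∀ᶠ b : ℕ in (𝓤 : Filter ℕ), B.idx b n = B.lim n :=
  (B.exists_lim n).choose_spec

/-- The indicator power series. -/
noncomputable def z (j : Fin m) : PowerSeries ℤ := PowerSeries.mk fun n => if B.lim n = j then 1 else 0

theorem coeff_z (j : Fin m) (n : ℕ) :
    ((PowerSeries.coeff n (B.z j) : ℤ) : ℝ) = if B.lim n = j then 1 else 0 := by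
  rw [z, PowerSeries.coeff_mk]
  split_ifs <;> simp

theorem bdd_z (j : Fin m) : Bdd (B.z j) := by
  refine ⟨1, fun n => ?_⟩
  rw [coeff_z]
  split_ifs <;> simp

/-- The limit value of `b (ξ - N)`. -/
noncomputable def ζ (b : ℕ) : ℝ := ∑ j, (B.c j b : ℝ) * evr (B.z j) (1 / (b : ℝ))

theorem hasSum_ζ {b : ℕ} (hb : 2 ≤ b) :
    HasSum (fun n => (B.c (B.lim n) b : ℝ) * (1 / (b : ℝ)) ^ n) (B.ζ b) := by
  have hb' : (0 : ℝ) < b := by exact_mod_cast (by omega : 0 < b)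
  have hx0 : 0 ≤ 1 / (b : ℝ) := by positivity
  have hx1 : 1 / (b : ℝ) < 1 := by
    rw [div_lt_one hb']
    exact_mod_cast hb
  have h1 : ∀ j : Fin m, HasSum (fun n => (B.c j b : ℝ) *
      (((PowerSeries.coeff n (B.z j) : ℤ) : ℝ) * (1 / (b : ℝ)) ^ n))
      ((B.c j b : ℝ) * evr (B.z j) (1 / (b : ℝ))) := by
    intro j
    refine HasSum.mul_left _ ?_
    have h2 : ASr (B.z j) (1 / (b : ℝ)) := by
      obtain ⟨W, hW⟩ := B.bdd_z j
      refine ASr_of_bounded hW ?_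
      rw [abs_of_nonneg hx0]
      exact hx1
    exact (Summable.of_norm h2).hasSum
  have h3 := hasSum_sum (s := Finset.univ) fun j _ => h1 j
  refine h3.congr_fun fun n => ?_
  rw [Finset.sum_eq_single (B.lim n)]
  · rw [coeff_z, if_pos rfl, one_mul]
  · intro j _ hj
    rw [coeff_z, if_neg (fun h => hj h.symm), zero_mul, mul_zero]
  · intro h
    exact absurd (Finset.mem_univ _) h

theorem tiny_diff : Tiny 𝓤 (fun b => (B.N b + 1 / (b : ℝ) * B.ζ b) - B.ξ b) := by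
  intro M
  have hlim : ∀ᶠ b : ℕ in (𝓤 : Filter ℕ), ∀ n ∈ Set.Iio (M + 1), B.idx b n = B.lim n :=
    (eventually_all_finite (Set.finite_Iio (M + 1))).mpr fun n _ => B.lim_spec n
  filter_upwards [B.spec, hlim, ev_ge B.le 2, B.len_large (M + 1)] with b hb hl hb2 hlen
  obtain ⟨-, -, -, -, -, hc, hd⟩ := hb
  have hb2R : (2 : ℝ) ≤ b := by exact_mod_cast hb2
  have hbpos : (0 : ℝ) < b := by linarith
  set x : ℝ := 1 / (b : ℝ) with hx
  have hx0 : 0 < x := by positivity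
  have hx2 : x ≤ 1 / 2 := by
    rw [hx]
    exact one_div_le_one_div_of_le (by norm_num) hb2R
  have hbx : (b : ℝ) * x = 1 := mul_one_div_cancel hbpos.ne'
  set w : ℕ → ℝ := fun n => ((digit (B.ξ b) b n : ℝ) - B.c (B.lim n) b) * x ^ (n + 1) with hw
  have h1 : HasSum w (B.ξ b - B.N b - x * B.ζ b) := by
    have h2 := (hasSum_digit (B.ξ b) hb2).sub ((B.hasSum_ζ hb2).mul_left x)
    refine h2.congr_fun fun n => ?_
    rw [hw, ← hx]
    simp only
    ring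
  have h2 : ∀ n < M + 1, w n = 0 := by
    intro n hn
    rw [hw]
    simp only
    rw [hd n (lt_of_lt_of_le hn hlen), hl n hn, sub_self, zero_mul]
  have h3 : HasSum (fun n => w (n + (M + 1))) (B.ξ b - B.N b - x * B.ζ b) := by
    have h4 := (hasSum_nat_add_iff' (M + 1)).mpr h1
    rw [Finset.sum_eq_zero (fun n hn => h2 n (Finset.mem_range.mp hn)), sub_zero] at h4
    exact h4
  have h5 : ∀ n, ‖w (n + (M + 1))‖ ≤ x ^ (M + 1) * x ^ n := by
    intro n
    rw [hw]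
    simp only
    rw [norm_mul, norm_pow, Real.norm_eq_abs, Real.norm_of_nonneg hx0.le]
    have h6 : |(digit (B.ξ b) b (n + (M + 1)) : ℝ) - B.c (B.lim (n + (M + 1))) b| ≤ b := by
      rw [abs_le]
      have h7 := digit_nonneg (B.ξ b) b (n + (M + 1))
      have h8 := digit_le (B.ξ b) (b := b) (by omega) (n + (M + 1))
      have h9 := hc (B.lim (n + (M + 1)))
      have h7' : (0 : ℝ) ≤ digit (B.ξ b) b (n + (M + 1)) := by exact_mod_cast h7
      have h8' : (digit (B.ξ b) b (n + (M + 1)) : ℝ) ≤ b := by exact_mod_cast h8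
      have h9' : (0 : ℝ) ≤ B.c (B.lim (n + (M + 1))) b := by exact_mod_cast h9.1
      have h9'' : (B.c (B.lim (n + (M + 1))) b : ℝ) ≤ b := by exact_mod_cast h9.2
      constructor <;> linarith
    calc _ ≤ (b : ℝ) * x ^ (n + (M + 1) + 1) :=
          mul_le_mul_of_nonneg_right h6 (by positivity)
      _ = (b * x) * (x ^ (M + 1) * x ^ n) := by ring
      _ = x ^ (M + 1) * x ^ n := by rw [hbx, one_mul]
  have h6 : HasSum (fun n => x ^ (M + 1) * x ^ n) (x ^ (M + 1) * (1 - x)⁻¹) :=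
    (hasSum_geometric_of_lt_one hx0.le (by linarith)).mul_left _
  have h7 := tsum_of_norm_bounded h6 h5
  rw [h3.tsum_eq, Real.norm_eq_abs] at h7
  have h8 : |(B.N b + x * B.ζ b) - B.ξ b| = |B.ξ b - B.N b - x * B.ζ b| := by
    rw [abs_sub_comm]
    congr 1
    ring
  rw [h8]
  refine h7.trans ?_
  have h9 : (1 - x)⁻¹ ≤ 2 := by
    rw [inv_le_comm₀ (by linarith) (by norm_num)]
    linarith
  calc x ^ (M + 1) * (1 - x)⁻¹ ≤ x ^ (M + 1) * 2 := mul_le_mul_of_nonneg_left h9 (by positivity)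
    _ = x ^ M * (2 * x) := by ring
    _ ≤ x ^ M * 1 := mul_le_mul_of_nonneg_left (by linarith) (by positivity)
    _ = x ^ M := mul_one _

theorem rep_u : Rep 𝓤 (fun b => B.N b + 1 / (b : ℝ) * B.ζ b) := by
  have h1 : Rep 𝓤 (fun b => (B.N b : ℝ)) := Rep.of_mod B.mod_N
  have h2 : Rep 𝓤 (fun b => evr ((X : ℤ[X]) : PowerSeries ℤ) (1 / (b : ℝ))) :=
    Rep.of_conv B.le (coe_mem_convRing X)
  have h3 : Rep 𝓤 (fun b => B.ζ b) := by
    unfold ζ
    exact Rep.sum B.le _ fun j _ => (Rep.of_mod (B.mod_c j)).mul B.le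
      (Rep.of_conv B.le (B.bdd_z j).mem_convRing)
  have h4 := h1.add (h2.mul B.le h3)
  simp only [evr_coe, aeval_X] at h4
  exact h4

theorem mod_u : Mod 𝓤 (fun b => B.N b + 1 / (b : ℝ) * B.ζ b) := by
  refine ((B.tiny_diff.mod B.le).add B.le B.mod_ξ).congr ?_
  filter_upwards with b
  ring

theorem root_u : ∀ᶠ b : ℕ in (𝓤 : Filter ℕ),
    ∑ k ∈ Finset.range (D + 1), ((B.P b).coeff k : ℝ) * (B.N b + 1 / (b : ℝ) * B.ζ b) ^ k = 0 := by
  have hrep : Rep 𝓤 (fun b => ∑ k ∈ Finset.range (D + 1),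
      ((B.P b).coeff k : ℝ) * (B.N b + 1 / (b : ℝ) * B.ζ b) ^ k) :=
    Rep.sum B.le _ fun k _ => (Rep.of_mod (B.mod_coeff k)).mul B.le (B.rep_u.pow B.le k)
  have htiny : Tiny 𝓤 (fun b => ∑ k ∈ Finset.range (D + 1),
      ((B.P b).coeff k : ℝ) * (B.N b + 1 / (b : ℝ) * B.ζ b) ^ k) := by
    have h1 : Tiny 𝓤 (fun b => ∑ k ∈ Finset.range (D + 1), ((B.P b).coeff k : ℝ) *
        ((B.N b + 1 / (b : ℝ) * B.ζ b) ^ k - B.ξ b ^ k)) :=
      Tiny.sum B.le _ fun k _ =>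
        (tiny_pow_sub B.le B.mod_u B.mod_ξ B.tiny_diff k).mul_mod B.le (B.mod_coeff k)
    refine h1.congr ?_
    filter_upwards [B.spec] with b hb
    obtain ⟨-, -, hPD, -, hPξ, -⟩ := hb
    have h2 : ∑ k ∈ Finset.range (D + 1), ((B.P b).coeff k : ℝ) * B.ξ b ^ k = 0 := by
      rw [← hPξ, aeval_eq_sum_range' (Nat.lt_succ_of_le hPD)]
      refine Finset.sum_congr rfl fun k _ => ?_
      rw [zsmul_eq_mul]
    simp_rw [mul_sub]
    rw [Finset.sum_sub_distrib, h2, sub_zero]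
  exact hrep.eq_zero_of_tiny B.le htiny

theorem isAlgebraic_ζ {Ω : Type*} [Field Ω] (g : GermHom 𝓤 Ω) :
    IsAlgebraic (Subfield.closure (g.zz : Set Ω))
      (∑ j, g.G (fun b => (B.c j b : ℝ)) * g.evg ⟨B.z j, (B.bdd_z j).mem_convRing⟩) := by
  set K := Subfield.closure (g.zz : Set Ω) with hK
  set ζ : Ω := ∑ j, g.G (fun b => (B.c j b : ℝ)) * g.evg ⟨B.z j, (B.bdd_z j).mem_convRing⟩ with hζ
  have hζG : ζ = g.G B.ζ := by
    have h1 : B.ζ = fun b => ∑ j, (B.c j b : ℝ) * evr (B.z j) (1 / (b : ℝ)) := rfl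
    rw [h1, g.G_sum]
    refine Finset.sum_congr rfl fun j _ => ?_
    rw [g.evg_apply, ← g.G_mul]
  set u : Ω := g.G (fun b => B.N b + 1 / (b : ℝ) * B.ζ b) with hu
  have hX : g.evp X = g.G (fun b => 1 / (b : ℝ)) := by
    rw [g.evp_apply]
    simp only [aeval_X]
  have hu' : u = g.G (fun b => (B.N b : ℝ)) + g.evp X * ζ := by
    rw [hu, g.G_add, g.G_mul, hζG, hX]
  have hX0 : g.evp X ≠ 0 := by
    rw [Ne, map_eq_zero_iff g.evp g.evp_injective]
    exact X_ne_zero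
  -- `u` is algebraic
  have hualg : IsAlgebraic K u := by
    set p : K[X] := ∑ k ∈ Finset.range (D + 1), Polynomial.C
      (⟨g.G (fun b => ((B.P b).coeff k : ℝ)),
        Subfield.subset_closure (g.mem_zz (B.mod_coeff k))⟩ : K) * X ^ k with hp
    refine ⟨p, ?_, ?_⟩
    · intro h0
      have hcoef : ∀ k ∈ Finset.range (D + 1), g.G (fun b => ((B.P b).coeff k : ℝ)) = 0 := by
        intro k hk
        have h1 := congrArg (fun q : K[X] => q.coeff k) h0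
        simp only [hp, finsetSum_coeff, coeff_C_mul, coeff_X_pow, coeff_zero, mul_ite, mul_one,
          mul_zero] at h1
        rw [Finset.sum_ite_eq, if_pos hk] at h1
        exact congrArg Subtype.val h1
      have hall : ∀ᶠ b : ℕ in (𝓤 : Filter ℕ), ∀ k ∈ Finset.range (D + 1),
          ((B.P b).coeff k : ℝ) = 0 := by
        rw [eventually_all_finset]
        intro k hk
        exact (g.zero_iff _).mp (hcoef k hk)
      obtain ⟨b, hb1, hb2⟩ := (hall.and B.spec).exists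
      obtain ⟨-, hP0, hPD, -⟩ := hb2
      have h2 := hb1 (B.P b).natDegree (Finset.mem_range.mpr (Nat.lt_succ_of_le hPD))
      have h3 : (B.P b).coeff (B.P b).natDegree = 0 := by exact_mod_cast h2
      exact leadingCoeff_ne_zero.mpr hP0 h3
    · have h1 : aeval u p = ∑ k ∈ Finset.range (D + 1),
          g.G (fun b => ((B.P b).coeff k : ℝ)) * u ^ k := by
        rw [hp, map_sum]
        refine Finset.sum_congr rfl fun k _ => ?_
        rw [map_mul, map_pow, aeval_X, aeval_C]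
        rfl
      rw [h1]
      have h2 : g.G (fun b => ∑ k ∈ Finset.range (D + 1), ((B.P b).coeff k : ℝ) *
          (B.N b + 1 / (b : ℝ) * B.ζ b) ^ k) = 0 := by
        rw [g.zero_iff]
        exact B.root_u
      rw [← h2, g.G_sum]
      refine Finset.sum_congr rfl fun k _ => ?_
      rw [g.G_mul, g.G_pow]
  have hNalg : IsAlgebraic K (g.G (fun b => (B.N b : ℝ))) :=
    isAlgebraic_algebraMap (⟨g.G (fun b => (B.N b : ℝ)),
      Subfield.subset_closure (g.mem_zz B.mod_N)⟩ : K)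
  have hXalg : IsAlgebraic K ((g.evp X)⁻¹) :=
    isAlgebraic_algebraMap (⟨(g.evp X)⁻¹, inv_mem (g.evp_mem_closure_zz X)⟩ : K)
  have hζ' : ζ = (g.evp X)⁻¹ * (u - g.G (fun b => (B.N b : ℝ))) := by
    rw [hu', add_sub_cancel_left, ← mul_assoc, inv_mul_cancel₀ hX0, one_mul]
  rw [hζ']
  exact hXalg.mul (hualg.sub hNalg)

include B in
/-- There are no bad families. -/
theorem false : False := by
  classical
  -- the field of germs
  let g : GermHom 𝓤 ((𝓤 : Filter ℕ).Germ ℝ) :=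
    { G := Filter.Germ.coeRingHom (𝓤 : Filter ℕ)
      le := B.le
      zero_iff := fun u => by
        have h1 : (Filter.Germ.coeRingHom (𝓤 : Filter ℕ) u : (𝓤 : Filter ℕ).Germ ℝ) = 0 ↔
            ((u : ℕ → ℝ) : (𝓤 : Filter ℕ).Germ ℝ) = (((0 : ℕ → ℝ)) : (𝓤 : Filter ℕ).Germ ℝ) :=
          Iff.rfl
        rw [h1, Filter.Germ.coe_eq]
        rfl }
  obtain ⟨Q, R, hQ0, hQR⟩ := g.exists_rational B.c B.mod_c B.z B.bdd_z (B.isAlgebraic_ζ g)
  have hev : ∀ᶠ b : ℕ in (𝓤 : Filter ℕ), aeval (1 / (b : ℝ)) Q * B.ζ b =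
      ∑ j, (B.c j b : ℝ) * aeval (1 / (b : ℝ)) (R j) := by
    rw [← g.eq_iff, g.G_mul, g.G_sum, ← g.evp_apply]
    have h1 : g.G (fun b => B.ζ b) =
        ∑ j, g.G (fun b => (B.c j b : ℝ)) * g.evg ⟨B.z j, (B.bdd_z j).mem_convRing⟩ := by
      have h2 : (fun b => B.ζ b) = fun b => ∑ j, (B.c j b : ℝ) * evr (B.z j) (1 / (b : ℝ)) := rfl
      rw [h2, g.G_sum]
      refine Finset.sum_congr rfl fun j _ => ?_
      rw [g.evg_apply, ← g.G_mul]
    rw [h1, hQR]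
    refine Finset.sum_congr rfl fun j _ => ?_
    rw [g.G_mul, g.evp_apply]
  -- a common degree
  set n : ℕ := max Q.natDegree (Finset.univ.sup fun j => (R j).natDegree) with hn
  have hnQ : Q.natDegree ≤ n := le_max_left _ _
  have hnR : ∀ j, (R j).natDegree ≤ n := fun j =>
    (Finset.le_sup (f := fun j => (R j).natDegree) (Finset.mem_univ j)).trans (le_max_right _ _)
  -- the rational approximation
  set q : ℕ → ℤ := fun b => homog Q n b * b with hq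
  set p : ℕ → ℤ := fun b => q b * B.N b + ∑ j, B.c j b * homog (R j) n b with hp
  have hmodh : ∀ (A : ℤ[X]), A.natDegree ≤ n → Mod 𝓤 (fun b => (homog A n b : ℝ)) := by
    intro A hA
    have h1 : Mod 𝓤 (fun b => (b : ℝ) ^ n * evr (A : PowerSeries ℤ) (1 / (b : ℝ))) :=
      (Mod.natCast.pow B.le n).mul (mod_evr B.le (coe_mem_convRing A))
    refine h1.congr ?_
    filter_upwards [ev_ge B.le 1] with b hb
    rw [evr_coe, homog_eq hA (by omega)]
  have hmodq : Mod 𝓤 (fun b => (q b : ℝ)) := by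
    refine ((hmodh Q hnQ).mul Mod.natCast).congr ?_
    filter_upwards with b
    rw [hq]
    push_cast
    rfl
  have hmodp : Mod 𝓤 (fun b => (p b : ℝ)) := by
    refine ((hmodq.mul B.mod_N).add B.le
      (Mod.sum B.le Finset.univ fun j _ => (B.mod_c j).mul (hmodh (R j) (hnR j)))).congr ?_
    filter_upwards with b
    rw [hp]
    push_cast
    rfl
  have hq0 : ∀ᶠ b : ℕ in (𝓤 : Filter ℕ), q b ≠ 0 := by
    have hQ0' : (Q : PowerSeries ℤ) ≠ 0 := by
      rw [Ne, ← Polynomial.coe_zero]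
      exact fun h => hQ0 (Polynomial.coe_injective ℤ h)
    filter_upwards [ev_aeval_ne_zero B.le (coe_mem_convRing Q) hQ0', ev_ge B.le 1] with b h1 hb
    have hbpos : (0 : ℝ) < b := by exact_mod_cast hb
    rw [evr_coe] at h1
    intro h2
    have h3 : (q b : ℝ) = 0 := by exact_mod_cast h2
    rw [hq] at h3
    push_cast at h3
    rw [homog_eq hnQ (by omega)] at h3
    rcases mul_eq_zero.mp h3 with h4 | h4
    · rcases mul_eq_zero.mp h4 with h5 | h5
      · exact pow_ne_zero _ hbpos.ne' h5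
      · exact h1 h5
    · exact hbpos.ne' h4
  have hpq : ∀ᶠ b : ℕ in (𝓤 : Filter ℕ), (q b : ℝ) * (B.N b + 1 / (b : ℝ) * B.ζ b) = p b := by
    filter_upwards [hev, ev_ge B.le 1] with b h1 hb
    have hbpos : (0 : ℝ) < b := by exact_mod_cast hb
    have h2 : (q b : ℝ) * (1 / (b : ℝ) * B.ζ b) = ∑ j, (B.c j b : ℝ) * (homog (R j) n b : ℝ) := by
      have h3 : (q b : ℝ) * (1 / (b : ℝ) * B.ζ b) =
          (b : ℝ) ^ n * (aeval (1 / (b : ℝ)) Q * B.ζ b) * ((b : ℝ) * (1 / (b : ℝ))) := by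
        rw [hq]
        push_cast
        rw [homog_eq hnQ (by omega)]
        ring
      rw [h3, mul_one_div_cancel hbpos.ne', mul_one, h1, Finset.mul_sum]
      refine Finset.sum_congr rfl fun j _ => ?_
      rw [homog_eq (hnR j) (by omega)]
      ring
    rw [mul_add, h2, hp]
    push_cast
    rfl
  have htiny : Tiny 𝓤 (fun b => (q b : ℝ) * B.ξ b - p b) := by
    refine ((B.tiny_diff.mul_mod B.le hmodq).mul_mod B.le (Mod.const B.le (-1))).congr ?_
    filter_upwards [hpq] with b hb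
    rw [← hb]
    ring
  obtain ⟨l₀, hl₀⟩ := hmodq
  obtain ⟨m₀, hm₀⟩ := hmodp
  -- Liouville
  have hmodL : Mod 𝓤 (fun b => (2 * (b : ℝ) ^ (l₀ + m₀)) ^ D * ((D + 1) * (b : ℝ) ^ κ)) :=
    (((Mod.const B.le 2).mul (Mod.natCast.pow B.le (l₀ + m₀))).pow B.le D).mul
      ((Mod.const B.le ((D : ℝ) + 1)).mul (Mod.natCast.pow B.le κ))
  have htiny' := htiny.mul_mod B.le hmodL
  obtain ⟨b, ⟨hb, hbq0⟩, ⟨hbl, hbm⟩, hbt, hb2⟩ := ((B.spec.and hq0).and
    ((hl₀.and hm₀).and ((htiny' 1).and (ev_ge B.le 2)))).exists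
  obtain ⟨hirr, hP0, hPD, hPc, hPξ, -⟩ := hb
  have hb2R : (2 : ℝ) ≤ b := by exact_mod_cast hb2
  have hb1R : (1 : ℝ) ≤ b := by linarith
  obtain ⟨F, hF, hFP, hFξ⟩ := exists_irreducible_factor hP0 hPξ
  have hFmah : mah F ≤ (D + 1) * (b : ℝ) ^ κ :=
    (mah_le_of_dvd hFP hP0).trans (mah_le_of_coeff_le hPD hPc)
  have hFD : F.natDegree ≤ D := (natDegree_le_of_dvd hFP hP0).trans hPD
  set U : ℤ[X] := Polynomial.C (q b) * X + Polynomial.C (-p b) with hU
  have hUdeg : U.natDegree ≤ 1 := natDegree_linear_le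
  have hUξ : aeval (B.ξ b) U = q b * B.ξ b - p b := by
    rw [hU, map_add, map_mul, aeval_X, aeval_C, aeval_C]
    rw [show (algebraMap ℤ ℝ) (-p b) = -(p b : ℝ) by push_cast; simp]
    rfl
  have hUne : aeval (B.ξ b) U ≠ 0 := by
    rw [hUξ]
    intro h0
    apply hirr
    refine ⟨(p b : ℚ) / (q b : ℚ), ?_⟩
    have hqR : (q b : ℝ) ≠ 0 := by exact_mod_cast hbq0
    push_cast
    rw [div_eq_iff hqR]
    linarith
  have hUc : ∀ i, |(U.coeff i : ℝ)| ≤ (b : ℝ) ^ (l₀ + m₀) := by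
    intro i
    have h1 : (b : ℝ) ^ l₀ ≤ (b : ℝ) ^ (l₀ + m₀) := pow_le_pow_right₀ hb1R (by omega)
    have h2 : (b : ℝ) ^ m₀ ≤ (b : ℝ) ^ (l₀ + m₀) := pow_le_pow_right₀ hb1R (by omega)
    rcases i with _ | _ | i
    · have h3 : U.coeff 0 = -p b := by simp [hU]
      rw [h3]
      push_cast
      rw [abs_neg]
      exact hbm.trans h2
    · have h3 : U.coeff 1 = q b := by
        rw [hU, coeff_add, coeff_C_mul, coeff_X_one, mul_one, coeff_C, if_neg one_ne_zero, add_zero]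
      rw [zero_add, h3]
      exact hbl.trans h1
    · have h3 : U.coeff (i + 1 + 1) = 0 := coeff_eq_zero_of_natDegree_lt (by omega)
      rw [h3, Int.cast_zero, abs_zero]
      positivity
  have hL := liouville hF hFξ hUdeg hUne hUc
  rw [hUξ] at hL
  have h1 : (((1 : ℕ) + 1 : ℝ) * (b : ℝ) ^ (l₀ + m₀)) ^ (F.natDegree - 1) * mah F ^ 1 ≤
      (2 * (b : ℝ) ^ (l₀ + m₀)) ^ D * ((D + 1) * (b : ℝ) ^ κ) := by
    rw [pow_one]
    refine mul_le_mul ?_ hFmah (mah_nonneg F) (by positivity)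
    have h2 : ((1 : ℕ) + 1 : ℝ) = 2 := by norm_num
    rw [h2]
    refine pow_le_pow_right₀ ?_ (by omega)
    have h3 : (1 : ℝ) ≤ (b : ℝ) ^ (l₀ + m₀) := one_le_pow₀ hb1R
    linarith
  have h2 : 1 ≤ |(q b : ℝ) * B.ξ b - p b| *
      ((2 * (b : ℝ) ^ (l₀ + m₀)) ^ D * ((D + 1) * (b : ℝ) ^ κ)) :=
    hL.trans (mul_le_mul_of_nonneg_left h1 (abs_nonneg _))
  have h3 : |(2 * (b : ℝ) ^ (l₀ + m₀)) ^ D * ((D + 1) * (b : ℝ) ^ κ) *
      ((q b : ℝ) * B.ξ b - p b)| = |(q b : ℝ) * B.ξ b - p b| *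
      ((2 * (b : ℝ) ^ (l₀ + m₀)) ^ D * ((D + 1) * (b : ℝ) ^ κ)) := by
    rw [abs_mul, abs_of_nonneg (by positivity), mul_comm]
  rw [h3, pow_one] at hbt
  have h4 : 1 / (b : ℝ) < 1 := by
    rw [div_lt_one (by linarith)]
    linarith
  linarith

end Bad

/-- From few distinct values to an enumeration. -/
theorem exists_enum {f : ℕ → ℤ} {M m : ℕ} {B : ℤ} (hB : 0 ≤ B) (hf : ∀ i, 0 ≤ f i ∧ f i ≤ B)
    (h : ((Finset.range M).image f).card < m) :
    ∃ (c : Fin m → ℤ) (idx : ℕ → Fin m), (∀ j, 0 ≤ c j ∧ c j ≤ B) ∧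
      ∀ i < M, f i = c (idx i) := by
  classical
  set S := (Finset.range M).image f with hS
  have hm : 0 < m := by omega
  have hcard := S.equivFin
  refine ⟨fun j => if h : j.1 < S.card then (hcard.symm ⟨j.1, h⟩).1 else 0,
    fun i => if hi : i < M then ⟨(hcard ⟨f i, Finset.mem_image_of_mem f
      (Finset.mem_range.mpr hi)⟩).1, (Fin.is_lt _).trans h⟩ else ⟨0, hm⟩, ?_, ?_⟩
  · intro j
    dsimp only
    split_ifs with hj
    · have h1 := (hcard.symm ⟨j.1, hj⟩).2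
      obtain ⟨i, -, hi⟩ := Finset.mem_image.mp h1
      show 0 ≤ (hcard.symm ⟨j.1, hj⟩).1 ∧ (hcard.symm ⟨j.1, hj⟩).1 ≤ B
      rw [← hi]
      exact hf i
    · exact ⟨le_rfl, hB⟩
  · intro i hi
    simp only [hi, dite_true, Fin.is_lt, Fin.eta, Equiv.symm_apply_apply]

/-- **Many distinct digits.** -/
theorem many_digits (D κ m : ℕ) : ∃ M : ℕ, ∀ b : ℕ, M ≤ b → ∀ ξ : ℝ, Irrational ξ →
    ∀ P : ℤ[X], P ≠ 0 → P.natDegree ≤ D → (∀ i, |P.coeff i| ≤ (b : ℤ) ^ κ) → aeval ξ P = 0 →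
      m ≤ ((Finset.range M).image (digit ξ b)).card := by
  classical
  by_contra hcon
  push Not at hcon
  set T : ℕ → Set ℕ := fun M => {b | M ≤ b ∧ ∃ (ξ : ℝ) (P : ℤ[X]), Irrational ξ ∧ P ≠ 0 ∧
    P.natDegree ≤ D ∧ (∀ i, |P.coeff i| ≤ (b : ℤ) ^ κ) ∧ aeval ξ P = 0 ∧
    ((Finset.range M).image (digit ξ b)).card < m} with hT
  have hTne : ∀ M, (T M).Nonempty := by
    intro M
    obtain ⟨b, hb, ξ, hξ, P, h1, h2, h3, h4, h5⟩ := hcon M
    exact ⟨b, hb, ξ, P, hξ, h1, h2, h3, h4, h5⟩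
  have hTanti : Antitone T := by
    rintro M M' hMM' b ⟨hb, ξ, P, hξ, h1, h2, h3, h4, h5⟩
    refine ⟨hMM'.trans hb, ξ, P, hξ, h1, h2, h3, h4, lt_of_le_of_lt (Finset.card_le_card ?_) h5⟩
    exact Finset.image_subset_image (Finset.range_subset_range.mpr hMM')
  have hne : (⨅ M, 𝓟 (T M)).NeBot := by
    refine iInf_neBot_of_directed' ?_ fun M => principal_neBot_iff.mpr (hTne M)
    exact directed_of_isDirected_le fun M M' h => principal_mono.mpr (hTanti h)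
  set 𝓤 : Ultrafilter ℕ := Ultrafilter.of (⨅ M, 𝓟 (T M)) with h𝓤
  have hle : (𝓤 : Filter ℕ) ≤ ⨅ M, 𝓟 (T M) := Ultrafilter.of_le _
  have hT𝓤 : ∀ M, ∀ᶠ b : ℕ in (𝓤 : Filter ℕ), b ∈ T M := fun M =>
    (hle.trans (iInf_le _ M)) (mem_principal_self _)
  have hletop : (𝓤 : Filter ℕ) ≤ atTop := by
    intro s hs
    obtain ⟨M, hM⟩ := mem_atTop_sets.mp hs
    filter_upwards [hT𝓤 M] with b hb
    exact hM b hb.1
  set len : ℕ → ℕ := fun b => Nat.findGreatest (fun M => b ∈ T M) b with hlen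
  have hlen_large : ∀ M, ∀ᶠ b : ℕ in (𝓤 : Filter ℕ), M ≤ len b := by
    intro M
    filter_upwards [hT𝓤 M] with b hb
    exact Nat.le_findGreatest hb.1 hb
  have hex : ∀ b : ℕ, ∃ (ξ : ℝ) (P : ℤ[X]) (c : Fin m → ℤ) (idx : ℕ → Fin m), b ∈ T 0 →
      (Irrational ξ ∧ P ≠ 0 ∧ P.natDegree ≤ D ∧
    (∀ i, |(P.coeff i : ℝ)| ≤ (b : ℝ) ^ κ) ∧ aeval ξ P = 0 ∧
    (∀ j, 0 ≤ c j ∧ c j ≤ b) ∧ ∀ i < len b, digit ξ b i = c (idx i)) := by
    intro b
    by_cases hb : b ∈ T 0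
    · have hb' : b ∈ T (len b) :=
        Nat.findGreatest_spec (P := fun M => b ∈ T M) (Nat.zero_le b) hb
      obtain ⟨-, ξ, P, hξ, h1, h2, h3, h4, h5⟩ := hb'
      have hdig : ∀ i, 0 ≤ digit ξ b i ∧ digit ξ b i ≤ b := by
        intro i
        refine ⟨digit_nonneg ξ b i, ?_⟩
        rcases Nat.eq_zero_or_pos b with h0 | h0
        · rw [h0, digit]
          simp
        · exact digit_le ξ h0 i
      obtain ⟨c, idx, hc, hidx⟩ := exists_enum (Int.natCast_nonneg b) hdig h5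
      refine ⟨ξ, P, c, idx, fun _ => ⟨hξ, h1, h2, fun i => ?_, h4, hc, hidx⟩⟩
      exact_mod_cast h3 i
    · have hm : 0 < m := by
        obtain ⟨b', h0, ξ, P, hξ, h1, h2, h3, h4, h5⟩ := hTne 0
        exact lt_of_le_of_lt (Nat.zero_le _) h5
      exact ⟨0, 0, 0, fun _ => ⟨0, hm⟩, fun h => absurd h hb⟩
  choose ξ P c idx hprop using hex
  have B : Bad 𝓤 D κ m :=
    { le := hletop
      ξ := ξ
      P := P
      c := fun j b => c b j
      idx := idx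
      len := len
      len_large := hlen_large
      spec := by
        filter_upwards [hT𝓤 0] with b hb
        exact hprop b hb }
  exact B.false

/-- For every algebraic irrational number the number of distinct digits in base `b` tends to
infinity with `b`. -/
theorem tendsto_ncard {ξ : ℝ} (hξ : IsAlgebraic ℚ ξ) (hirr : Irrational ξ) :
    Tendsto (fun b : ℕ => (Set.range (digit ξ b)).ncard) atTop atTop := by
  have hint : IsAlgebraic ℤ ξ := (IsFractionRing.isAlgebraic_iff ℤ ℚ ℝ).mpr hξ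
  obtain ⟨P, hP0, hP⟩ := hint
  obtain ⟨C, hC⟩ : ∃ C : ℕ, ∀ i, |P.coeff i| ≤ C := by
    refine ⟨(∑ i ∈ P.support, |P.coeff i|).toNat, fun i => ?_⟩
    rw [Int.toNat_of_nonneg (Finset.sum_nonneg fun _ _ => abs_nonneg _)]
    by_cases hi : i ∈ P.support
    · exact Finset.single_le_sum (f := fun i => |P.coeff i|) (fun _ _ => abs_nonneg _) hi
    · rw [notMem_support_iff.mp hi, abs_zero]
      exact Finset.sum_nonneg fun _ _ => abs_nonneg _
  rw [tendsto_atTop]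
  intro m
  obtain ⟨M, hM⟩ := many_digits P.natDegree 1 m
  filter_upwards [eventually_ge_atTop M, eventually_ge_atTop C, eventually_ge_atTop 1]
    with b hbM hbC hb1
  have h1 := hM b hbM ξ hirr P hP0 le_rfl (fun i => by
    rw [pow_one]
    exact (hC i).trans (by exact_mod_cast hbC)) hP
  have hfin : (Set.range (digit ξ b)).Finite := by
    refine (Set.finite_Icc (0 : ℤ) b).subset ?_
    rintro _ ⟨i, rfl⟩
    exact ⟨digit_nonneg ξ b i, digit_le ξ hb1 i⟩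
  refine h1.trans ?_
  rw [← Set.ncard_coe_finset]
  refine Set.ncard_le_ncard ?_ hfin
  intro x hx
  obtain ⟨i, -, hi⟩ := Finset.mem_image.mp (Finset.mem_coe.mp hx)
  exact ⟨i, hi⟩

end Pool.Agent.Helper2.Digits
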