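import Mathlib

/-!
Algebraic elements in the compositum of linearly disjoint fields (characteristic zero), by means of
derivations.
-/

set_option autoImplicit false

open scoped TensorProduct
open Polynomial

namespace Pool.Agent.Helper2.Digits

section BaseChange

variable {R S A : Type*} [CommRing R] [CommRing S] [CommRing A] [Algebra R S] [Algebra R A]

/-- Base change of a derivation. -/
noncomputable def baseChangeDer (D : Derivation R A A) : Derivation S (S ⊗[R] A) (S ⊗[R] A) :=
  Derivation.mk' (LinearMap.baseChange S (D : A →ₗ[R] A)) (by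
    intro a b
    induction a using TensorProduct.induction_on with
    | zero => simp
    | add x y hx hy => rw [add_mul, map_add, hx, hy, map_add, add_smul, smul_add]; abel
    | tmul s x =>
      induction b using TensorProduct.induction_on with
      | zero => simp
      | add x y hx hy => rw [mul_add, map_add, hx, hy, map_add, add_smul, smul_add]; abel
      | tmul t y =>
        simp only [Algebra.TensorProduct.tmul_mul_tmul, LinearMap.baseChange_tmul, smul_eq_mul,
          Derivation.coeFn_coe, Derivation.leibniz]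
        rw [TensorProduct.tmul_add, mul_comm t s])

theorem baseChangeDer_tmul (D : Derivation R A A) (s : S) (x : A) :
    baseChangeDer D (s ⊗ₜ[R] x) = s ⊗ₜ[R] D x := rfl

end BaseChange

variable {k₀ Ω : Type*} [Field k₀] [Field Ω] [Algebra k₀ Ω]

/-- The multiplication map `K₁ ⊗ E → Ω` as a homomorphism of `K₁`-algebras. -/
noncomputable def mulK (K₁ E : IntermediateField k₀ Ω) : K₁ ⊗[k₀] E →ₐ[K₁] Ω :=
  Algebra.TensorProduct.lift (Algebra.ofId K₁ Ω) E.val (fun _ _ => Commute.all _ _)

theorem mulK_tmul (K₁ E : IntermediateField k₀ Ω) (x : K₁) (y : E) :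
    mulK K₁ E (x ⊗ₜ y) = (x : Ω) * (y : Ω) := rfl

theorem mulK_injective {K₁ E : IntermediateField k₀ Ω} (h : K₁.LinearDisjoint E) :
    Function.Injective (mulK K₁ E) := by
  have h1 := Subalgebra.linearDisjoint_iff_injective.mp
    (IntermediateField.linearDisjoint_iff'.mp h)
  intro a b hab
  apply h1
  have h2 : ∀ c, K₁.toSubalgebra.mulMap E.toSubalgebra c = mulK K₁ E c := by
    intro c
    induction c using TensorProduct.induction_on with
    | zero => rw [map_zero, map_zero]
    | add x y hx hy => rw [map_add, map_add, hx, hy]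
    | tmul x y => rfl
  rw [h2, h2, hab]

/-- Let `K₁` and `E` be linearly disjoint over `k₀` in a field of characteristic zero. If a
combination `∑ gᵢ ψᵢ` with `gᵢ ∈ K₁` linearly independent over `k₀` and `ψᵢ ∈ E` is algebraic over
`K₁`, then every `k₀`-derivation of `E` kills the `ψᵢ`. -/
theorem derivation_zero [CharZero k₀] {K₁ E : IntermediateField k₀ Ω} (h : K₁.LinearDisjoint E)
    {ι : Type*} [Fintype ι] (g : ι → K₁) (hg : LinearIndependent k₀ g) (ψ : ι → E)
    (hζ : IsAlgebraic K₁ (∑ i, (g i : Ω) * (ψ i : Ω))) (D : Derivation k₀ E E) (i : ι) :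
    D (ψ i) = 0 := by
  have : CharZero K₁ := charZero_of_injective_algebraMap (algebraMap k₀ K₁).injective
  set ζ : Ω := ∑ i, (g i : Ω) * (ψ i : Ω) with hζdef
  set ζ' : K₁ ⊗[k₀] E := ∑ i, g i ⊗ₜ ψ i with hζ'
  have hμζ : mulK K₁ E ζ' = ζ := by
    rw [hζ', map_sum]
    rfl
  have hinj := mulK_injective h
  set F := minpoly K₁ ζ with hF
  have hint : IsIntegral K₁ ζ := hζ.isIntegral
  have hFζ : aeval ζ F = 0 := minpoly.aeval K₁ ζ
  have hFζ' : aeval ζ' F = 0 := by
    apply hinj
    rw [map_zero, ← aeval_algHom_apply, hμζ, hFζ]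
  have hsep : F.Separable := (minpoly.irreducible hint).separable
  have hF' : aeval ζ (derivative F) ≠ 0 := hsep.aeval_derivative_ne_zero hFζ
  have h1 := (baseChangeDer (S := K₁) D).map_aeval F ζ'
  rw [hFζ', map_zero] at h1
  have h2 : aeval ζ (derivative F) * mulK K₁ E (baseChangeDer (S := K₁) D ζ') = 0 := by
    have h3 := congrArg (mulK K₁ E) h1
    rw [map_zero, smul_eq_mul, map_mul, ← aeval_algHom_apply, hμζ] at h3
    exact h3.symm
  have h4 := (mul_eq_zero.mp h2).resolve_left hF'
  have h5 : ∑ j, D (ψ j) • (g j : Ω) = 0 := by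
    rw [← h4, hζ', map_sum, map_sum]
    refine Finset.sum_congr rfl fun j _ => ?_
    rw [baseChangeDer_tmul, mulK_tmul, Algebra.smul_def, mul_comm]
    rfl
  have h6 := h.linearIndependent_left hg
  exact Fintype.linearIndependent_iff.mp h6 (fun j => D (ψ j)) h5 i

/-- The field of constants of a derivation. -/
def derConst {K : Type*} [Field K] [Algebra k₀ K] (D : Derivation k₀ K K) :
    IntermediateField k₀ K where
  carrier := {z | D z = 0}
  mul_mem' := by
    intro a b ha hb
    rw [Set.mem_ofPred_eq] at ha hb ⊢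
    rw [D.leibniz, ha, hb, smul_zero, smul_zero, add_zero]
  one_mem' := D.map_one_eq_zero
  add_mem' := by
    intro a b ha hb
    rw [Set.mem_ofPred_eq] at ha hb ⊢
    rw [map_add, ha, hb, add_zero]
  zero_mem' := map_zero D
  algebraMap_mem' := fun r => D.map_algebraMap r
  inv_mem' := by
    intro a ha
    rw [Set.mem_ofPred_eq] at ha ⊢
    rw [D.leibniz_inv, ha, smul_zero]

/-- A finitely generated extension without nonzero derivations is algebraic. -/
theorem isAlgebraic_of_der {K : Type*} [Field K] [Algebra k₀ K] [Algebra.EssFiniteType k₀ K]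
    (h : ∀ D : Derivation k₀ K K, ∀ w, D w = 0) : Algebra.IsAlgebraic k₀ K := by
  have h1 : ∀ w : K, KaehlerDifferential.D k₀ K w = 0 := by
    intro w
    rw [← Module.forall_dual_apply_eq_zero_iff K]
    intro φ
    exact h (φ.compDer (KaehlerDifferential.D k₀ K)) w
  have h2 : Algebra.FormallyUnramified k₀ K := by
    constructor
    rw [← Submodule.subsingleton_iff K, ← subsingleton_iff_bot_eq_top]
    rw [← KaehlerDifferential.span_range_derivation]
    symm
    rw [Submodule.span_eq_bot]
    rintro _ ⟨w, rfl⟩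
    exact h1 w
  have h3 := Algebra.FormallyUnramified.isSeparable k₀ K
  infer_instance

/-- Let `K₁` and `E = k₀(ψ₁, …, ψ_r)` be linearly disjoint over `k₀` in a field of characteristic
zero. If `∑ gᵢ ψᵢ` with `gᵢ ∈ K₁` linearly independent over `k₀` is algebraic over `K₁`, then the
`ψᵢ` are algebraic over `k₀`. -/
theorem isAlgebraic_of_linearDisjoint [CharZero k₀] {K₁ : IntermediateField k₀ Ω} {ι : Type*}
    [Fintype ι] (ψ : ι → Ω)
    (h : K₁.LinearDisjoint (IntermediateField.adjoin k₀ (Set.range ψ))) (g : ι → K₁)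
    (hg : LinearIndependent k₀ g) (hζ : IsAlgebraic K₁ (∑ i, (g i : Ω) * ψ i)) (i : ι) :
    IsAlgebraic k₀ (ψ i) := by
  set E := IntermediateField.adjoin k₀ (Set.range ψ) with hE
  have hmem : ∀ i, ψ i ∈ E := fun i => IntermediateField.subset_adjoin k₀ _ ⟨i, rfl⟩
  have hess : Algebra.EssFiniteType k₀ E := by
    rw [IntermediateField.essFiniteType_iff]
    exact ⟨(Set.finite_range ψ).toFinset, by rw [Set.Finite.coe_toFinset]⟩
  have hder : ∀ D : Derivation k₀ E E, ∀ w, D w = 0 := by
    intro D w
    have h1 : ∀ i, D ⟨ψ i, hmem i⟩ = 0 := fun i =>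
      derivation_zero h g hg (fun i => ⟨ψ i, hmem i⟩) hζ D i
    have h2 : E ≤ (derConst D).map E.val := by
      refine IntermediateField.adjoin_le_iff.mpr ?_
      rintro _ ⟨i, rfl⟩
      exact ⟨⟨ψ i, hmem i⟩, h1 i, rfl⟩
    obtain ⟨w', hw', hww'⟩ := h2 w.2
    have h3 : w' = w := Subtype.ext hww'
    rw [← h3]
    exact hw'
  have halg := isAlgebraic_of_der hder
  have h4 : IsAlgebraic k₀ (⟨ψ i, hmem i⟩ : E) := Algebra.IsAlgebraic.isAlgebraic _
  exact (isAlgebraic_algebraMap_iff (algebraMap E Ω).injective).mpr h4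

end Pool.Agent.Helper2.Digits
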