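import Pool.Agent.Helper2.Digits.Rep
import Pool.Agent.Helper2.Digits.LinDisj

/-!
The field of germs along an ultrafilter: the field generated by the moderate integers and the field
generated by the convergent power series in `1 / b` are linearly disjoint over `ℚ(1 / b)`.
-/

set_option autoImplicit false

open Polynomial Filter Topology

namespace Pool.Agent.Helper2.Digits

section Denominators

variable {Ω : Type*} [Field Ω]

/-- Common denominators. -/
theorem common_denom (S : Subring Ω) {ι : Type*} [Fintype ι] (g : ι → Ω)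
    (hg : ∀ i, g i ∈ Subfield.closure (S : Set Ω)) :
    ∃ d ∈ S, d ≠ 0 ∧ ∀ i, d * g i ∈ S := by
  classical
  have h1 : ∀ i, ∃ y ∈ S, ∃ z ∈ S, z ≠ 0 ∧ z * g i = y := by
    intro i
    obtain ⟨y, hy, z, hz, hyz⟩ := Subfield.mem_closure_iff.mp (hg i)
    rw [Subring.closure_eq] at hy hz
    by_cases hz0 : z = 0
    · refine ⟨0, zero_mem _, 1, one_mem _, one_ne_zero, ?_⟩
      rw [← hyz, hz0, div_zero, mul_zero]
    · exact ⟨y, hy, z, hz, hz0, by rw [← hyz, mul_div_cancel₀ _ hz0]⟩
  choose y hy z hz hz0 hyz using h1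
  refine ⟨∏ i, z i, prod_mem fun i _ => hz i, Finset.prod_ne_zero_iff.mpr fun i _ => hz0 i, ?_⟩
  intro i
  rw [← Finset.mul_prod_erase Finset.univ z (Finset.mem_univ i)]
  have h2 : z i * (∏ x ∈ Finset.univ.erase i, z x) * g i =
      (∏ x ∈ Finset.univ.erase i, z x) * y i := by
    rw [← hyz i]
    ring
  rw [h2]
  exact mul_mem (prod_mem fun j _ => hz j) (hy i)

/-- Algebraic relations over the field generated by a subring, with coefficients in the subring. -/
theorem exists_relation (S : Subring Ω) {x : Ω}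
    (hx : IsAlgebraic (Subfield.closure (S : Set Ω)) x) :
    ∃ (d : ℕ) (c : ℕ → Ω), (∀ k, c k ∈ S) ∧ (∃ k ≤ d, c k ≠ 0) ∧
      ∑ k ∈ Finset.range (d + 1), c k * x ^ k = 0 := by
  obtain ⟨P, hP0, hP⟩ := hx
  obtain ⟨δ, hδ, hδ0, hδP⟩ := common_denom S (fun k : Fin (P.natDegree + 1) =>
    ((P.coeff k : Subfield.closure (S : Set Ω)) : Ω)) (fun k => SetLike.coe_mem _)
  refine ⟨P.natDegree, fun k => δ * ((P.coeff k : Subfield.closure (S : Set Ω)) : Ω), ?_, ?_, ?_⟩
  · intro k
    by_cases hk : k ≤ P.natDegree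
    · exact hδP ⟨k, Nat.lt_succ_of_le hk⟩
    · show δ * ((P.coeff k : Subfield.closure (S : Set Ω)) : Ω) ∈ S
      rw [coeff_eq_zero_of_natDegree_lt (not_le.mp hk), ZeroMemClass.coe_zero, mul_zero]
      exact zero_mem _
  · refine ⟨P.natDegree, le_rfl, mul_ne_zero hδ0 ?_⟩
    intro h
    apply leadingCoeff_ne_zero.mpr hP0
    exact Subtype.ext h
  · rw [aeval_eq_sum_range] at hP
    have h1 : ∑ k ∈ Finset.range (P.natDegree + 1),
        δ * ((P.coeff k : Subfield.closure (S : Set Ω)) : Ω) * x ^ k =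
        δ * ∑ k ∈ Finset.range (P.natDegree + 1), P.coeff k • x ^ k := by
      rw [Finset.mul_sum]
      refine Finset.sum_congr rfl fun k _ => ?_
      rw [Subfield.smul_def, smul_eq_mul, mul_assoc]
    rw [h1, hP, mul_zero]

end Denominators

/-- A homomorphism from real sequences to a field whose kernel consists of the sequences which
vanish along the ultrafilter. -/
structure GermHom (𝓤 : Ultrafilter ℕ) (Ω : Type*) [Field Ω] where
  /-- the homomorphism -/
  G : (ℕ → ℝ) →+* Ω
  le : (𝓤 : Filter ℕ) ≤ atTop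
  zero_iff : ∀ u, G u = 0 ↔ ∀ᶠ b : ℕ in (𝓤 : Filter ℕ), u b = 0

namespace GermHom

variable {𝓤 : Ultrafilter ℕ} {Ω : Type*} [Field Ω] (g : GermHom 𝓤 Ω)

theorem eq_iff {u v : ℕ → ℝ} : g.G u = g.G v ↔ ∀ᶠ b : ℕ in (𝓤 : Filter ℕ), u b = v b := by
  rw [← sub_eq_zero, ← map_sub, g.zero_iff]
  simp only [Pi.sub_apply, sub_eq_zero]

theorem G_add (u v : ℕ → ℝ) : g.G (fun b => u b + v b) = g.G u + g.G v := map_add g.G u v

theorem G_mul (u v : ℕ → ℝ) : g.G (fun b => u b * v b) = g.G u * g.G v := map_mul g.G u v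

theorem G_sum {ι : Type*} (s : Finset ι) (u : ι → ℕ → ℝ) :
    g.G (fun b => ∑ i ∈ s, u i b) = ∑ i ∈ s, g.G (u i) := by
  rw [← map_sum]
  congr 1
  funext b
  rw [Finset.sum_apply]

theorem G_pow (u : ℕ → ℝ) (k : ℕ) : g.G (fun b => u b ^ k) = g.G u ^ k := map_pow g.G u k

/-- Convergent power series in `1 / b`. -/
noncomputable def evg : convRing →+* Ω where
  toFun φ := g.G fun b => evr (φ : PowerSeries ℤ) (1 / (b : ℝ))
  map_one' := by
    rw [← map_one g.G, g.eq_iff]
    filter_upwards with b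
    rw [OneMemClass.coe_one, ← Polynomial.coe_one, evr_coe, map_one, Pi.one_apply]
  map_zero' := by
    rw [g.zero_iff]
    filter_upwards with b
    rw [ZeroMemClass.coe_zero, evr_zero]
  map_mul' := by
    intro φ ψ
    rw [← G_mul, g.eq_iff]
    filter_upwards [ev_ASr g.le φ.2, ev_ASr g.le ψ.2] with b h1 h2
    rw [Subring.coe_mul, evr_mul h1 h2]
  map_add' := by
    intro φ ψ
    rw [← G_add, g.eq_iff]
    filter_upwards [ev_ASr g.le φ.2, ev_ASr g.le ψ.2] with b h1 h2
    rw [Subring.coe_add, evr_add h1 h2]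

theorem evg_apply (φ : convRing) :
    g.evg φ = g.G fun b => evr (φ : PowerSeries ℤ) (1 / (b : ℝ)) := rfl

theorem evg_injective : Function.Injective g.evg := by
  rw [injective_iff_map_eq_zero]
  intro φ h
  by_contra h0
  rw [evg_apply, g.zero_iff] at h
  obtain ⟨b, hb1, hb2⟩ := (h.and (ev_aeval_ne_zero g.le φ.2 (fun h1 => h0 (Subtype.ext h1)))).exists
  exact hb2 hb1

/-- Polynomials in `1 / b`. -/
noncomputable def evp : ℤ[X] →+* Ω :=
  g.evg.comp ((Polynomial.coeToPowerSeries.ringHom (R := ℤ)).codRestrict convRing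
    (fun A => by
      rw [Polynomial.coeToPowerSeries.ringHom_apply]
      exact coe_mem_convRing A))

theorem evp_eq (A : ℤ[X]) : g.evp A = g.evg ⟨(A : PowerSeries ℤ), coe_mem_convRing A⟩ := rfl

theorem evp_apply (A : ℤ[X]) : g.evp A = g.G fun b => aeval (1 / (b : ℝ)) A := by
  rw [evp_eq, evg_apply]
  simp only [evr_coe]

theorem evp_injective : Function.Injective g.evp := by
  intro A B h
  rw [evp_eq, evp_eq] at h
  have h1 := congrArg Subtype.val (g.evg_injective h)
  exact Polynomial.coe_injective ℤ h1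

/-- The ring of polynomials in `1 / b`. -/
noncomputable def pp : Subring Ω := g.evp.range

/-- The ring of convergent power series in `1 / b`. -/
noncomputable def cc : Subring Ω := g.evg.range

/-- The ring of moderate integers. -/
noncomputable def zz : Subring Ω where
  carrier := {x | ∃ t : ℕ → ℤ, Mod 𝓤 (fun b => (t b : ℝ)) ∧ g.G (fun b => (t b : ℝ)) = x}
  mul_mem' := by
    rintro _ _ ⟨t, ht, rfl⟩ ⟨t', ht', rfl⟩
    refine ⟨fun b => t b * t' b, ?_, ?_⟩
    · simpa only [Int.cast_mul] using ht.mul ht'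
    · rw [← G_mul]
      simp only [Int.cast_mul]
  one_mem' := ⟨fun _ => 1, by simpa using Mod.const g.le 1, by
    rw [← map_one g.G]
    congr 1
    funext b
    simp⟩
  add_mem' := by
    rintro _ _ ⟨t, ht, rfl⟩ ⟨t', ht', rfl⟩
    refine ⟨fun b => t b + t' b, ?_, ?_⟩
    · simpa only [Int.cast_add] using ht.add g.le ht'
    · rw [← G_add]
      simp only [Int.cast_add]
  zero_mem' := ⟨fun _ => 0, by simpa using Mod.const g.le 0, by
    rw [← map_zero g.G]
    congr 1
    funext b
    simp⟩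
  neg_mem' := by
    rintro _ ⟨t, ht, rfl⟩
    refine ⟨fun b => - t b, ?_, ?_⟩
    · simpa only [Int.cast_neg] using ht.neg
    · rw [← map_neg]
      congr 1
      funext b
      simp

theorem mem_zz {t : ℕ → ℤ} (ht : Mod 𝓤 (fun b => (t b : ℝ))) :
    g.G (fun b => (t b : ℝ)) ∈ g.zz := ⟨t, ht, rfl⟩

theorem pp_le_cc : g.pp ≤ g.cc := by
  rintro _ ⟨A, rfl⟩
  exact ⟨_, rfl⟩

theorem evp_mem_closure_zz (A : ℤ[X]) : g.evp A ∈ Subfield.closure (g.zz : Set Ω) := by
  have hX : g.evp X ∈ Subfield.closure (g.zz : Set Ω) := by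
    have h1 : g.G (fun b => ((b : ℤ) : ℝ)) ∈ g.zz :=
      g.mem_zz (t := fun b => (b : ℤ)) (by simpa using Mod.natCast)
    have h2 : g.evp X = (g.G (fun b => ((b : ℤ) : ℝ)))⁻¹ := by
      refine eq_inv_of_mul_eq_one_left ?_
      rw [evp_apply, ← G_mul, ← map_one g.G, g.eq_iff]
      filter_upwards [ev_ge g.le 1] with b hb
      have hb0 : (b : ℝ) ≠ 0 := by
        have : (0 : ℝ) < b := by exact_mod_cast hb
        exact this.ne'
      rw [aeval_X, Pi.one_apply, Int.cast_natCast, one_div_mul_cancel hb0]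
    rw [h2]
    exact inv_mem (Subfield.subset_closure h1)
  induction A using Polynomial.induction_on' with
  | add p q hp hq => rw [map_add]; exact add_mem hp hq
  | monomial n a =>
    rw [← C_mul_X_pow_eq_monomial, map_mul, map_pow, eq_intCast C a, map_intCast]
    exact mul_mem (intCast_mem _ a) (pow_mem hX n)

theorem closure_pp_le_zz :
    Subfield.closure (g.pp : Set Ω) ≤ Subfield.closure (g.zz : Set Ω) := by
  rw [Subfield.closure_le]
  rintro _ ⟨A, rfl⟩
  exact g.evp_mem_closure_zz A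

theorem closure_pp_le_cc :
    Subfield.closure (g.pp : Set Ω) ≤ Subfield.closure (g.cc : Set Ω) :=
  Subfield.closure_mono g.pp_le_cc

/-- The field `ℚ(1 / b)`. -/
noncomputable abbrev F₀ : Subfield Ω := Subfield.closure (g.pp : Set Ω)

/-- The field generated by the moderate integers. -/
noncomputable def K₁ : IntermediateField g.F₀ Ω :=
  (Subfield.closure (g.zz : Set Ω)).toIntermediateField fun x => g.closure_pp_le_zz x.2

/-- The field generated by the convergent power series. -/
noncomputable def E₁ : IntermediateField g.F₀ Ω :=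
  (Subfield.closure (g.cc : Set Ω)).toIntermediateField fun x => g.closure_pp_le_cc x.2

theorem mem_K₁ {x : Ω} : x ∈ g.K₁ ↔ x ∈ Subfield.closure (g.zz : Set Ω) := Iff.rfl

theorem mem_E₁ {x : Ω} : x ∈ g.E₁ ↔ x ∈ Subfield.closure (g.cc : Set Ω) := Iff.rfl

theorem linearDisjoint : g.K₁.LinearDisjoint g.E₁ := by
  classical
  refine IntermediateField.LinearDisjoint.of_basis_left (Module.Basis.ofVectorSpace g.F₀ g.K₁) ?_
  have ha := (Module.Basis.ofVectorSpace g.F₀ g.K₁).linearIndependent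
  generalize (⇑(Module.Basis.ofVectorSpace g.F₀ g.K₁)) = a at ha
  rw [linearIndependent_iff'] at ha ⊢
  intro s e hse
  obtain ⟨τ, hτ, hτ0, hτa⟩ := common_denom g.zz (fun i : s => (a i.1 : Ω))
    (fun i => g.mem_K₁.mp (a i.1).2)
  obtain ⟨φ₀, hφ₀, hφ₀0, hφe⟩ := common_denom g.cc (fun i : s => (e i.1 : Ω))
    (fun i => g.mem_E₁.mp (e i.1).2)
  choose t ht htG using hτa
  choose φ hφG using hφe
  by_cases hne : ∃ i, (φ i : PowerSeries ℤ) ≠ 0
  · exfalso
    have h1 : ∑ i : s, g.G (fun b => (t i b : ℝ)) * g.evg (φ i) = 0 := by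
      have h2 : ∀ i : s, g.G (fun b => (t i b : ℝ)) * g.evg (φ i) =
          (τ * φ₀) * (e i.1 • (a i.1 : Ω)) := by
        intro i
        have h3 : g.evg (φ i) = φ₀ * (e i.1 : Ω) := hφG i
        rw [htG i, h3, IntermediateField.smul_def, smul_eq_mul]
        ring
      simp_rw [h2]
      rw [← Finset.mul_sum]
      have h4 : ∑ i : s, e i.1 • (a i.1 : Ω) = 0 := by
        rw [Finset.sum_coe_sort s (fun i => e i • (a i : Ω))]
        exact hse
      rw [h4, mul_zero]
    have h5 : ∀ᶠ b : ℕ in (𝓤 : Filter ℕ),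
        ∑ i : s, (t i b : ℝ) * evr (φ i : PowerSeries ℤ) (1 / (b : ℝ)) = 0 := by
      rw [← g.zero_iff, g.G_sum]
      rw [← h1]
      refine Finset.sum_congr rfl fun i _ => ?_
      rw [evg_apply, ← G_mul]
    have h6 : Tiny 𝓤 (fun b => ∑ i : s, (t i b : ℝ) * evr (φ i : PowerSeries ℤ) (1 / (b : ℝ))) :=
      Tiny.zero.congr (by
        filter_upwards [h5] with b hb
        exact hb.symm)
    obtain ⟨A, ⟨l, hl⟩, hA⟩ := skl g.le t ht (fun i => (φ i : PowerSeries ℤ)) (fun i => (φ i).2)
      hne h6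
    -- a relation over `F₀`
    set q : (Module.Basis.ofVectorSpaceIndex g.F₀ g.K₁) → g.F₀ := fun i =>
      if h : i ∈ s then ⟨g.evp (A ⟨i, h⟩), Subfield.subset_closure ⟨_, rfl⟩⟩ else 0 with hq
    have hrel : ∑ i ∈ s, q i • a i = 0 := by
      have h7 : (τ : Ω) * ((∑ i ∈ s, q i • a i : g.K₁) : Ω) = 0 := by
        have h8 : ((∑ i ∈ s, q i • a i : g.K₁) : Ω) = ∑ i : s, g.evp (A i) * (a i.1 : Ω) := by
          rw [AddSubmonoidClass.coe_finsetSum, ← Finset.sum_coe_sort s]
          refine Finset.sum_congr rfl fun i _ => ?_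
          rw [IntermediateField.coe_smul]
          rw [hq]
          simp only [i.2, dite_true]
          rfl
        rw [h8, Finset.mul_sum]
        have h9 : g.G (fun b => ∑ i : s, (t i b : ℝ) * aeval (1 / (b : ℝ)) (A i)) = 0 := by
          rw [g.zero_iff]
          exact hA
        rw [← h9, G_sum]
        refine Finset.sum_congr rfl fun i _ => ?_
        rw [G_mul, htG i, evp_apply]
        ring
      have h10 := (mul_eq_zero.mp h7).resolve_left hτ0
      exact Subtype.ext h10
    have h11 := ha s q hrel l.1 l.2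
    rw [hq] at h11
    simp only [l.2, dite_true] at h11
    have h12 : g.evp (A l) = 0 := congrArg Subtype.val h11
    rw [map_eq_zero_iff g.evp g.evp_injective] at h12
    exact hl h12
  · push Not at hne
    intro i hi
    have h1 : g.evg (φ ⟨i, hi⟩) = φ₀ * (e i : Ω) := hφG ⟨i, hi⟩
    have h2 : φ ⟨i, hi⟩ = 0 := Subtype.ext (hne ⟨i, hi⟩)
    rw [h2, map_zero] at h1
    have h3 := (mul_eq_zero.mp h1.symm).resolve_left hφ₀0
    exact Subtype.ext h3

end GermHom

end Pool.Agent.Helper2.Digits
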