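import Pool.Agent.Helper2.Digits.Conv

/-!
The key lemma: moderate integers which satisfy a linear relation with convergent power series in
`1 / b` as coefficients (up to an error which is smaller than all powers of `1 / b`) satisfy a
linear relation with polynomials as coefficients.
-/

set_option autoImplicit false

open Polynomial Filter Topology

namespace Pool.Agent.Helper2.Digits

/-- Smaller than every power of `1 / b`. -/
def Tiny (𝓤 : Ultrafilter ℕ) (u : ℕ → ℝ) : Prop :=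
  ∀ N : ℕ, ∀ᶠ b : ℕ in (𝓤 : Filter ℕ), |u b| ≤ (1 / (b : ℝ)) ^ N

/-- At most a power of `b`. -/
def Mod (𝓤 : Ultrafilter ℕ) (u : ℕ → ℝ) : Prop :=
  ∃ κ : ℕ, ∀ᶠ b : ℕ in (𝓤 : Filter ℕ), |u b| ≤ (b : ℝ) ^ κ

variable {𝓤 : Ultrafilter ℕ}

theorem ev_ge (h𝓤 : (𝓤 : Filter ℕ) ≤ atTop) (b₀ : ℕ) : ∀ᶠ b : ℕ in (𝓤 : Filter ℕ), b₀ ≤ b :=
  h𝓤 (eventually_ge_atTop b₀)

theorem ev_gt (h𝓤 : (𝓤 : Filter ℕ) ≤ atTop) (c : ℝ) : ∀ᶠ b : ℕ in (𝓤 : Filter ℕ), c < (b : ℝ) :=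
  h𝓤 (tendsto_natCast_atTop_atTop.eventually_gt_atTop c)

theorem ev_small (h𝓤 : (𝓤 : Filter ℕ) ≤ atTop) {r : ℝ} (hr : 0 < r) :
    ∀ᶠ b : ℕ in (𝓤 : Filter ℕ), 0 < (1 / (b : ℝ)) ∧ 1 / (b : ℝ) ≤ r := by
  filter_upwards [ev_gt h𝓤 (1 / r), ev_gt h𝓤 0] with b hb hb0
  exact ⟨by positivity, by rw [div_le_comm₀ hb0 hr]; exact hb.le⟩

theorem Mod.uniform (h𝓤 : (𝓤 : Filter ℕ) ≤ atTop) {ι : Type*} [Fintype ι] {u : ι → ℕ → ℝ}
    (hu : ∀ i, Mod 𝓤 (u i)) : ∃ κ : ℕ, ∀ᶠ b : ℕ in (𝓤 : Filter ℕ), ∀ i, |u i b| ≤ (b : ℝ) ^ κ := by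
  choose κ hκ using hu
  refine ⟨Finset.univ.sup κ, ?_⟩
  rw [eventually_all]
  intro i
  filter_upwards [hκ i, ev_ge h𝓤 1] with b hb hb1
  refine hb.trans (pow_le_pow_right₀ (by exact_mod_cast hb1) (Finset.le_sup (Finset.mem_univ i)))

theorem skl (h𝓤 : (𝓤 : Filter ℕ) ≤ atTop) {ι : Type*} [Fintype ι] (t : ι → ℕ → ℤ)
    (ht : ∀ i, Mod 𝓤 (fun b => (t i b : ℝ))) (φ : ι → PowerSeries ℤ) (hφ : ∀ i, φ i ∈ convRing)
    (hne : ∃ i, φ i ≠ 0)
    (htiny : Tiny 𝓤 (fun b => ∑ i, (t i b : ℝ) * evr (φ i) (1 / (b : ℝ)))) :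
    ∃ A : ι → ℤ[X], (∃ i, A i ≠ 0) ∧
      ∀ᶠ b : ℕ in (𝓤 : Filter ℕ), ∑ i, (t i b : ℝ) * aeval (1 / (b : ℝ)) (A i) = 0 := by
  classical
  obtain ⟨κ, hκ⟩ := Mod.uniform h𝓤 ht
  -- the minimal order
  obtain ⟨i₁, hi₁⟩ := hne
  obtain ⟨i₀, -, hi₀⟩ := Finset.exists_min_image Finset.univ (fun i => (φ i).order)
    ⟨i₁, Finset.mem_univ i₁⟩
  have hmin : ∀ i, (φ i₀).order ≤ (φ i).order := fun i => hi₀ i (Finset.mem_univ i)
  have hi₀ne : φ i₀ ≠ 0 := by
    intro h0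
    have h1 := hmin i₁
    rw [h0, PowerSeries.order_zero, top_le_iff, PowerSeries.order_eq_top] at h1
    exact hi₁ h1
  obtain ⟨o, ho⟩ : ∃ o : ℕ, (φ i₀).order = o := by
    have : (φ i₀).order ≠ ⊤ := by
      rw [Ne, PowerSeries.order_eq_top]
      exact hi₀ne
    exact ⟨(φ i₀).order.toNat, (ENat.natCast_toNat this).symm⟩
  -- the auxiliary polynomial
  set n₀ := Fintype.card ι * (κ + 1) with hn₀
  have hcardι : 0 < Fintype.card ι := Fintype.card_pos_iff.mpr ⟨i₀⟩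
  let B : Matrix (ι × Fin (κ + 1)) (Fin (n₀ + 1)) ℤ :=
    fun ij c => PowerSeries.coeff (o + n₀ + 1 + ij.2.1) ((PowerSeries.X : PowerSeries ℤ) ^ c.1 * φ ij.1)
  have hcard : Fintype.card (ι × Fin (κ + 1)) < Fintype.card (Fin (n₀ + 1)) := by
    rw [Fintype.card_prod, Fintype.card_fin, Fintype.card_fin]
    omega
  have hcard0 : 0 < Fintype.card (ι × Fin (κ + 1)) := by
    rw [Fintype.card_prod, Fintype.card_fin]
    positivity
  obtain ⟨q, hq0, hqB, -⟩ := Int.Matrix.exists_ne_zero_int_vec_norm_le B hcard hcard0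
  set Q : ℤ[X] := ∑ c : Fin (n₀ + 1), Polynomial.C (q c) * X ^ c.1 with hQ
  have hQdeg : Q.natDegree ≤ n₀ := by
    refine natDegree_sum_le_of_forall_le _ _ fun c _ => ?_
    exact (natDegree_C_mul_X_pow_le _ _).trans (Nat.lt_succ_iff.mp c.2)
  have hQ0 : Q ≠ 0 := by
    obtain ⟨c, hc⟩ : ∃ c, q c ≠ 0 := by
      by_contra hcon
      push Not at hcon
      exact hq0 (funext hcon)
    intro h0
    apply hc
    have h1 := congrArg (fun p : ℤ[X] => p.coeff c.1) h0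
    simp only [hQ, finsetSum_coeff, coeff_C_mul, coeff_X_pow, coeff_zero] at h1
    rw [Finset.sum_eq_single c] at h1
    · simpa using h1
    · intro j _ hj
      have : c.1 ≠ j.1 := fun h => hj (Fin.ext h.symm)
      simp [this]
    · intro h
      exact absurd (Finset.mem_univ c) h
  have hQc : (Q : PowerSeries ℤ) = ∑ c : Fin (n₀ + 1), PowerSeries.C (q c) * PowerSeries.X ^ c.1 := by
    rw [hQ, ← Polynomial.coeToPowerSeries.ringHom_apply, map_sum]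
    refine Finset.sum_congr rfl fun i _ => ?_
    rw [map_mul, map_pow]
    simp
  set H : ι → PowerSeries ℤ := fun i => (Q : PowerSeries ℤ) * φ i with hH
  have hHc : ∀ i, H i ∈ convRing := fun i => mul_mem (coe_mem_convRing Q) (hφ i)
  have hHgap : ∀ i, ∀ j ≤ κ, PowerSeries.coeff (o + n₀ + 1 + j) (H i) = 0 := by
    intro i j hj
    have h1 : Matrix.mulVec B q (i, ⟨j, Nat.lt_succ_of_le hj⟩) = 0 := by rw [hqB]; rfl
    rw [Matrix.mulVec, dotProduct] at h1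
    rw [← h1, hH]
    simp only
    rw [hQc, Finset.sum_mul, map_sum]
    refine Finset.sum_congr rfl fun c _ => ?_
    rw [mul_assoc, PowerSeries.coeff_C_mul, mul_comm]
  have hHlow : ∀ i, ∀ n < o, PowerSeries.coeff n (H i) = 0 := by
    intro i n hn
    apply PowerSeries.coeff_of_lt_order
    rw [hH]
    simp only
    rw [PowerSeries.order_mul]
    calc ((n : ℕ) : ℕ∞) < (o : ℕ∞) := by exact_mod_cast hn
      _ = (φ i₀).order := ho.symm
      _ ≤ (φ i).order := hmin i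
      _ ≤ (Q : PowerSeries ℤ).order + (φ i).order := le_add_self
  set P : ι → ℤ[X] := fun i => ∑ k ∈ Finset.range (n₀ + 1),
    Polynomial.C (PowerSeries.coeff (o + k) (H i)) * X ^ k with hP
  have hPdeg : ∀ i, (P i).natDegree ≤ n₀ := by
    intro i
    refine natDegree_sum_le_of_forall_le _ _ fun k hk => ?_
    exact (natDegree_C_mul_X_pow_le _ _).trans (Nat.lt_succ_iff.mp (Finset.mem_range.mp hk))
  have hPc : ∀ i, ∀ k ≤ n₀, (P i).coeff k = PowerSeries.coeff (o + k) (H i) := by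
    intro i k hk
    rw [hP]
    simp only
    rw [finsetSum_coeff]
    simp only [coeff_C_mul, coeff_X_pow, mul_ite, mul_one, mul_zero]
    rw [Finset.sum_ite_eq, if_pos (Finset.mem_range.mpr (by omega))]
  -- `P i₀` is not zero
  have hPi₀ : P i₀ ≠ 0 := by
    have hQ0' : (Q : PowerSeries ℤ) ≠ 0 := by
      rw [Ne, ← Polynomial.coe_zero]
      exact fun h => hQ0 (Polynomial.coe_injective ℤ h)
    obtain ⟨p, hp⟩ : ∃ p : ℕ, (Q : PowerSeries ℤ).order = p := by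
      have : (Q : PowerSeries ℤ).order ≠ ⊤ := by
        rw [Ne, PowerSeries.order_eq_top]
        exact hQ0'
      exact ⟨(Q : PowerSeries ℤ).order.toNat, (ENat.natCast_toNat this).symm⟩
    have hpn : p ≤ n₀ := by
      have := order_le_of_ne_zero hQ0 hQdeg
      rw [hp] at this
      exact_mod_cast this
    have hH0 : H i₀ ≠ 0 := mul_ne_zero hQ0' hi₀ne
    have hHo : (H i₀).order = ((o + p : ℕ) : ℕ∞) := by
      rw [hH]
      simp only
      rw [PowerSeries.order_mul, hp, ho, add_comm]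
      push_cast
      rfl
    have h1 := PowerSeries.coeff_order hH0
    rw [hHo] at h1
    have h2 : PowerSeries.coeff (o + p) (H i₀) ≠ 0 := h1
    intro h0
    apply h2
    rw [← hPc i₀ p hpn, h0, coeff_zero]
  refine ⟨P, ⟨i₀, hPi₀⟩, ?_⟩
  -- estimates
  set M := o + n₀ + κ + 2 with hM
  have hsumM : ∀ i, ∀ x : ℝ, ∑ n ∈ Finset.range M, ((PowerSeries.coeff n (H i) : ℤ) : ℝ) * x ^ n =
      x ^ o * aeval x (P i) := by
    intro i x
    have h1 : M = o + ((n₀ + 1) + (κ + 1)) := by omega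
    rw [h1, Finset.sum_range_add, Finset.sum_range_add (fun k => ((PowerSeries.coeff (o + k) (H i) : ℤ) : ℝ) * x ^ (o + k))]
    have h2 : ∑ n ∈ Finset.range o, ((PowerSeries.coeff n (H i) : ℤ) : ℝ) * x ^ n = 0 := by
      refine Finset.sum_eq_zero fun n hn => ?_
      rw [hHlow i n (Finset.mem_range.mp hn)]
      simp
    have h3 : ∑ k ∈ Finset.range (κ + 1), ((PowerSeries.coeff (o + (n₀ + 1 + k)) (H i) : ℤ) : ℝ) *
        x ^ (o + (n₀ + 1 + k)) = 0 := by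
      refine Finset.sum_eq_zero fun k hk => ?_
      have h4 := hHgap i k (Nat.lt_succ_iff.mp (Finset.mem_range.mp hk))
      rw [show o + (n₀ + 1 + k) = o + n₀ + 1 + k by omega, h4]
      simp
    rw [h2, h3, zero_add, add_zero, aeval_eq_sum_range' (Nat.lt_succ_of_le (hPdeg i)), Finset.mul_sum]
    refine Finset.sum_congr rfl fun k hk => ?_
    rw [hPc i k (Nat.lt_succ_iff.mp (Finset.mem_range.mp hk)), zsmul_eq_mul, pow_add]
    ring
  have htail : ∀ i, ∃ r K : ℝ, 0 < r ∧ 0 ≤ K ∧ ASr (φ i) r ∧ ∀ x : ℝ, 0 ≤ x → x ≤ r →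
      |evr (H i) x - x ^ o * aeval x (P i)| ≤ K * x ^ M := by
    intro i
    obtain ⟨r, hr, hfr⟩ := hφ i
    obtain ⟨K, hK0, hK⟩ := exists_tail hr ((ASr_coe Q r).mul hfr) M
    refine ⟨r, K, hr, hK0, hfr, fun x hx0 hxr => ?_⟩
    rw [← hsumM i x]
    exact hK x hx0 hxr
  choose r K hr hK0 hfr hK using htail
  set Kt : ℝ := ∑ i, K i with hKt
  have hKt0 : 0 ≤ Kt := Finset.sum_nonneg fun i _ => hK0 i
  have hr' : ∀ᶠ b : ℕ in (𝓤 : Filter ℕ), ∀ i, 0 < (1 / (b : ℝ)) ∧ 1 / (b : ℝ) ≤ r i := by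
    rw [eventually_all]
    exact fun i => ev_small h𝓤 (hr i)
  filter_upwards [hκ, hr', ev_gt h𝓤 (len Q + Kt), ev_ge h𝓤 1, htiny (o + n₀ + 1)]
    with b hbκ hbr hbC hb1 hbt
  have hb0 : b ≠ 0 := by omega
  have hbpos : (0 : ℝ) < b := by exact_mod_cast Nat.pos_of_ne_zero hb0
  have hb1R : (1 : ℝ) ≤ b := by exact_mod_cast hb1
  set x : ℝ := 1 / (b : ℝ) with hx
  have hx0 : 0 < x := by positivity
  have hx1 : x ≤ 1 := by rw [hx, div_le_one hbpos]; exact hb1R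
  have hbx : (b : ℝ) * x = 1 := mul_one_div_cancel hbpos.ne'
  set S : ℝ := ∑ i, (t i b : ℝ) * evr (φ i) x with hS
  set Z : ℤ := ∑ i, t i b * homog (P i) n₀ b with hZ
  have hZR : (Z : ℝ) = (b : ℝ) ^ n₀ * ∑ i, (t i b : ℝ) * aeval x (P i) := by
    rw [hZ]
    push_cast
    rw [Finset.mul_sum]
    refine Finset.sum_congr rfl fun i _ => ?_
    rw [homog_eq (hPdeg i) hb0]
    ring
  have hevH : ∀ i, evr (H i) x = aeval x Q * evr (φ i) x := by
    intro i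
    have h1 : ASr (φ i) x := (hfr i).mono hx0.le (hbr i).2
    rw [hH]
    simp only
    rw [evr_mul (ASr_coe Q x) h1, evr_coe]
  have hmain : x ^ o * ∑ i, (t i b : ℝ) * aeval x (P i) =
      aeval x Q * S - ∑ i, (t i b : ℝ) * (evr (H i) x - x ^ o * aeval x (P i)) := by
    rw [hS, Finset.mul_sum, Finset.mul_sum, ← Finset.sum_sub_distrib]
    refine Finset.sum_congr rfl fun i _ => ?_
    rw [hevH i]
    ring
  have hb1' : |aeval x Q * S| ≤ len Q * x ^ (o + n₀ + 1) := by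
    rw [abs_mul]
    exact mul_le_mul (abs_aeval_le Q (by rw [abs_of_pos hx0]; exact hx1)) hbt (abs_nonneg _)
      (len_nonneg Q)
  have hb2' : |∑ i, (t i b : ℝ) * (evr (H i) x - x ^ o * aeval x (P i))| ≤ Kt * x ^ (o + n₀ + 2) := by
    refine (Finset.abs_sum_le_sum_abs _ _).trans ?_
    rw [hKt, Finset.sum_mul]
    refine Finset.sum_le_sum fun i _ => ?_
    rw [abs_mul]
    have h1 : |(t i b : ℝ)| * |evr (H i) x - x ^ o * aeval x (P i)| ≤
        (b : ℝ) ^ κ * (K i * x ^ M) :=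
      mul_le_mul (hbκ i) (hK i x hx0.le (hbr i).2) (abs_nonneg _) (by positivity)
    refine h1.trans (le_of_eq ?_)
    have h2 : x ^ M = x ^ (o + n₀ + 2) * x ^ κ := by
      rw [← pow_add, hM]
      congr 1
      omega
    have h3 : (b : ℝ) ^ κ * x ^ κ = 1 := by rw [← mul_pow, hbx, one_pow]
    rw [h2]
    calc (b : ℝ) ^ κ * (K i * (x ^ (o + n₀ + 2) * x ^ κ)) =
        ((b : ℝ) ^ κ * x ^ κ) * (K i * x ^ (o + n₀ + 2)) := by ring
      _ = K i * x ^ (o + n₀ + 2) := by rw [h3, one_mul]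
  have hZabs : |(Z : ℝ)| < 1 := by
    have h1 : x ^ (o + n₀) * |(Z : ℝ)| = |x ^ o * ∑ i, (t i b : ℝ) * aeval x (P i)| := by
      rw [hZR, abs_mul, abs_mul, abs_of_pos (pow_pos hbpos n₀), abs_of_pos (pow_pos hx0 o), pow_add]
      have h2 : x ^ n₀ * (b : ℝ) ^ n₀ = 1 := by rw [← mul_pow, mul_comm x, hbx, one_pow]
      calc x ^ o * x ^ n₀ * ((b : ℝ) ^ n₀ * |∑ i, (t i b : ℝ) * aeval x (P i)|) =
          x ^ o * (x ^ n₀ * (b : ℝ) ^ n₀) * |∑ i, (t i b : ℝ) * aeval x (P i)| := by ring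
        _ = x ^ o * |∑ i, (t i b : ℝ) * aeval x (P i)| := by rw [h2, mul_one]
    have h2 : x ^ (o + n₀) * |(Z : ℝ)| ≤ x ^ (o + n₀) * ((len Q + Kt) * x) := by
      rw [h1, hmain]
      refine (abs_sub _ _).trans ((add_le_add hb1' hb2').trans ?_)
      have h3 : x ^ (o + n₀ + 2) ≤ x ^ (o + n₀ + 1) :=
        pow_le_pow_of_le_one hx0.le hx1 (by omega)
      have h4 : x ^ (o + n₀ + 1) = x ^ (o + n₀) * x := pow_succ _ _
      rw [h4] at h3 ⊢
      nlinarith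
    have h3 := le_of_mul_le_mul_left h2 (pow_pos hx0 _)
    refine h3.trans_lt ?_
    rw [hx, mul_one_div, div_lt_one hbpos]
    exact hbC
  have hZ0 : Z = 0 := by
    have h1 : |Z| < 1 := by exact_mod_cast hZabs
    exact Int.abs_lt_one_iff.mp h1
  rw [hZ0, Int.cast_zero] at hZR
  exact (mul_eq_zero.mp hZR.symm).resolve_left (pow_ne_zero _ hbpos.ne')

end Pool.Agent.Helper2.Digits
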