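import Mathlib

/-!
A Liouville type inequality, and extraction of an irreducible factor with controlled Mahler measure.
-/

set_option autoImplicit false

open Polynomial

namespace Pool.Agent.Helper2.Digits

/-- Mahler measure of an integer polynomial. -/
noncomputable def mah (F : ℤ[X]) : ℝ := (F.map (Int.castRingHom ℂ)).mahlerMeasure

theorem mah_nonneg (F : ℤ[X]) : 0 ≤ mah F := mahlerMeasure_nonneg _

theorem one_le_mah {F : ℤ[X]} (hF : F ≠ 0) : 1 ≤ mah F := by
  apply one_le_mahlerMeasure_of_one_le_norm_leadingCoeff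
  rw [leadingCoeff_map_of_injective Int.cast_injective]
  have h1 : F.leadingCoeff ≠ 0 := leadingCoeff_ne_zero.mpr hF
  have h2 : (1 : ℤ) ≤ |F.leadingCoeff| := Int.one_le_abs h1
  simp only [eq_intCast, Complex.norm_intCast]
  exact_mod_cast h2

theorem mah_mul (F G : ℤ[X]) : mah (F * G) = mah F * mah G := by
  unfold mah
  rw [Polynomial.map_mul, mahlerMeasure_mul]

theorem mah_le_of_dvd {F P : ℤ[X]} (h : F ∣ P) (hP : P ≠ 0) : mah F ≤ mah P := by
  obtain ⟨G, rfl⟩ := h
  have hG : G ≠ 0 := right_ne_zero_of_mul hP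
  rw [mah_mul]
  exact le_mul_of_one_le_right (mah_nonneg F) (one_le_mah hG)

theorem mah_le_of_coeff_le {P : ℤ[X]} {D : ℕ} (hD : P.natDegree ≤ D) {H : ℝ}
    (hH : ∀ i, |(P.coeff i : ℝ)| ≤ H) : mah P ≤ (D + 1) * H := by
  have hH0 : 0 ≤ H := (abs_nonneg _).trans (hH 0)
  refine (mahlerMeasure_le_sum_norm_coeff _).trans ?_
  rw [Polynomial.sum_def]
  have h1 : ∀ i ∈ (P.map (Int.castRingHom ℂ)).support,
      ‖(P.map (Int.castRingHom ℂ)).coeff i‖ ≤ H := by
    intro i _
    rw [coeff_map, eq_intCast, Complex.norm_intCast]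
    exact hH i
  refine (Finset.sum_le_sum h1).trans ?_
  rw [Finset.sum_const, nsmul_eq_mul]
  refine mul_le_mul_of_nonneg_right ?_ hH0
  have h2 : (P.map (Int.castRingHom ℂ)).support ⊆ Finset.range (D + 1) := by
    intro i hi
    rw [Finset.mem_range]
    have h3 := le_natDegree_of_mem_supp i hi
    have h4 : (P.map (Int.castRingHom ℂ)).natDegree ≤ P.natDegree := natDegree_map_le
    omega
  have h5 := Finset.card_le_card h2
  rw [Finset.card_range] at h5
  exact_mod_cast h5

/-- A real root of a nonzero integer polynomial is a root of an irreducible factor. -/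
theorem exists_irreducible_factor {P : ℤ[X]} (hP : P ≠ 0) {η : ℝ} (hη : aeval η P = 0) :
    ∃ F : ℤ[X], Irreducible F ∧ F ∣ P ∧ aeval η F = 0 := by
  induction P using WfDvdMonoid.induction_on_irreducible with
  | zero => exact absurd rfl hP
  | unit u hu =>
    exfalso
    have h1 : IsUnit (aeval η u) := hu.map (aeval η)
    rw [hη] at h1
    exact not_isUnit_zero h1
  | mul a i ha hi ih =>
    rw [map_mul, mul_eq_zero] at hη
    rcases hη with h | h
    · exact ⟨i, hi, Dvd.intro a rfl, h⟩
    · obtain ⟨F, hF, hFa, hFη⟩ := ih ha h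
      exact ⟨F, hF, hFa.mul_left i, hFη⟩

theorem natDegree_pos_of_irreducible {F : ℤ[X]} (hF : Irreducible F) {η : ℝ}
    (hη : aeval η F = 0) : 0 < F.natDegree := by
  rw [Nat.pos_iff_ne_zero]
  intro h0
  rw [eq_C_of_natDegree_eq_zero h0, aeval_C] at hη
  have h1 : F.coeff 0 = 0 := by
    have : ((F.coeff 0 : ℤ) : ℝ) = 0 := hη
    exact_mod_cast this
  rw [eq_C_of_natDegree_eq_zero h0, h1, C_0] at hF
  exact hF.ne_zero rfl

/-- If `F` is irreducible and shares a complex root with `U`, then every real root of `F` is a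
root of `U`. -/
theorem aeval_eq_zero_of_common_root {F U : ℤ[X]} (hF : Irreducible F) {η : ℝ}
    (hη : aeval η F = 0) {z : ℂ} (hz : aeval z F = 0) (hzU : aeval z U = 0) :
    aeval η U = 0 := by
  have hd := natDegree_pos_of_irreducible hF hη
  have hprim : F.IsPrimitive := hF.isPrimitive hd.ne'
  have hFQ : Irreducible (F.map (Int.castRingHom ℚ)) :=
    (IsPrimitive.Int.irreducible_iff_irreducible_map_cast hprim).mp hF
  have hz' : aeval z (F.map (Int.castRingHom ℚ)) = 0 := by
    have := aeval_map_algebraMap ℚ z F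
    rw [← this] at hz
    exact hz
  have hzU' : aeval z (U.map (Int.castRingHom ℚ)) = 0 := by
    have := aeval_map_algebraMap ℚ z U
    rw [← this] at hzU
    exact hzU
  have hmin : minpoly ℚ z ∣ F.map (Int.castRingHom ℚ) := minpoly.dvd ℚ z hz'
  have hint : IsIntegral ℚ z := ⟨_, monic_normalize hFQ.ne_zero, by
    have h1 : aeval z (normalize (F.map (Int.castRingHom ℚ))) = 0 := by
      obtain ⟨c, hc⟩ := (normalize_associated (F.map (Int.castRingHom ℚ))).symm
      rw [← hc, map_mul, hz', zero_mul]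
    exact h1⟩
  have hassoc : Associated (minpoly ℚ z) (F.map (Int.castRingHom ℚ)) :=
    (minpoly.irreducible hint).associated_of_dvd hFQ hmin
  have hdvd : F.map (Int.castRingHom ℚ) ∣ U.map (Int.castRingHom ℚ) :=
    hassoc.symm.dvd.trans (minpoly.dvd ℚ z hzU')
  obtain ⟨G, hG⟩ := hdvd
  have h2 : aeval η (U.map (Int.castRingHom ℚ)) = 0 := by
    have h3 : aeval η (F.map (Int.castRingHom ℚ)) = 0 := by
      rw [← hη]
      exact aeval_map_algebraMap ℚ η F
    rw [hG, map_mul, h3, zero_mul]
  rw [← h2]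
  exact (aeval_map_algebraMap ℚ η U).symm

/-- Liouville's inequality. -/
theorem liouville {F U : ℤ[X]} {η : ℝ} (hF : Irreducible F) (hFη : aeval η F = 0)
    {m : ℕ} (hU : U.natDegree ≤ m) (hUη : aeval η U ≠ 0) {H : ℝ}
    (hH : ∀ i, |(U.coeff i : ℝ)| ≤ H) :
    1 ≤ |aeval η U| * (((m + 1) * H) ^ (F.natDegree - 1) * mah F ^ m) := by
  have hH0 : 0 ≤ H := (abs_nonneg _).trans (hH 0)
  have hF0 : F ≠ 0 := hF.ne_zero
  set f : ℂ[X] := F.map (Int.castRingHom ℂ) with hf
  set g : ℂ[X] := U.map (Int.castRingHom ℂ) with hg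
  have hf0 : f ≠ 0 := (Polynomial.map_ne_zero_iff Int.cast_injective).mpr hF0
  have hfd : f.natDegree = F.natDegree := natDegree_map_eq_of_injective Int.cast_injective F
  have hgd : g.natDegree ≤ m := natDegree_map_le.trans hU
  have hres := resultant_eq_prod_eval f g m hgd (IsAlgClosed.splits f)
  rw [hfd, hf, hg, resultant_map_map, ← hf, ← hg] at hres
  -- the real root is a complex root
  have hroot : (η : ℂ) ∈ f.roots := by
    rw [mem_roots hf0, IsRoot.def, hf, eval_map, ← algebraMap_int_eq, ← aeval_def]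
    have h1 : aeval (algebraMap ℝ ℂ η) F = algebraMap ℝ ℂ (aeval η F) := aeval_algebraMap_apply ℂ η F
    rw [hFη, map_zero] at h1
    exact h1
  have hgη : g.eval (η : ℂ) = ((aeval η U : ℝ) : ℂ) := by
    rw [hg, eval_map, ← algebraMap_int_eq, ← aeval_def]
    exact aeval_algebraMap_apply ℂ η U
  -- the resultant is a nonzero integer
  have hresne : resultant F U F.natDegree m ≠ 0 := by
    intro h0
    rw [h0, map_zero] at hres
    rcases mul_eq_zero.mp hres.symm with h1 | h1
    · exact (pow_ne_zero m (leadingCoeff_ne_zero.mpr hf0)) h1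
    · rw [Multiset.prod_eq_zero_iff, Multiset.mem_map] at h1
      obtain ⟨z, hz, hzg⟩ := h1
      have hz' : aeval z F = 0 := by
        have := (mem_roots hf0).mp hz
        rw [IsRoot.def, hf, eval_map, ← algebraMap_int_eq, ← aeval_def] at this
        exact this
      have hzU : aeval z U = 0 := by
        rw [hg, eval_map, ← algebraMap_int_eq, ← aeval_def] at hzg
        exact hzg
      exact hUη (aeval_eq_zero_of_common_root hF hFη hz' hzU)
  have hone : (1 : ℝ) ≤ ‖(Int.castRingHom ℂ) (resultant F U F.natDegree m)‖ := by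
    rw [eq_intCast, Complex.norm_intCast]
    exact_mod_cast Int.one_le_abs hresne
  refine hone.trans ?_
  rw [hres, norm_mul, norm_pow, ← Multiset.cons_erase hroot, Multiset.map_cons, Multiset.prod_cons,
    norm_mul, hgη, Complex.norm_real, Real.norm_eq_abs]
  -- bound for the remaining roots
  have hbd : ∀ z : ℂ, ‖g.eval z‖ ≤ ((m + 1) * H) * (max 1 ‖z‖) ^ m := by
    intro z
    rw [eval_eq_sum_range' (Nat.lt_succ_of_le hgd)]
    refine (norm_sum_le _ _).trans ?_
    have h1 : ∀ i ∈ Finset.range (m + 1), ‖g.coeff i * z ^ i‖ ≤ H * (max 1 ‖z‖) ^ m := by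
      intro i hi
      rw [norm_mul, norm_pow]
      have h2 : ‖g.coeff i‖ ≤ H := by
        rw [hg, coeff_map, eq_intCast, Complex.norm_intCast]
        exact hH i
      have h3 : ‖z‖ ^ i ≤ (max 1 ‖z‖) ^ m := by
        refine (pow_le_pow_left₀ (norm_nonneg z) (le_max_right 1 ‖z‖) i).trans ?_
        exact pow_le_pow_right₀ (le_max_left 1 ‖z‖) (Nat.lt_succ_iff.mp (Finset.mem_range.mp hi))
      exact mul_le_mul h2 h3 (by positivity) hH0
    refine (Finset.sum_le_sum h1).trans ?_
    rw [Finset.sum_const, Finset.card_range, nsmul_eq_mul]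
    push_cast
    rw [mul_assoc]
  have hprod : ∀ s : Multiset ℂ, ‖(s.map g.eval).prod‖ ≤
      ((m + 1) * H) ^ (Multiset.card s) * ((s.map (fun a => max 1 ‖a‖)).prod) ^ m := by
    intro s
    induction s using Multiset.induction_on with
    | empty => simp
    | cons a s ih =>
      rw [Multiset.map_cons, Multiset.prod_cons, norm_mul, Multiset.card_cons, Multiset.map_cons,
        Multiset.prod_cons]
      refine (mul_le_mul (hbd a) ih (norm_nonneg _) (by positivity)).trans (le_of_eq ?_)
      rw [pow_succ, mul_pow]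
      ring
  have hcard : Multiset.card (f.roots.erase (η : ℂ)) = F.natDegree - 1 := by
    rw [Multiset.card_erase_of_mem hroot, ← hfd, ← (IsAlgClosed.splits f).natDegree_eq_card_roots]
    rfl
  have hm : mah F = ‖f.leadingCoeff‖ * (max 1 ‖(η : ℂ)‖ *
      ((f.roots.erase (η : ℂ)).map (fun a => max 1 ‖a‖)).prod) := by
    unfold mah
    rw [mahlerMeasure_eq_leadingCoeff_mul_prod_roots]
    congr 1
    conv_lhs => rw [← Multiset.cons_erase hroot, Multiset.map_cons, Multiset.prod_cons]
  have h6 := hprod (f.roots.erase (η : ℂ))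
  rw [hcard] at h6
  have hpos : 0 ≤ ((f.roots.erase (η : ℂ)).map (fun a => max 1 ‖a‖)).prod := by
    apply Multiset.prod_nonneg
    intro a ha
    obtain ⟨b, _, rfl⟩ := Multiset.mem_map.mp ha
    positivity
  calc ‖f.leadingCoeff‖ ^ m * (|aeval η U| * ‖((f.roots.erase (η : ℂ)).map g.eval).prod‖)
      ≤ ‖f.leadingCoeff‖ ^ m * (|aeval η U| * (((m + 1) * H) ^ (F.natDegree - 1) *
        (((f.roots.erase (η : ℂ)).map (fun a => max 1 ‖a‖)).prod) ^ m)) := by gcongr
    _ = |aeval η U| * (((m + 1) * H) ^ (F.natDegree - 1) * (‖f.leadingCoeff‖ *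
        (1 * ((f.roots.erase (η : ℂ)).map (fun a => max 1 ‖a‖)).prod)) ^ m) := by
        rw [mul_pow, one_mul]; ring
    _ ≤ |aeval η U| * (((m + 1) * H) ^ (F.natDegree - 1) * mah F ^ m) := by
        rw [hm]
        gcongr
        exact le_max_left 1 _

end Pool.Agent.Helper2.Digits
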