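import Pool.Agent.Helper2.Digits.Bound
import Pool.Agent.Helper2.Digits.Liouville

/-!
The vanishing lemma: combination of the upper bound and Liouville's inequality.
-/

set_option autoImplicit false

open Polynomial

namespace Pool.Agent.Helper2.Digits

/-- The integer `b ^ q * A (1 / b)`. -/
def homog (A : ℤ[X]) (q b : ℕ) : ℤ := ∑ i ∈ Finset.range (q + 1), A.coeff i * (b : ℤ) ^ (q - i)

theorem homog_eq {A : ℤ[X]} {q b : ℕ} (hA : A.natDegree ≤ q) (hb : b ≠ 0) :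
    (homog A q b : ℝ) = (b : ℝ) ^ q * aeval (1 / (b : ℝ)) A := by
  rw [aeval_eq_sum_range' (Nat.lt_succ_of_le hA), homog, Int.cast_sum, Finset.mul_sum]
  refine Finset.sum_congr rfl fun i hi => ?_
  have hi' : i ≤ q := Nat.lt_succ_iff.mp (Finset.mem_range.mp hi)
  have hb' : (b : ℝ) ≠ 0 := by exact_mod_cast hb
  have h1 : (b : ℝ) ^ q = (b : ℝ) ^ (q - i) * (b : ℝ) ^ i := by
    rw [← pow_add, Nat.sub_add_cancel hi']
  rw [h1, zsmul_eq_mul]
  push_cast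
  rw [div_pow, one_pow]
  field_simp

theorem abs_homog_le {A : ℤ[X]} {q b : ℕ} (hA : A.natDegree ≤ q) (hb : b ≠ 0) :
    |(homog A q b : ℝ)| ≤ (b : ℝ) ^ q * len A := by
  rw [homog_eq hA hb, abs_mul, abs_of_nonneg (by positivity : (0 : ℝ) ≤ (b : ℝ) ^ q)]
  refine mul_le_mul_of_nonneg_left (abs_aeval_le A ?_) (by positivity)
  rw [abs_of_nonneg (by positivity)]
  have : (1 : ℝ) ≤ b := by exact_mod_cast Nat.one_le_iff_ne_zero.mpr hb
  rw [div_le_one (by linarith)]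
  exact this

theorem vanish (m : ℕ) (A : ℕ → ℤ[X]) (q : ℕ) (hA : ∀ k, (A k).natDegree ≤ q)
    (z : PowerSeries ℤ) (M : ℕ) (hdvd : PowerSeries.X ^ M ∣ form m A z) (s d κ : ℕ) (C₁ : ℝ)
    (hM : q * d + κ * m + 1 ≤ M) (hd : 0 < d) :
    ∃ b₀ : ℕ, ∀ b : ℕ, b₀ ≤ b → ∀ (e : ℕ → ℤ) (η : ℝ),
      (∀ n, 0 ≤ e n ∧ e n ≤ s) → (∀ n < M, e n = PowerSeries.coeff n z) →
      HasSum (fun n => (e n : ℝ) * (1 / (b : ℝ)) ^ n) η →
      ∀ F : ℤ[X], Irreducible F → F.natDegree = d → aeval η F = 0 →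
        mah F ≤ C₁ * (b : ℝ) ^ κ →
        ∑ k ∈ Finset.range (m + 1), aeval (1 / (b : ℝ)) (A k) * η ^ k = 0 := by
  obtain ⟨C, hC, hbound⟩ := key_bound m A z M hdvd s
  set Λ : ℝ := ∑ k ∈ Finset.range (m + 1), len (A k) with hΛ
  have hΛ0 : 0 ≤ Λ := Finset.sum_nonneg fun k _ => len_nonneg _
  set C' : ℝ := C * (((m + 1) * Λ) ^ (d - 1) * C₁ ^ m) with hC'
  refine ⟨max 2 (⌈C'⌉₊ + 1), fun b hb e η he hez hη F hF hFd hFη hmah => ?_⟩
  have hb2 : 2 ≤ b := (le_max_left _ _).trans hb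
  have hbC : C' < b := by
    have h1 : ⌈C'⌉₊ + 1 ≤ b := (le_max_right _ _).trans hb
    have h2 : C' ≤ ⌈C'⌉₊ := Nat.le_ceil C'
    have h3 : ((⌈C'⌉₊ : ℕ) : ℝ) + 1 ≤ b := by exact_mod_cast h1
    linarith
  have hb0 : b ≠ 0 := by omega
  have hbpos : (0 : ℝ) < b := by exact_mod_cast Nat.pos_of_ne_zero hb0
  set x : ℝ := 1 / (b : ℝ) with hx
  have hx0 : 0 ≤ x := by positivity
  have hx2 : x ≤ 1 / 2 := by
    rw [hx]
    apply one_div_le_one_div_of_le (by norm_num)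
    exact_mod_cast hb2
  set S : ℝ := ∑ k ∈ Finset.range (m + 1), aeval x (A k) * η ^ k with hS
  have hSb : |S| ≤ C * x ^ M := hbound x hx0 hx2 e η he hez hη
  by_contra hS0
  set U : ℤ[X] := ∑ k ∈ Finset.range (m + 1), Polynomial.C (homog (A k) q b) * X ^ k with hU
  have hUd : U.natDegree ≤ m := by
    refine natDegree_sum_le_of_forall_le _ _ fun k hk => ?_
    exact (natDegree_C_mul_X_pow_le _ _).trans (Nat.lt_succ_iff.mp (Finset.mem_range.mp hk))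
  have hUc : ∀ i, U.coeff i = if i < m + 1 then homog (A i) q b else 0 := by
    intro i
    rw [hU, finsetSum_coeff]
    simp only [coeff_C_mul, coeff_X_pow, mul_ite, mul_one, mul_zero]
    rw [Finset.sum_ite_eq]
    simp only [Finset.mem_range]
  have hUH : ∀ i, |(U.coeff i : ℝ)| ≤ Λ * (b : ℝ) ^ q := by
    intro i
    rw [hUc]
    split_ifs with hi
    · refine (abs_homog_le (hA i) hb0).trans ?_
      rw [mul_comm]
      refine mul_le_mul_of_nonneg_right ?_ (by positivity)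
      exact Finset.single_le_sum (f := fun k => len (A k)) (fun k _ => len_nonneg _)
        (Finset.mem_range.mpr hi)
    · simp only [Int.cast_zero, abs_zero]
      positivity
  have hUη : aeval η U = (b : ℝ) ^ q * S := by
    rw [hU, map_sum, hS, Finset.mul_sum]
    refine Finset.sum_congr rfl fun k _ => ?_
    rw [map_mul, map_pow, aeval_X, aeval_C]
    show ((homog (A k) q b : ℤ) : ℝ) * η ^ k = _
    rw [homog_eq (hA k) hb0]
    ring
  have hUne : aeval η U ≠ 0 := by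
    rw [hUη]
    exact mul_ne_zero (by positivity) hS0
  have hL := liouville hF hFη hUd hUne hUH
  rw [hFd, hUη] at hL
  have hmah0 := mah_nonneg F
  have hC₁ : 0 ≤ C₁ := by
    have h1 : 0 ≤ C₁ * (b : ℝ) ^ κ := hmah0.trans hmah
    have h2 : 0 < (b : ℝ) ^ κ := by positivity
    exact nonneg_of_mul_nonneg_left h1 h2
  have h5 : |(b : ℝ) ^ q * S| ≤ (b : ℝ) ^ q * (C * x ^ M) := by
    rw [abs_mul, abs_of_nonneg (by positivity : (0 : ℝ) ≤ (b : ℝ) ^ q)]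
    exact mul_le_mul_of_nonneg_left hSb (by positivity)
  have h6 : ((m + 1) * (Λ * (b : ℝ) ^ q)) ^ (d - 1) * mah F ^ m ≤
      (((m + 1) * Λ) ^ (d - 1) * C₁ ^ m) * (b : ℝ) ^ (q * (d - 1) + κ * m) := by
    have h7 : mah F ^ m ≤ (C₁ * (b : ℝ) ^ κ) ^ m := pow_le_pow_left₀ hmah0 hmah m
    calc ((m + 1) * (Λ * (b : ℝ) ^ q)) ^ (d - 1) * mah F ^ m
        ≤ ((m + 1) * (Λ * (b : ℝ) ^ q)) ^ (d - 1) * (C₁ * (b : ℝ) ^ κ) ^ m := by gcongr
      _ = (((m + 1) * Λ) ^ (d - 1) * C₁ ^ m) * (b : ℝ) ^ (q * (d - 1) + κ * m) := by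
        rw [← mul_assoc, mul_pow, mul_pow C₁, ← pow_mul, ← pow_mul, pow_add]
        ring
  have h8 : (1 : ℝ) ≤ (b : ℝ) ^ q * (C * x ^ M) *
      ((((m + 1) * Λ) ^ (d - 1) * C₁ ^ m) * (b : ℝ) ^ (q * (d - 1) + κ * m)) := by
    refine hL.trans ?_
    exact mul_le_mul h5 h6 (by positivity) (by positivity)
  have hdq : q + (q * (d - 1) + κ * m) = q * d + κ * m := by
    obtain ⟨d', rfl⟩ := Nat.exists_eq_succ_of_ne_zero hd.ne'
    simp only [Nat.succ_eq_add_one, Nat.add_sub_cancel]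
    ring
  have h9 : (b : ℝ) ^ q * (C * x ^ M) *
      ((((m + 1) * Λ) ^ (d - 1) * C₁ ^ m) * (b : ℝ) ^ (q * (d - 1) + κ * m)) =
      C' * ((b : ℝ) ^ (q * d + κ * m) * x ^ M) := by
    rw [hC', ← hdq, pow_add]
    ring
  rw [h9] at h8
  have hC'0 : 0 ≤ C' := by
    rw [hC']
    positivity
  have h10 : (b : ℝ) ^ (q * d + κ * m) * x ^ M ≤ x := by
    obtain ⟨j, hj⟩ := Nat.exists_eq_add_of_le hM
    have h11 : x ^ M = x ^ (q * d + κ * m) * x * x ^ j := by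
      rw [hj, pow_add, pow_succ]
    have h12 : (b : ℝ) ^ (q * d + κ * m) * x ^ (q * d + κ * m) = 1 := by
      rw [← mul_pow, hx, mul_one_div_cancel hbpos.ne', one_pow]
    rw [h11, ← mul_assoc, ← mul_assoc, h12, one_mul]
    exact mul_le_of_le_one_right hx0 (pow_le_one₀ hx0 (by linarith))
  have h13 : (1 : ℝ) ≤ C' * x := h8.trans (mul_le_mul_of_nonneg_left h10 hC'0)
  have h14 : C' * x < 1 := by
    rw [hx, mul_one_div, div_lt_one hbpos]
    exact hbC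
  linarith

end Pool.Agent.Helper2.Digits
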