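import Pool.Agent.Helper2.Digits.Fatou
import Pool.Agent.Helper2.Digits.Vanish

/-!
Numbers with bounded digits in a large base are not algebraic of bounded degree and
polynomially bounded height, unless they are rational.
-/

set_option autoImplicit false

open Polynomial Filter Topology

namespace Pool.Agent.Helper2.Digits

theorem ultra_const (𝓤 : Ultrafilter ℕ) {β : Type*} (f : ℕ → β) {S : Set β} (hS : S.Finite)
    (h : ∀ᶠ b : ℕ in (𝓤 : Filter ℕ), f b ∈ S) : ∃ c ∈ S, ∀ᶠ b : ℕ in (𝓤 : Filter ℕ), f b = c := by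
  have h1 : (⋃ c ∈ S, {b | f b = c}) ∈ 𝓤 := by
    refine mem_of_superset h fun b hb => ?_
    rw [Set.mem_iUnion₂]
    exact ⟨f b, hb, rfl⟩
  exact (Ultrafilter.finite_biUnion_mem_iff hS).mp h1

theorem map_dvd_of_aeval {F : ℤ[X]} (hF : Irreducible F) {η : ℝ} (hη : aeval η F = 0) {U : ℚ[X]}
    (hU : aeval η U = 0) : F.map (Int.castRingHom ℚ) ∣ U := by
  have hd := natDegree_pos_of_irreducible hF hη
  have hprim : F.IsPrimitive := hF.isPrimitive hd.ne'
  have hFQ : Irreducible (F.map (Int.castRingHom ℚ)) :=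
    (IsPrimitive.Int.irreducible_iff_irreducible_map_cast hprim).mp hF
  have hz' : aeval η (F.map (Int.castRingHom ℚ)) = 0 := by
    rw [← hη]
    exact aeval_map_algebraMap ℚ η F
  have hmin : minpoly ℚ η ∣ F.map (Int.castRingHom ℚ) := minpoly.dvd ℚ η hz'
  have hint : IsIntegral ℚ η := ⟨_, monic_normalize hFQ.ne_zero, by
    have h1 : aeval η (normalize (F.map (Int.castRingHom ℚ))) = 0 := by
      obtain ⟨c, hc⟩ := (normalize_associated (F.map (Int.castRingHom ℚ))).symm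
      rw [← hc, map_mul, hz', zero_mul]
    exact h1⟩
  have hassoc : Associated (minpoly ℚ η) (F.map (Int.castRingHom ℚ)) :=
    (minpoly.irreducible hint).associated_of_dvd hFQ hmin
  exact hassoc.symm.dvd.trans (minpoly.dvd ℚ η hU)

/-- Two forms vanishing at the same algebraic number of degree `d` are proportional. -/
theorem cross_relation {F : ℤ[X]} (hF : Irreducible F) {η : ℝ} (hη : aeval η F = 0) {d : ℕ}
    (hd : F.natDegree = d) (x : ℚ) {A A' : ℕ → ℤ[X]}
    (h : ∑ k ∈ Finset.range (d + 1), aeval (x : ℝ) (A k) * η ^ k = 0)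
    (h' : ∑ k ∈ Finset.range (d + 1), aeval (x : ℝ) (A' k) * η ^ k = 0) {k k' : ℕ} (hk : k ≤ d)
    (hk' : k' ≤ d) :
    aeval x (A k) * aeval x (A' k') = aeval x (A k') * aeval x (A' k) := by
  have key : ∀ B : ℕ → ℤ[X], ∑ k ∈ Finset.range (d + 1), aeval (x : ℝ) (B k) * η ^ k = 0 →
      ∃ g : ℚ, ∀ k ≤ d, aeval x (B k) = g * (F.map (Int.castRingHom ℚ)).coeff k := by
    intro B hB
    set U : ℚ[X] := ∑ k ∈ Finset.range (d + 1), Polynomial.C (aeval x (B k)) * X ^ k with hU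
    have hUη : aeval η U = 0 := by
      rw [← hB, hU, map_sum]
      refine Finset.sum_congr rfl fun k _ => ?_
      rw [map_mul, map_pow, aeval_X, aeval_C]
      congr 1
      have h1 := aeval_algebraMap_apply ℝ x (B k)
      exact h1.symm
    have hUc : ∀ i ≤ d, U.coeff i = aeval x (B i) := by
      intro i hi
      rw [hU, finsetSum_coeff]
      simp only [coeff_C_mul, coeff_X_pow, mul_ite, mul_one, mul_zero]
      rw [Finset.sum_ite_eq, if_pos (Finset.mem_range.mpr (by omega))]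
    have hUd : U.natDegree ≤ d := by
      refine natDegree_sum_le_of_forall_le _ _ fun k hk => ?_
      exact (natDegree_C_mul_X_pow_le _ _).trans (Nat.lt_succ_iff.mp (Finset.mem_range.mp hk))
    obtain ⟨G, hG⟩ := map_dvd_of_aeval hF hη hUη
    have hF0 : F.map (Int.castRingHom ℚ) ≠ 0 :=
      (Polynomial.map_ne_zero_iff Int.cast_injective).mpr hF.ne_zero
    have hFd : (F.map (Int.castRingHom ℚ)).natDegree = d := by
      rw [natDegree_map_eq_of_injective Int.cast_injective, hd]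
    have hG0 : G.natDegree = 0 := by
      by_cases hG0 : G = 0
      · rw [hG0, natDegree_zero]
      · have h1 : U.natDegree = d + G.natDegree := by
          rw [hG, natDegree_mul hF0 hG0, hFd]
        omega
    refine ⟨G.coeff 0, fun i hi => ?_⟩
    rw [← hUc i hi, hG, eq_C_of_natDegree_eq_zero hG0, coeff_mul_C, coeff_C_zero, mul_comm]
  obtain ⟨g, hg⟩ := key A h
  obtain ⟨g', hg'⟩ := key A' h'
  rw [hg k hk, hg k' hk', hg' k hk, hg' k' hk']
  ring

theorem eq_of_infinite {p q : ℤ[X]} {T : Set ℕ} (hT : T.Infinite)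
    (h : ∀ b ∈ T, aeval (1 / (b : ℚ)) p = aeval (1 / (b : ℚ)) q) : p = q := by
  have h1 : p.map (Int.castRingHom ℚ) = q.map (Int.castRingHom ℚ) := by
    apply eq_of_infinite_eval_eq
    have h2 : ((fun b : ℕ => 1 / (b : ℚ)) '' T).Infinite := by
      apply hT.image
      intro a _ b _ hab
      have hab' : 1 / (a : ℚ) = 1 / (b : ℚ) := hab
      rw [one_div, one_div, inv_inj] at hab'
      exact_mod_cast hab'
    refine h2.mono ?_
    rintro _ ⟨b, hb, rfl⟩
    show eval _ _ = eval _ _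
    rw [eval_map, eval_map]
    exact h b hb
  exact map_injective _ Int.cast_injective h1

theorem order_le_of_ne_zero {p : ℤ[X]} (hp : p ≠ 0) {L : ℕ} (hL : p.natDegree ≤ L) :
    (p : PowerSeries ℤ).order ≤ L := by
  have h1 : PowerSeries.coeff p.natDegree (p : PowerSeries ℤ) ≠ 0 := by
    rw [Polynomial.coeff_coe]
    exact leadingCoeff_ne_zero.mpr hp
  exact (PowerSeries.order_le _ h1).trans (by exact_mod_cast hL)

/-- The main theorem on numbers with bounded digits. -/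
theorem main_bounded (D κ s : ℕ) : ∃ b₀ : ℕ, ∀ b : ℕ, b₀ ≤ b → ∀ (e : ℕ → ℤ) (η : ℝ),
    (∀ n, 0 ≤ e n ∧ e n ≤ s) → HasSum (fun n => (e n : ℝ) * (1 / (b : ℝ)) ^ n) η →
    Irrational η → ∀ P : ℤ[X], P ≠ 0 → P.natDegree ≤ D →
      (∀ i, |(P.coeff i : ℝ)| ≤ (b : ℝ) ^ κ) → aeval η P = 0 → False := by
  classical
  by_contra hcon
  push Not at hcon
  set T : Set ℕ := {b | ∃ (e : ℕ → ℤ) (η : ℝ) (F : ℤ[X]), (∀ n, 0 ≤ e n ∧ e n ≤ s) ∧
    HasSum (fun n => (e n : ℝ) * (1 / (b : ℝ)) ^ n) η ∧ Irrational η ∧ Irreducible F ∧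
    F.natDegree ≤ D ∧ aeval η F = 0 ∧ mah F ≤ (D + 1) * (b : ℝ) ^ κ} with hT
  have hTfreq : ∃ᶠ b in atTop, b ∈ T := by
    rw [frequently_atTop]
    intro b₀
    obtain ⟨b, hb, e, η, he, hη, hirr, P, hP0, hPD, hPc, hPη, -⟩ := hcon b₀
    obtain ⟨F, hF, hFP, hFη⟩ := exists_irreducible_factor hP0 hPη
    refine ⟨b, hb, e, η, F, he, hη, hirr, hF, (natDegree_le_of_dvd hFP hP0).trans hPD, hFη, ?_⟩
    exact (mah_le_of_dvd hFP hP0).trans (mah_le_of_coeff_le hPD hPc)
  have hex : ∀ b : ℕ, ∃ (e : ℕ → ℤ) (η : ℝ) (F : ℤ[X]), b ∈ T → ((∀ n, 0 ≤ e n ∧ e n ≤ s) ∧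
    HasSum (fun n => (e n : ℝ) * (1 / (b : ℝ)) ^ n) η ∧ Irrational η ∧ Irreducible F ∧
    F.natDegree ≤ D ∧ aeval η F = 0 ∧ mah F ≤ (D + 1) * (b : ℝ) ^ κ) := by
    intro b
    by_cases hb : b ∈ T
    · obtain ⟨e, η, F, h⟩ := hb
      exact ⟨e, η, F, fun _ => h⟩
    · exact ⟨0, 0, 0, fun h => absurd h hb⟩
  choose e η F hprop using hex
  have hne : (atTop ⊓ 𝓟 T).NeBot := frequently_mem_iff_neBot.mp hTfreq
  set 𝓤 : Ultrafilter ℕ := Ultrafilter.of (atTop ⊓ 𝓟 T) with h𝓤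
  have hle : (𝓤 : Filter ℕ) ≤ atTop ⊓ 𝓟 T := Ultrafilter.of_le _
  have hletop : (𝓤 : Filter ℕ) ≤ atTop := hle.trans inf_le_left
  have hT𝓤 : ∀ᶠ b : ℕ in (𝓤 : Filter ℕ), b ∈ T := (hle.trans inf_le_right) (mem_principal_self T)
  have hlarge : ∀ b₀ : ℕ, ∀ᶠ b : ℕ in (𝓤 : Filter ℕ), b₀ ≤ b := fun b₀ =>
    hletop (eventually_ge_atTop b₀)
  have hinf : ∀ p : ℕ → Prop, (∀ᶠ b : ℕ in (𝓤 : Filter ℕ), p b) → {b | p b}.Infinite := by
    intro p hp
    rw [← Nat.frequently_atTop_iff_infinite]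
    exact hp.frequently.filter_mono hletop
  -- the limit digits
  have hdig : ∀ n, ∃ c ∈ Set.Icc (0 : ℤ) s, ∀ᶠ b : ℕ in (𝓤 : Filter ℕ), e b n = c := by
    intro n
    refine ultra_const 𝓤 (fun b => e b n) (Set.finite_Icc _ _) ?_
    filter_upwards [hT𝓤] with b hb
    exact ⟨((hprop b hb).1 n).1, ((hprop b hb).1 n).2⟩
  choose c hc hce using hdig
  set z : PowerSeries ℤ := PowerSeries.mk c with hz
  have hzc : ∀ n, PowerSeries.coeff n z = c n := fun n => PowerSeries.coeff_mk n c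
  have hagree : ∀ M : ℕ, ∀ᶠ b : ℕ in (𝓤 : Filter ℕ), ∀ n < M, e b n = PowerSeries.coeff n z := by
    intro M
    have h1 : ∀ᶠ b : ℕ in (𝓤 : Filter ℕ), ∀ n ∈ Set.Iio M, e b n = c n :=
      (eventually_all_finite (Set.finite_Iio M)).mpr fun n _ => hce n
    filter_upwards [h1] with b hb n hn
    rw [hzc]
    exact hb n hn
  -- the degree
  obtain ⟨d, hdD, hd⟩ := ultra_const 𝓤 (fun b => (F b).natDegree) (Set.finite_Iic D) (by
    filter_upwards [hT𝓤] with b hb
    exact (hprop b hb).2.2.2.2.1)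
  have hd0 : 0 < d := by
    obtain ⟨b, hb, hbd⟩ := (hT𝓤.and hd).exists
    obtain ⟨-, -, -, hF, -, hFη, -⟩ := hprop b hb
    rw [← hbd]
    exact natDegree_pos_of_irreducible hF hFη
  -- vanishing along the ultrafilter
  have hvan : ∀ (m : ℕ) (A : ℕ → ℤ[X]) (q M : ℕ), (∀ k, (A k).natDegree ≤ q) →
      PowerSeries.X ^ M ∣ form m A z → q * d + κ * m + 1 ≤ M →
      ∀ᶠ b : ℕ in (𝓤 : Filter ℕ),
        ∑ k ∈ Finset.range (m + 1), aeval (1 / (b : ℝ)) (A k) * η b ^ k = 0 := by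
    intro m A q M hA hdvd hM
    obtain ⟨b₀, hb₀⟩ := vanish m A q hA z M hdvd s d κ ((D : ℝ) + 1) hM hd0
    filter_upwards [hT𝓤, hlarge b₀, hagree M, hd] with b hbT hb hba hbd
    obtain ⟨he, hη, hirr, hF, hFD, hFη, hFm⟩ := hprop b hbT
    exact hb₀ b hb (e b) (η b) he hba hη (F b) hF hbd hFη hFm
  -- Padé approximants
  have hpade := fun L => exists_pade z d L hd0
  choose A hAdeg hAne hAdvd using hpade
  have hAvan : ∀ L, κ * d ≤ L → ∀ᶠ b : ℕ in (𝓤 : Filter ℕ),
      ∑ k ∈ Finset.range (d + 1), aeval (1 / (b : ℝ)) (A L k) * η b ^ k = 0 := by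
    intro L hL
    refine hvan d (A L) L _ (hAdeg L) (hAdvd L) ?_
    have h1 : (d + 1) * (L + 1) = L * d + d + L + 1 := by ring
    omega
  -- proportionality
  have hcross : ∀ L, κ * d ≤ L → ∀ L', κ * d ≤ L' → ∀ k ≤ d, ∀ k' ≤ d,
      A L k * A L' k' = A L k' * A L' k := by
    intro L hL L' hL' k hk k' hk'
    have h1 : ∀ᶠ b : ℕ in (𝓤 : Filter ℕ), aeval (1 / (b : ℚ)) (A L k * A L' k') =
        aeval (1 / (b : ℚ)) (A L k' * A L' k) := by
      filter_upwards [hT𝓤, hd, hAvan L hL, hAvan L' hL'] with b hbT hbd h2 h3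
      obtain ⟨-, -, -, hF, -, hFη, -⟩ := hprop b hbT
      rw [map_mul, map_mul]
      have hx : ((1 / (b : ℚ) : ℚ) : ℝ) = 1 / (b : ℝ) := by push_cast; rfl
      rw [← hx] at h2 h3
      exact cross_relation hF hFη hbd _ h2 h3 hk hk'
    exact eq_of_infinite (hinf _ h1) fun b hb => hb
  -- the form of the first approximant vanishes
  set L₀ := κ * d with hL₀
  obtain ⟨k₀, hk₀, hAk₀⟩ := hAne L₀
  have hzero : form d (A L₀) z = 0 := by
    by_contra hG
    set G := form d (A L₀) z with hGdef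
    obtain ⟨o, ho⟩ : ∃ o : ℕ, G.order = o := by
      have : G.order ≠ ⊤ := by
        rw [Ne, PowerSeries.order_eq_top]
        exact hG
      exact ⟨G.order.toNat, (ENat.natCast_toNat this).symm⟩
    set L := L₀ + o + 1 with hLdef
    have hL : κ * d ≤ L := by omega
    have hAL : A L k₀ ≠ 0 := by
      intro h0
      obtain ⟨k', hk', hAk'⟩ := hAne L
      have h1 := hcross L₀ le_rfl L hL k₀ hk₀ k' hk'
      rw [h0, mul_zero] at h1
      exact (mul_ne_zero hAk₀ hAk') h1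
    have hmul : (A L k₀ : PowerSeries ℤ) * G = (A L₀ k₀ : PowerSeries ℤ) * form d (A L) z := by
      rw [hGdef, form, form, Finset.mul_sum, Finset.mul_sum]
      refine Finset.sum_congr rfl fun k hk => ?_
      have hk' : k ≤ d := Nat.lt_succ_iff.mp (Finset.mem_range.mp hk)
      have h1 := hcross L₀ le_rfl L hL k hk' k₀ hk₀
      have h2 : (A L₀ k : PowerSeries ℤ) * (A L k₀ : PowerSeries ℤ) =
          (A L₀ k₀ : PowerSeries ℤ) * (A L k : PowerSeries ℤ) := by
        rw [← Polynomial.coe_mul, h1, Polynomial.coe_mul]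
      rw [← mul_assoc, ← mul_assoc, mul_comm (A L k₀ : PowerSeries ℤ), h2]
    have hdvd : PowerSeries.X ^ ((d + 1) * (L + 1) - 1) ∣ (A L k₀ : PowerSeries ℤ) * G := by
      rw [hmul]
      exact (hAdvd L).mul_left _
    have hord : (((d + 1) * (L + 1) - 1 : ℕ) : ℕ∞) ≤ ((A L k₀ : PowerSeries ℤ) * G).order := by
      rw [PowerSeries.order_eq_emultiplicity_X]
      exact le_emultiplicity_of_pow_dvd hdvd
    rw [PowerSeries.order_mul, ho] at hord
    have h3 := order_le_of_ne_zero hAL (hAdeg L k₀)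
    have h4 : (((d + 1) * (L + 1) - 1 : ℕ) : ℕ∞) ≤ ((L + o : ℕ) : ℕ∞) := by
      refine hord.trans ?_
      push_cast
      gcongr
    have h5 : (d + 1) * (L + 1) - 1 ≤ L + o := by exact_mod_cast h4
    have h6 : (d + 1) * (L + 1) = L * d + d + L + 1 := by ring
    have h7 : L ≤ L * d := Nat.le_mul_of_pos_right L hd0
    omega
  -- the limit series is rational
  have hzb : ∀ n, |((PowerSeries.coeff n z : ℤ) : ℝ)| ≤ s := by
    intro n
    rw [hzc]
    have h1 := (hc n).1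
    have h2 := (hc n).2
    rw [abs_of_nonneg (by exact_mod_cast h1)]
    exact_mod_cast h2
  obtain ⟨Q, P, hQ0, hQP⟩ := fatou hzb hzero ⟨k₀, hk₀, hAk₀⟩
  set A' : ℕ → ℤ[X] := fun k => if k = 0 then -P else if k = 1 then Q else 0 with hA'
  have hform' : form 1 A' z = 0 := by
    rw [form, Finset.sum_range_succ, Finset.sum_range_one]
    simp only [hA', if_true, pow_zero, mul_one, pow_one, one_ne_zero, if_false]
    rw [hQP, ← Polynomial.coe_add, neg_add_cancel, Polynomial.coe_zero]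
  set q := max P.natDegree Q.natDegree with hq
  have hA'deg : ∀ k, (A' k).natDegree ≤ q := by
    intro k
    simp only [hA']
    split_ifs
    · rw [natDegree_neg]; exact le_max_left _ _
    · exact le_max_right _ _
    · rw [natDegree_zero]; exact Nat.zero_le _
  have hlast := hvan 1 A' q (q * d + κ * 1 + 1) hA'deg (by rw [hform']; exact dvd_zero _) le_rfl
  have hQroots : ∀ᶠ b : ℕ in (𝓤 : Filter ℕ), aeval (1 / (b : ℚ)) Q ≠ 0 := by
    by_contra hcon2
    rw [Ultrafilter.eventually_not] at hcon2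
    push Not at hcon2
    apply hQ0
    refine eq_of_infinite (hinf _ hcon2) fun b hb => ?_
    rw [map_zero]
    exact hb
  obtain ⟨b, hbT, hb1, hb2⟩ := (hT𝓤.and (hlast.and hQroots)).exists
  obtain ⟨-, -, hirr, -, -, -, -⟩ := hprop b hbT
  apply hirr
  rw [Finset.sum_range_succ, Finset.sum_range_one] at hb1
  simp only [hA', if_true, pow_zero, mul_one, pow_one, one_ne_zero, if_false, map_neg] at hb1
  have hx : (1 / (b : ℝ)) = algebraMap ℚ ℝ (1 / (b : ℚ)) := by simp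
  rw [hx, aeval_algebraMap_apply, aeval_algebraMap_apply] at hb1
  refine ⟨aeval (1 / (b : ℚ)) P / aeval (1 / (b : ℚ)) Q, ?_⟩
  have hne' : ((aeval (1 / (b : ℚ)) Q : ℚ) : ℝ) ≠ 0 := by exact_mod_cast hb2
  rw [Rat.cast_div, div_eq_iff hne']
  have h8 : ((aeval (1 / (b : ℚ)) Q : ℚ) : ℝ) * η b = ((aeval (1 / (b : ℚ)) P : ℚ) : ℝ) := by
    have h9 : -((aeval (1 / (b : ℚ)) P : ℚ) : ℝ) + ((aeval (1 / (b : ℚ)) Q : ℚ) : ℝ) * η b = 0 := hb1
    linarith
  rw [← h8]
  ring

end Pool.Agent.Helper2.Digits
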