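import Mathlib

/-!
Existence of Hermite-Padé approximants for the powers of a power series with integer coefficients.
-/

set_option autoImplicit false

open Polynomial

namespace Pool.Agent.Helper2.Digits

/-- The form `∑ A_k z ^ k` evaluated in power series. -/
noncomputable def form (m : ℕ) (A : ℕ → ℤ[X]) (z : PowerSeries ℤ) : PowerSeries ℤ :=
  ∑ k ∈ Finset.range (m + 1), (A k : PowerSeries ℤ) * z ^ k

theorem exists_pade (z : PowerSeries ℤ) (d L : ℕ) (hd : 0 < d) :
    ∃ A : ℕ → ℤ[X], (∀ k, (A k).natDegree ≤ L) ∧ (∃ k ≤ d, A k ≠ 0) ∧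
      PowerSeries.X ^ ((d + 1) * (L + 1) - 1) ∣ form d A z := by
  classical
  set M := (d + 1) * (L + 1) - 1 with hM
  have hM1 : M + 1 = (d + 1) * (L + 1) := by
    have : 0 < (d + 1) * (L + 1) := by positivity
    omega
  have hM0 : 0 < M := by
    have : 2 ≤ (d + 1) * (L + 1) := by nlinarith
    omega
  let B : Matrix (Fin M) (Fin (d + 1) × Fin (L + 1)) ℤ :=
    fun n ki => PowerSeries.coeff n.1 ((PowerSeries.X : PowerSeries ℤ) ^ ki.2.1 * z ^ ki.1.1)
  have hcard : Fintype.card (Fin M) < Fintype.card (Fin (d + 1) × Fin (L + 1)) := by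
    rw [Fintype.card_prod, Fintype.card_fin, Fintype.card_fin, Fintype.card_fin]
    omega
  have hcard0 : 0 < Fintype.card (Fin M) := by rwa [Fintype.card_fin]
  obtain ⟨t, ht0, htB, -⟩ := Int.Matrix.exists_ne_zero_int_vec_norm_le B hcard hcard0
  let A : ℕ → ℤ[X] := fun k =>
    if hk : k < d + 1 then ∑ i : Fin (L + 1), Polynomial.C (t (⟨k, hk⟩, i)) * X ^ i.1 else 0
  have hAk : ∀ k : Fin (d + 1), A k.1 = ∑ i : Fin (L + 1), Polynomial.C (t (k, i)) * X ^ i.1 := by
    intro k
    show (if hk : k.1 < d + 1 then ∑ i : Fin (L + 1), Polynomial.C (t (⟨k.1, hk⟩, i)) * X ^ i.1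
      else 0) = _
    rw [dif_pos k.2]
  refine ⟨A, ?_, ?_, ?_⟩
  · intro k
    by_cases hk : k < d + 1
    · rw [hAk ⟨k, hk⟩]
      refine natDegree_sum_le_of_forall_le _ _ fun i _ => ?_
      refine (natDegree_C_mul_X_pow_le _ _).trans ?_
      exact Nat.lt_succ_iff.mp i.2
    · show (if hk : k < d + 1 then _ else 0 : ℤ[X]).natDegree ≤ L
      rw [dif_neg hk, natDegree_zero]
      exact Nat.zero_le _
  · obtain ⟨⟨k, i⟩, hki⟩ : ∃ ki, t ki ≠ 0 := by
      by_contra hcon
      push Not at hcon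
      exact ht0 (funext hcon)
    refine ⟨k.1, Nat.lt_succ_iff.mp k.2, fun h0 => hki ?_⟩
    rw [hAk k] at h0
    have h1 := congrArg (fun q : ℤ[X] => q.coeff i.1) h0
    simp only [finsetSum_coeff, coeff_C_mul, coeff_X_pow, coeff_zero] at h1
    rw [Finset.sum_eq_single i] at h1
    · simpa using h1
    · intro j _ hj
      have : i.1 ≠ j.1 := fun h => hj (Fin.ext h.symm)
      simp [this]
    · intro h
      exact absurd (Finset.mem_univ i) h
  · rw [PowerSeries.X_pow_dvd_iff]
    intro n hn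
    have h1 : Matrix.mulVec B t ⟨n, hn⟩ = 0 := by rw [htB]; rfl
    rw [Matrix.mulVec, dotProduct, Fintype.sum_prod_type] at h1
    rw [form, map_sum, ← h1, Finset.sum_range]
    refine Finset.sum_congr rfl fun k _ => ?_
    rw [hAk k]
    have h2 : ((∑ i : Fin (L + 1), Polynomial.C (t (k, i)) * X ^ i.1 : ℤ[X]) : PowerSeries ℤ) =
        ∑ i : Fin (L + 1), PowerSeries.C (t (k, i)) * PowerSeries.X ^ i.1 := by
      rw [← Polynomial.coeToPowerSeries.ringHom_apply, map_sum]
      refine Finset.sum_congr rfl fun i _ => ?_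
      rw [map_mul, map_pow]
      simp
    rw [h2, Finset.sum_mul, map_sum]
    refine Finset.sum_congr rfl fun i _ => ?_
    rw [mul_assoc, PowerSeries.coeff_C_mul, mul_comm]

end Pool.Agent.Helper2.Digits
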