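import Pool.Agent.Helper2.Digits.Germ

/-!
If a combination of power series with bounded integer coefficients at `1 / b`, with moderate
integers as coefficients, is algebraic over the moderate integers, then it is a combination of the
same moderate integers with coefficients in `ℚ(1 / b)`.
-/

set_option autoImplicit false

open Polynomial Filter Topology

namespace Pool.Agent.Helper2.Digits

/-- Power series with bounded coefficients. -/
def Bdd (z : PowerSeries ℤ) : Prop := ∃ W : ℝ, ∀ n, |((PowerSeries.coeff n z : ℤ) : ℝ)| ≤ W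

theorem Bdd.add {y z : PowerSeries ℤ} (hy : Bdd y) (hz : Bdd z) : Bdd (y + z) := by
  obtain ⟨W, hW⟩ := hy
  obtain ⟨V, hV⟩ := hz
  refine ⟨W + V, fun n => ?_⟩
  rw [map_add, Int.cast_add]
  exact (abs_add_le _ _).trans (add_le_add (hW n) (hV n))

theorem Bdd.zero : Bdd 0 := ⟨0, fun n => by simp⟩

theorem Bdd.coe_mul {z : PowerSeries ℤ} (hz : Bdd z) (A : ℤ[X]) :
    Bdd ((A : PowerSeries ℤ) * z) := by
  induction A using Polynomial.induction_on' with
  | add p q hp hq =>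
    rw [Polynomial.coe_add, add_mul]
    exact hp.add hq
  | monomial n a =>
    obtain ⟨W, hW⟩ := hz
    refine ⟨|(a : ℝ)| * W, fun m => ?_⟩
    have hW0 : 0 ≤ W := (abs_nonneg _).trans (hW 0)
    rw [← C_mul_X_pow_eq_monomial, Polynomial.coe_mul, Polynomial.coe_pow, Polynomial.coe_C,
      Polynomial.coe_X, mul_assoc, PowerSeries.coeff_C_mul, PowerSeries.coeff_X_pow_mul']
    split_ifs with h
    · rw [Int.cast_mul, abs_mul]
      exact mul_le_mul_of_nonneg_left (hW _) (abs_nonneg _)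
    · rw [mul_zero, Int.cast_zero, abs_zero]
      positivity

theorem Bdd.sum {ι : Type*} (s : Finset ι) {z : ι → PowerSeries ℤ} (hz : ∀ i ∈ s, Bdd (z i)) :
    Bdd (∑ i ∈ s, z i) := by
  classical
  induction s using Finset.induction_on with
  | empty => simpa using Bdd.zero
  | insert i s hi ih =>
    rw [Finset.sum_insert hi]
    exact (hz i (Finset.mem_insert_self i s)).add
      (ih fun j hj => hz j (Finset.mem_insert_of_mem hj))

theorem Bdd.mem_convRing {z : PowerSeries ℤ} (hz : Bdd z) : z ∈ convRing := by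
  obtain ⟨W, hW⟩ := hz
  exact mem_convRing_of_bounded hW

namespace GermHom

variable {𝓤 : Ultrafilter ℕ} {Ω : Type*} [Field Ω] (g : GermHom 𝓤 Ω)

include g in
theorem charZero : CharZero Ω := by
  have h1 : Function.Injective (g.G.comp (algebraMap ℝ (ℕ → ℝ))) :=
    (g.G.comp (algebraMap ℝ (ℕ → ℝ))).injective
  exact charZero_of_injective_ringHom h1

/-- A bounded power series which is algebraic over `ℚ(1 / b)` is rational. -/
theorem rational_of_isAlgebraic {z : PowerSeries ℤ} (hz : Bdd z)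
    (h : IsAlgebraic g.F₀ (g.evg ⟨z, hz.mem_convRing⟩)) :
    ∃ Q P : ℤ[X], Q ≠ 0 ∧ (Q : PowerSeries ℤ) * z = P := by
  obtain ⟨d, c, hc, ⟨k₀, hk₀, hck₀⟩, hrel⟩ := exists_relation g.pp h
  choose B hB using hc
  obtain ⟨W, hW⟩ := id hz
  refine fatou (d := d) (A := B) hW ?_ ⟨k₀, hk₀, ?_⟩
  · set F : convRing := ∑ k ∈ Finset.range (d + 1),
      (⟨(B k : PowerSeries ℤ), coe_mem_convRing _⟩ : convRing) * ⟨z, hz.mem_convRing⟩ ^ k with hF
    have h1 : g.evg F = 0 := by
      rw [hF, map_sum, ← hrel]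
      refine Finset.sum_congr rfl fun k _ => ?_
      rw [map_mul, map_pow, ← hB k, evp_eq]
    have h2 : F = 0 := (map_eq_zero_iff g.evg g.evg_injective).mp h1
    have h3 : (F : PowerSeries ℤ) = form d B z := by
      rw [hF, AddSubmonoidClass.coe_finsetSum, form]
      refine Finset.sum_congr rfl fun k _ => ?_
      rw [Subring.coe_mul, Subring.coe_pow]
    rw [← h3, h2, ZeroMemClass.coe_zero]
  · intro h0
    apply hck₀
    rw [← hB k₀, h0, map_zero]

/-- The structure theorem. -/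
theorem exists_rational {m : ℕ} (c : Fin m → ℕ → ℤ) (hc : ∀ j, Mod 𝓤 (fun b => (c j b : ℝ)))
    (z : Fin m → PowerSeries ℤ) (hz : ∀ j, Bdd (z j))
    (halg : IsAlgebraic (Subfield.closure (g.zz : Set Ω))
      (∑ j, g.G (fun b => (c j b : ℝ)) * g.evg ⟨z j, (hz j).mem_convRing⟩)) :
    ∃ (Q : ℤ[X]) (R : Fin m → ℤ[X]), Q ≠ 0 ∧
      g.evp Q * (∑ j, g.G (fun b => (c j b : ℝ)) * g.evg ⟨z j, (hz j).mem_convRing⟩) =
        ∑ j, g.G (fun b => (c j b : ℝ)) * g.evp (R j) := by
  classical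
  have hchar : CharZero Ω := g.charZero
  have hchar₀ : CharZero g.F₀ := inferInstance
  set ζ : Ω := ∑ j, g.G (fun b => (c j b : ℝ)) * g.evg ⟨z j, (hz j).mem_convRing⟩ with hζ
  -- a maximal independent subset of the `c j`
  set v : Fin m → g.K₁ := fun j =>
    ⟨g.G (fun b => (c j b : ℝ)), Subfield.subset_closure (g.mem_zz (hc j))⟩ with hv
  obtain ⟨κ, a, ha, hspan, hli⟩ := exists_linearIndependent' g.F₀ v
  have hfin : Finite κ := Finite.of_injective a ha
  have := Fintype.ofFinite κ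
  have h1 : ∀ j, ∃ q : κ → g.F₀, ∑ l, q l • (v ∘ a) l = v j := by
    intro j
    rw [← Submodule.mem_span_range_iff_exists_fun, hspan]
    exact Submodule.subset_span ⟨j, rfl⟩
  choose q hq using h1
  obtain ⟨δ, hδ, hδ0, hδq⟩ := common_denom g.pp (fun jl : Fin m × κ => ((q jl.1 jl.2 : g.F₀) : Ω))
    (fun jl => (q jl.1 jl.2).2)
  obtain ⟨a₀, ha₀⟩ := hδ
  choose A hA using hδq
  have ha₀0 : a₀ ≠ 0 := by
    intro h0
    apply hδ0
    rw [← ha₀, h0, map_zero]
  -- the new power series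
  set Ψ : κ → PowerSeries ℤ := fun l => ∑ j, (A (j, l) : PowerSeries ℤ) * z j with hΨ
  have hΨb : ∀ l, Bdd (Ψ l) := fun l => Bdd.sum _ fun j _ => (hz j).coe_mul _
  have hΨe : ∀ l, g.evg ⟨Ψ l, (hΨb l).mem_convRing⟩ =
      ∑ j, g.evp (A (j, l)) * g.evg ⟨z j, (hz j).mem_convRing⟩ := by
    intro l
    have h2 : (⟨Ψ l, (hΨb l).mem_convRing⟩ : convRing) =
        ∑ j, (⟨(A (j, l) : PowerSeries ℤ), coe_mem_convRing _⟩ : convRing) *
          ⟨z j, (hz j).mem_convRing⟩ := by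
      apply Subtype.ext
      rw [AddSubmonoidClass.coe_finsetSum]
      rfl
    rw [h2, map_sum]
    refine Finset.sum_congr rfl fun j _ => ?_
    rw [map_mul, evp_eq]
  have hvj : ∀ j, g.evp a₀ * g.G (fun b => (c j b : ℝ)) =
      ∑ l, g.evp (A (j, l)) * g.G (fun b => (c (a l) b : ℝ)) := by
    intro j
    have h2 : g.G (fun b => (c j b : ℝ)) = ∑ l, ((q j l : g.F₀) : Ω) * g.G (fun b => (c (a l) b : ℝ)) := by
      have h3 : ((v j : g.K₁) : Ω) = g.G (fun b => (c j b : ℝ)) := rfl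
      rw [← h3, ← hq j, AddSubmonoidClass.coe_finsetSum]
      refine Finset.sum_congr rfl fun l _ => ?_
      rw [IntermediateField.coe_smul]
      rfl
    rw [h2, Finset.mul_sum]
    refine Finset.sum_congr rfl fun l _ => ?_
    rw [← mul_assoc]
    congr 1
    rw [hA (j, l), ha₀]
  have hζΨ : g.evp a₀ * ζ = ∑ l, ((v (a l) : g.K₁) : Ω) * g.evg ⟨Ψ l, (hΨb l).mem_convRing⟩ := by
    rw [hζ, Finset.mul_sum]
    have h3 : ∀ j, g.evp a₀ * (g.G (fun b => (c j b : ℝ)) * g.evg ⟨z j, (hz j).mem_convRing⟩) =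
        ∑ l, g.evp (A (j, l)) * g.G (fun b => (c (a l) b : ℝ)) *
          g.evg ⟨z j, (hz j).mem_convRing⟩ := by
      intro j
      rw [← mul_assoc, hvj j, Finset.sum_mul]
    simp_rw [h3]
    rw [Finset.sum_comm]
    refine Finset.sum_congr rfl fun l _ => ?_
    rw [hΨe l, Finset.mul_sum]
    refine Finset.sum_congr rfl fun j _ => ?_
    have h4 : ((v (a l) : g.K₁) : Ω) = g.G (fun b => (c (a l) b : ℝ)) := rfl
    rw [h4]
    ring
  -- algebraicity
  have halg' : IsAlgebraic g.K₁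
      (∑ l, ((v (a l) : g.K₁) : Ω) * g.evg ⟨Ψ l, (hΨb l).mem_convRing⟩) := by
    rw [← hζΨ]
    have h3 : IsAlgebraic (Subfield.closure (g.zz : Set Ω)) (g.evp a₀) :=
      isAlgebraic_algebraMap (⟨g.evp a₀, g.evp_mem_closure_zz a₀⟩ :
        Subfield.closure (g.zz : Set Ω))
    exact h3.mul halg
  have hle : IntermediateField.adjoin g.F₀
      (Set.range fun l => g.evg ⟨Ψ l, (hΨb l).mem_convRing⟩) ≤ g.E₁ := by
    rw [IntermediateField.adjoin_le_iff]
    rintro _ ⟨l, rfl⟩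
    exact Subfield.subset_closure ⟨_, rfl⟩
  have hΨalg : ∀ l, IsAlgebraic g.F₀ (g.evg ⟨Ψ l, (hΨb l).mem_convRing⟩) := fun l =>
    isAlgebraic_of_linearDisjoint (fun l => g.evg ⟨Ψ l, (hΨb l).mem_convRing⟩)
      (g.linearDisjoint.of_le_right hle) (v ∘ a) hli halg' l
  have hrat := fun l => g.rational_of_isAlgebraic (hΨb l) (hΨalg l)
  choose Q P hQ0 hQP using hrat
  have hQPe : ∀ l, g.evp (Q l) * g.evg ⟨Ψ l, (hΨb l).mem_convRing⟩ = g.evp (P l) := by
    intro l
    rw [evp_eq, evp_eq, ← map_mul]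
    congr 1
    exact Subtype.ext (hQP l)
  refine ⟨(∏ l, Q l) * a₀, fun j => ∑ l, if a l = j then (∏ l' ∈ Finset.univ.erase l, Q l') * P l
    else 0, mul_ne_zero (Finset.prod_ne_zero_iff.mpr fun l _ => hQ0 l) ha₀0, ?_⟩
  rw [map_mul, mul_assoc, hζΨ, Finset.mul_sum]
  have h5 : ∀ l, g.evp (∏ l, Q l) * (((v (a l) : g.K₁) : Ω) * g.evg ⟨Ψ l, (hΨb l).mem_convRing⟩) =
      g.G (fun b => (c (a l) b : ℝ)) * g.evp ((∏ l' ∈ Finset.univ.erase l, Q l') * P l) := by
    intro l
    rw [← Finset.mul_prod_erase Finset.univ Q (Finset.mem_univ l), map_mul, map_mul, ← hQPe l]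
    have h4 : ((v (a l) : g.K₁) : Ω) = g.G (fun b => (c (a l) b : ℝ)) := rfl
    rw [h4]
    ring
  simp_rw [h5, map_sum, Finset.mul_sum]
  rw [Finset.sum_comm]
  refine Finset.sum_congr rfl fun l _ => ?_
  rw [Finset.sum_eq_single (a l)]
  · rw [if_pos rfl]
  · intro j _ hj
    rw [if_neg (fun h => hj h.symm), map_zero, mul_zero]
  · intro h
    exact absurd (Finset.mem_univ _) h

end GermHom

end Pool.Agent.Helper2.Digits
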