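import Pool.Agent.Helper2.Digits.Key

/-!
Finite sums of products (moderate integer) * (convergent power series in `1 / b`), which are
smaller than all powers of `1 / b`, vanish.
-/

set_option autoImplicit false

open Polynomial Filter Topology

namespace Pool.Agent.Helper2.Digits

variable {𝓤 : Ultrafilter ℕ}

theorem Mod.add {u v : ℕ → ℝ} (h𝓤 : (𝓤 : Filter ℕ) ≤ atTop) (hu : Mod 𝓤 u) (hv : Mod 𝓤 v) :
    Mod 𝓤 (fun b => u b + v b) := by
  obtain ⟨κ, hκ⟩ := hu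
  obtain ⟨l, hl⟩ := hv
  refine ⟨κ + l + 1, ?_⟩
  filter_upwards [hκ, hl, ev_ge h𝓤 2] with b h1 h2 hb
  have hb1 : (1 : ℝ) ≤ b := by exact_mod_cast (by omega : 1 ≤ b)
  have hb2 : (2 : ℝ) ≤ b := by exact_mod_cast hb
  have h3 : (b : ℝ) ^ κ ≤ (b : ℝ) ^ (κ + l) := pow_le_pow_right₀ hb1 (by omega)
  have h4 : (b : ℝ) ^ l ≤ (b : ℝ) ^ (κ + l) := pow_le_pow_right₀ hb1 (by omega)
  have h5 : 0 ≤ (b : ℝ) ^ (κ + l) := by positivity
  calc |u b + v b| ≤ |u b| + |v b| := abs_add_le _ _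
    _ ≤ 2 * (b : ℝ) ^ (κ + l) := by linarith
    _ ≤ b * (b : ℝ) ^ (κ + l) := mul_le_mul_of_nonneg_right hb2 h5
    _ = (b : ℝ) ^ (κ + l + 1) := by rw [pow_succ, mul_comm]

theorem Mod.mul {u v : ℕ → ℝ} (hu : Mod 𝓤 u) (hv : Mod 𝓤 v) :
    Mod 𝓤 (fun b => u b * v b) := by
  obtain ⟨κ, hκ⟩ := hu
  obtain ⟨l, hl⟩ := hv
  refine ⟨κ + l, ?_⟩
  filter_upwards [hκ, hl] with b h1 h2
  rw [abs_mul, pow_add]
  exact mul_le_mul h1 h2 (abs_nonneg _) (by positivity)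

theorem Mod.const (h𝓤 : (𝓤 : Filter ℕ) ≤ atTop) (c : ℝ) : Mod 𝓤 (fun _ => c) := by
  refine ⟨1, ?_⟩
  filter_upwards [ev_gt h𝓤 |c|] with b hb
  rw [pow_one]
  exact hb.le

theorem Mod.natCast : Mod 𝓤 (fun b => (b : ℝ)) := by
  refine ⟨1, ?_⟩
  filter_upwards with b
  rw [pow_one, Nat.abs_cast]

theorem Mod.neg {u : ℕ → ℝ} (hu : Mod 𝓤 u) : Mod 𝓤 (fun b => - u b) := by
  obtain ⟨κ, hκ⟩ := hu
  refine ⟨κ, ?_⟩
  filter_upwards [hκ] with b h1
  rwa [abs_neg]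

theorem Mod.pow (h𝓤 : (𝓤 : Filter ℕ) ≤ atTop) {u : ℕ → ℝ} (hu : Mod 𝓤 u) (k : ℕ) :
    Mod 𝓤 (fun b => u b ^ k) := by
  induction k with
  | zero => simpa using Mod.const h𝓤 1
  | succ k ih => simpa only [pow_succ] using ih.mul hu

theorem Mod.sum (h𝓤 : (𝓤 : Filter ℕ) ≤ atTop) {ι : Type*} (s : Finset ι) {u : ι → ℕ → ℝ}
    (hu : ∀ i ∈ s, Mod 𝓤 (u i)) : Mod 𝓤 (fun b => ∑ i ∈ s, u i b) := by
  classical
  induction s using Finset.induction_on with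
  | empty => simpa using Mod.const h𝓤 0
  | insert i s hi ih =>
    have h1 := (hu i (Finset.mem_insert_self i s)).add h𝓤
      (ih fun j hj => hu j (Finset.mem_insert_of_mem hj))
    simpa only [Finset.sum_insert hi] using h1

theorem Tiny.congr {u v : ℕ → ℝ} (hu : Tiny 𝓤 u) (h : ∀ᶠ b : ℕ in (𝓤 : Filter ℕ), u b = v b) :
    Tiny 𝓤 v := by
  intro N
  filter_upwards [hu N, h] with b h1 h2
  rwa [← h2]

theorem Tiny.mul_mod (h𝓤 : (𝓤 : Filter ℕ) ≤ atTop) {u v : ℕ → ℝ} (hu : Tiny 𝓤 u)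
    (hv : Mod 𝓤 v) : Tiny 𝓤 (fun b => v b * u b) := by
  obtain ⟨κ, hκ⟩ := hv
  intro N
  filter_upwards [hκ, hu (N + κ), ev_ge h𝓤 1] with b h1 h2 hb
  have hbpos : (0 : ℝ) < b := by exact_mod_cast (by omega : 0 < b)
  rw [abs_mul]
  calc |v b| * |u b| ≤ (b : ℝ) ^ κ * (1 / (b : ℝ)) ^ (N + κ) :=
        mul_le_mul h1 h2 (abs_nonneg _) (by positivity)
    _ = (1 / (b : ℝ)) ^ N * ((b : ℝ) * (1 / (b : ℝ))) ^ κ := by rw [mul_pow, pow_add]; ring
    _ = (1 / (b : ℝ)) ^ N := by rw [mul_one_div_cancel hbpos.ne', one_pow, mul_one]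

theorem Tiny.add (h𝓤 : (𝓤 : Filter ℕ) ≤ atTop) {u v : ℕ → ℝ} (hu : Tiny 𝓤 u)
    (hv : Tiny 𝓤 v) : Tiny 𝓤 (fun b => u b + v b) := by
  intro N
  filter_upwards [hu (N + 1), hv (N + 1), ev_ge h𝓤 2] with b h1 h2 hb
  have hb2 : (2 : ℝ) ≤ b := by exact_mod_cast hb
  have hbpos : (0 : ℝ) < b := by linarith
  have h3 : (1 / (b : ℝ)) ^ (N + 1) * b = (1 / (b : ℝ)) ^ N := by
    rw [pow_succ, mul_assoc, one_div_mul_cancel hbpos.ne', mul_one]
  have h4 : 0 ≤ (1 / (b : ℝ)) ^ (N + 1) := by positivity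
  calc |u b + v b| ≤ |u b| + |v b| := abs_add_le _ _
    _ ≤ (1 / (b : ℝ)) ^ (N + 1) * 2 := by linarith
    _ ≤ (1 / (b : ℝ)) ^ (N + 1) * b := mul_le_mul_of_nonneg_left hb2 h4
    _ = (1 / (b : ℝ)) ^ N := h3

theorem Tiny.zero : Tiny 𝓤 (fun _ => 0) := by
  intro N
  filter_upwards with b
  rw [abs_zero]
  positivity

theorem Tiny.sum (h𝓤 : (𝓤 : Filter ℕ) ≤ atTop) {ι : Type*} (s : Finset ι) {u : ι → ℕ → ℝ}
    (hu : ∀ i ∈ s, Tiny 𝓤 (u i)) : Tiny 𝓤 (fun b => ∑ i ∈ s, u i b) := by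
  classical
  induction s using Finset.induction_on with
  | empty => simpa using Tiny.zero
  | insert i s hi ih =>
    have h1 := (hu i (Finset.mem_insert_self i s)).add h𝓤
      (ih fun j hj => hu j (Finset.mem_insert_of_mem hj))
    simpa only [Finset.sum_insert hi] using h1

/-- A moderate integer which is tiny vanishes. -/
theorem Tiny.eq_zero_of_int (h𝓤 : (𝓤 : Filter ℕ) ≤ atTop) {u : ℕ → ℤ}
    (hu : Tiny 𝓤 (fun b => (u b : ℝ))) : ∀ᶠ b : ℕ in (𝓤 : Filter ℕ), u b = 0 := by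
  filter_upwards [hu 1, ev_ge h𝓤 2] with b h1 hb
  have hb2 : (2 : ℝ) ≤ b := by exact_mod_cast hb
  have h2 : |(u b : ℝ)| < 1 := by
    refine h1.trans_lt ?_
    rw [pow_one, div_lt_one (by linarith)]
    linarith
  have h3 : |u b| < 1 := by exact_mod_cast h2
  exact Int.abs_lt_one_iff.mp h3

theorem evr_zero (x : ℝ) : evr 0 x = 0 := by
  unfold evr
  simp

theorem evr_neg (f : PowerSeries ℤ) (x : ℝ) : evr (-f) x = - evr f x := by
  unfold evr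
  rw [← tsum_neg]
  refine tsum_congr fun n => ?_
  rw [map_neg, Int.cast_neg, neg_mul]

theorem ev_ASr (h𝓤 : (𝓤 : Filter ℕ) ≤ atTop) {φ : PowerSeries ℤ} (hφ : φ ∈ convRing) :
    ∀ᶠ b : ℕ in (𝓤 : Filter ℕ), ASr φ (1 / (b : ℝ)) := by
  obtain ⟨r, hr, hfr⟩ := hφ
  filter_upwards [ev_small h𝓤 hr] with b hb
  exact hfr.mono hb.1.le hb.2

theorem ev_aeval_ne_zero (h𝓤 : (𝓤 : Filter ℕ) ≤ atTop) {φ : PowerSeries ℤ} (hφ : φ ∈ convRing)
    (h0 : φ ≠ 0) : ∀ᶠ b : ℕ in (𝓤 : Filter ℕ), evr φ (1 / (b : ℝ)) ≠ 0 := by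
  obtain ⟨r, hr, hfr⟩ := evr_ne_zero hφ h0
  filter_upwards [ev_small h𝓤 hr] with b hb
  exact hfr _ hb.1 hb.2

theorem mod_evr (h𝓤 : (𝓤 : Filter ℕ) ≤ atTop) {φ : PowerSeries ℤ} (hφ : φ ∈ convRing) :
    Mod 𝓤 (fun b => evr φ (1 / (b : ℝ))) := by
  obtain ⟨r, hr, hfr⟩ := hφ
  obtain ⟨K, hK0, hK⟩ := exists_tail hr hfr 0
  refine ⟨1, ?_⟩
  filter_upwards [ev_small h𝓤 hr, ev_gt h𝓤 K] with b hb hbK
  have h1 := hK _ hb.1.le hb.2
  rw [Finset.sum_range_zero, sub_zero, pow_zero, mul_one] at h1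
  rw [pow_one]
  linarith

/-- A finite family version of the key lemma: tiny sums vanish. -/
theorem kl (h𝓤 : (𝓤 : Filter ℕ) ≤ atTop) : ∀ (n : ℕ) (t : Fin n → ℕ → ℤ)
    (_ : ∀ i, Mod 𝓤 (fun b => (t i b : ℝ))) (φ : Fin n → PowerSeries ℤ)
    (_ : ∀ i, φ i ∈ convRing)
    (_ : Tiny 𝓤 (fun b => ∑ i, (t i b : ℝ) * evr (φ i) (1 / (b : ℝ)))),
    ∀ᶠ b : ℕ in (𝓤 : Filter ℕ), ∑ i, (t i b : ℝ) * evr (φ i) (1 / (b : ℝ)) = 0 := by
  intro n
  induction n with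
  | zero =>
    intro t _ φ _ _
    filter_upwards with b
    simp
  | succ n ih =>
    intro t ht φ hφ htiny
    by_cases hne : ∃ i, φ i ≠ 0
    · obtain ⟨A, ⟨l, hl⟩, hA⟩ := skl h𝓤 t ht φ hφ hne htiny
      set φ' : Fin n → PowerSeries ℤ := fun i =>
        (A l : PowerSeries ℤ) * φ (l.succAbove i) - (A (l.succAbove i) : PowerSeries ℤ) * φ l with hφ'
      have hφ'c : ∀ i, φ' i ∈ convRing := fun i =>
        sub_mem (mul_mem (coe_mem_convRing _) (hφ _)) (mul_mem (coe_mem_convRing _) (hφ _))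
      have hAl : (A l : PowerSeries ℤ) ≠ 0 := by
        rw [Ne, ← Polynomial.coe_zero]
        exact fun h => hl (Polynomial.coe_injective ℤ h)
      have hconv : ∀ᶠ b : ℕ in (𝓤 : Filter ℕ), ∀ i, ASr (φ i) (1 / (b : ℝ)) := by
        rw [eventually_all]
        exact fun i => ev_ASr h𝓤 (hφ i)
      have hkey : ∀ᶠ b : ℕ in (𝓤 : Filter ℕ),
          evr (A l : PowerSeries ℤ) (1 / (b : ℝ)) * ∑ i, (t i b : ℝ) * evr (φ i) (1 / (b : ℝ)) =
          ∑ i, (t (l.succAbove i) b : ℝ) * evr (φ' i) (1 / (b : ℝ)) := by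
        filter_upwards [hA, hconv] with b hb hc
        have h1 : ∀ i, evr (φ' i) (1 / (b : ℝ)) = aeval (1 / (b : ℝ)) (A l) *
            evr (φ (l.succAbove i)) (1 / (b : ℝ)) -
              aeval (1 / (b : ℝ)) (A (l.succAbove i)) * evr (φ l) (1 / (b : ℝ)) := by
          intro i
          rw [hφ']
          simp only
          rw [sub_eq_add_neg, evr_add ((ASr_coe _ _).mul (hc _)) ((ASr_coe _ _).mul (hc _)).neg,
            evr_neg, evr_mul (ASr_coe _ _) (hc _), evr_mul (ASr_coe _ _) (hc _), evr_coe, evr_coe,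
            sub_eq_add_neg]
        simp_rw [h1]
        rw [evr_coe]
        rw [Fin.sum_univ_succAbove _ l] at hb ⊢
        have h2 : (t l b : ℝ) * aeval (1 / (b : ℝ)) (A l) =
            - ∑ i, (t (l.succAbove i) b : ℝ) * aeval (1 / (b : ℝ)) (A (l.succAbove i)) := by
          linarith
        rw [mul_add]
        have h3 : aeval (1 / (b : ℝ)) (A l) * ((t l b : ℝ) * evr (φ l) (1 / (b : ℝ))) =
            - ∑ i, (t (l.succAbove i) b : ℝ) * (aeval (1 / (b : ℝ)) (A (l.succAbove i)) *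
              evr (φ l) (1 / (b : ℝ))) := by
          calc aeval (1 / (b : ℝ)) (A l) * ((t l b : ℝ) * evr (φ l) (1 / (b : ℝ))) =
              ((t l b : ℝ) * aeval (1 / (b : ℝ)) (A l)) * evr (φ l) (1 / (b : ℝ)) := by ring
            _ = _ := by
              rw [h2, neg_mul, Finset.sum_mul]
              congr 1
              refine Finset.sum_congr rfl fun i _ => ?_
              ring
        rw [h3, Finset.mul_sum]
        simp_rw [mul_sub]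
        rw [Finset.sum_sub_distrib]
        have h4 : ∑ i : Fin n, aeval (1 / (b : ℝ)) (A l) *
            ((t (l.succAbove i) b : ℝ) * evr (φ (l.succAbove i)) (1 / (b : ℝ))) =
            ∑ i : Fin n, (t (l.succAbove i) b : ℝ) * (aeval (1 / (b : ℝ)) (A l) *
              evr (φ (l.succAbove i)) (1 / (b : ℝ))) :=
          Finset.sum_congr rfl fun i _ => by ring
        rw [h4]
        ring
      have htiny' : Tiny 𝓤 (fun b => ∑ i, (t (l.succAbove i) b : ℝ) * evr (φ' i) (1 / (b : ℝ))) :=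
        (htiny.mul_mod h𝓤 (mod_evr h𝓤 (coe_mem_convRing (A l)))).congr hkey
      have h5 := ih (fun i => t (l.succAbove i)) (fun i => ht _) φ' hφ'c htiny'
      filter_upwards [hkey, h5, ev_aeval_ne_zero h𝓤 (coe_mem_convRing (A l)) hAl] with b h1 h2 h3
      rw [h2] at h1
      exact (mul_eq_zero.mp h1).resolve_left h3
    · push Not at hne
      filter_upwards with b
      refine Finset.sum_eq_zero fun i _ => ?_
      rw [hne i, evr_zero, mul_zero]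

/-- Finite sums of products (moderate integer) * (convergent power series in `1 / b`). -/
def Rep (𝓤 : Ultrafilter ℕ) (u : ℕ → ℝ) : Prop :=
  ∃ (ι : Type) (_ : Fintype ι) (t : ι → ℕ → ℤ) (φ : ι → PowerSeries ℤ),
    (∀ i, Mod 𝓤 (fun b => (t i b : ℝ))) ∧ (∀ i, φ i ∈ convRing) ∧
      ∀ᶠ b : ℕ in (𝓤 : Filter ℕ), u b = ∑ i, (t i b : ℝ) * evr (φ i) (1 / (b : ℝ))

theorem Rep.eq_zero_of_tiny (h𝓤 : (𝓤 : Filter ℕ) ≤ atTop) {u : ℕ → ℝ} (hu : Rep 𝓤 u)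
    (ht : Tiny 𝓤 u) : ∀ᶠ b : ℕ in (𝓤 : Filter ℕ), u b = 0 := by
  obtain ⟨ι, _, t, φ, hm, hc, he⟩ := hu
  have e := Fintype.equivFin ι
  have he' : ∀ᶠ b : ℕ in (𝓤 : Filter ℕ), u b =
      ∑ i, (t (e.symm i) b : ℝ) * evr (φ (e.symm i)) (1 / (b : ℝ)) := by
    filter_upwards [he] with b hb
    rw [hb]
    exact (Equiv.sum_comp e.symm (fun i => (t i b : ℝ) * evr (φ i) (1 / (b : ℝ)))).symm
  have h1 := kl h𝓤 _ (fun i => t (e.symm i)) (fun i => hm _) (fun i => φ (e.symm i))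
    (fun i => hc _) (ht.congr he')
  filter_upwards [he', h1] with b h2 h3
  rw [h2, h3]

theorem Rep.of_mod {t : ℕ → ℤ} (ht : Mod 𝓤 (fun b => (t b : ℝ))) :
    Rep 𝓤 (fun b => (t b : ℝ)) := by
  refine ⟨Unit, inferInstance, fun _ => t, fun _ => 1, fun _ => ht, fun _ => one_mem _, ?_⟩
  filter_upwards with b
  have h1 : evr 1 (1 / (b : ℝ)) = 1 := by
    rw [← Polynomial.coe_one, evr_coe, map_one]
  rw [Fintype.sum_unique, h1, mul_one]

theorem Rep.of_conv (h𝓤 : (𝓤 : Filter ℕ) ≤ atTop) {φ : PowerSeries ℤ} (hφ : φ ∈ convRing) :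
    Rep 𝓤 (fun b => evr φ (1 / (b : ℝ))) := by
  refine ⟨Unit, inferInstance, fun _ _ => 1, fun _ => φ, fun _ => ?_, fun _ => hφ, ?_⟩
  · simpa using Mod.const h𝓤 1
  · filter_upwards with b
    rw [Fintype.sum_unique, Int.cast_one, one_mul]

theorem Rep.add {u v : ℕ → ℝ} (hu : Rep 𝓤 u) (hv : Rep 𝓤 v) : Rep 𝓤 (fun b => u b + v b) := by
  obtain ⟨ι, _, t, φ, hm, hc, he⟩ := hu
  obtain ⟨ι', _, t', φ', hm', hc', he'⟩ := hv
  refine ⟨ι ⊕ ι', inferInstance, Sum.elim t t', Sum.elim φ φ', ?_, ?_, ?_⟩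
  · rintro (i | i)
    · exact hm i
    · exact hm' i
  · rintro (i | i)
    · exact hc i
    · exact hc' i
  · filter_upwards [he, he'] with b h1 h2
    rw [h1, h2, Fintype.sum_sum_type]
    rfl

theorem Rep.mul (h𝓤 : (𝓤 : Filter ℕ) ≤ atTop) {u v : ℕ → ℝ} (hu : Rep 𝓤 u) (hv : Rep 𝓤 v) :
    Rep 𝓤 (fun b => u b * v b) := by
  obtain ⟨ι, _, t, φ, hm, hc, he⟩ := hu
  obtain ⟨ι', _, t', φ', hm', hc', he'⟩ := hv
  refine ⟨ι × ι', inferInstance, fun i b => t i.1 b * t' i.2 b, fun i => φ i.1 * φ' i.2, ?_, ?_, ?_⟩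
  · intro i
    simpa only [Int.cast_mul] using (hm i.1).mul (hm' i.2)
  · exact fun i => mul_mem (hc _) (hc' _)
  · have hconv : ∀ᶠ b : ℕ in (𝓤 : Filter ℕ), ∀ i, ASr (φ i) (1 / (b : ℝ)) := by
      rw [eventually_all]
      exact fun i => ev_ASr h𝓤 (hc i)
    have hconv' : ∀ᶠ b : ℕ in (𝓤 : Filter ℕ), ∀ i, ASr (φ' i) (1 / (b : ℝ)) := by
      rw [eventually_all]
      exact fun i => ev_ASr h𝓤 (hc' i)
    filter_upwards [he, he', hconv, hconv'] with b h1 h2 h3 h4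
    rw [h1, h2, Fintype.sum_mul_sum, Fintype.sum_prod_type]
    refine Finset.sum_congr rfl fun i _ => Finset.sum_congr rfl fun j _ => ?_
    rw [evr_mul (h3 i) (h4 j)]
    push_cast
    ring

theorem Rep.pow (h𝓤 : (𝓤 : Filter ℕ) ≤ atTop) {u : ℕ → ℝ} (hu : Rep 𝓤 u) (k : ℕ) :
    Rep 𝓤 (fun b => u b ^ k) := by
  induction k with
  | zero => simpa using Rep.of_mod (t := fun _ => 1) (by simpa using Mod.const h𝓤 1)
  | succ k ih => simpa only [pow_succ] using ih.mul h𝓤 hu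

theorem Rep.sum (h𝓤 : (𝓤 : Filter ℕ) ≤ atTop) {ι : Type*} (s : Finset ι) {u : ι → ℕ → ℝ}
    (hu : ∀ i ∈ s, Rep 𝓤 (u i)) : Rep 𝓤 (fun b => ∑ i ∈ s, u i b) := by
  classical
  induction s using Finset.induction_on with
  | empty => simpa using Rep.of_mod (t := fun _ => 0) (by simpa using Mod.const h𝓤 0)
  | insert i s hi ih =>
    have h1 := (hu i (Finset.mem_insert_self i s)).add
      (ih fun j hj => hu j (Finset.mem_insert_of_mem hj))
    simpa only [Finset.sum_insert hi] using h1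

end Pool.Agent.Helper2.Digits
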